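import Mathlib

set_option autoImplicit false
open scoped Matrix.Norms.L2Operator Kronecker

namespace Pool.Agent.Helper234.Calkin


theorem countable_subsemigroup_closure_aux {B : Type} [Semigroup B] (C : Set B)
    (hC : C.Countable) : ((Subsemigroup.closure C : Subsemigroup B) : Set B).Countable := by
  have : Countable C := hC.to_subtype
  have hF : Countable (FreeSemigroup C) := by
    have hinj : Function.Injective (fun x : FreeSemigroup C => (x.head, x.tail)) := by
      intro x y h
      have h1 : x.head = y.head := congrArg Prod.fst h
      have h2 : x.tail = y.tail := congrArg Prod.snd h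
      exact FreeSemigroup.ext h1 h2
    exact hinj.countable
  let φ : FreeSemigroup C →ₙ* B := FreeSemigroup.lift (fun c : C => (c : B))
  have hle : Subsemigroup.closure C ≤ MulHom.srange φ := by
    apply Subsemigroup.closure_le.2
    intro c hc
    exact ⟨FreeSemigroup.of ⟨c, hc⟩, FreeSemigroup.lift_of _ _⟩
  refine Set.Countable.mono hle ?_
  have : ((MulHom.srange φ : Subsemigroup B) : Set B) = Set.range φ := MulHom.coe_srange φ
  rw [this]
  exact Set.countable_range φ

/-- A separable subset of a (non-unital) C*-algebra is contained in a separable closed star subalgebra. -/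
theorem exists_separable_alg {B : Type} [NonUnitalCStarAlgebra B] (G : Set B)
    (hG : TopologicalSpace.IsSeparable G) :
    ∃ S : NonUnitalStarSubalgebra ℂ B, IsClosed (S : Set B) ∧ G ⊆ (S : Set B) ∧
      TopologicalSpace.IsSeparable (S : Set B) := by
  obtain ⟨D, hD, hGD⟩ := hG
  refine ⟨(NonUnitalStarAlgebra.adjoin ℂ D).topologicalClosure,
    NonUnitalStarSubalgebra.isClosed_topologicalClosure _, ?_, ?_⟩
  · refine hGD.trans ?_
    exact closure_mono (NonUnitalStarAlgebra.subset_adjoin ℂ D)
  · have h1 : ((NonUnitalStarAlgebra.adjoin ℂ D : NonUnitalStarSubalgebra ℂ B) : Set B)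
        = (Submodule.span ℂ ((Subsemigroup.closure (D ∪ star D) : Subsemigroup B) : Set B) :
          Submodule ℂ B) := by
      rw [← NonUnitalAlgebra.adjoin_eq_span]
      rfl
    have hstar : (star D).Countable := by
      have : star D = star '' D := (Set.image_star).symm
      rw [this]
      exact hD.image _
    have h2 : TopologicalSpace.IsSeparable
        ((NonUnitalStarAlgebra.adjoin ℂ D : NonUnitalStarSubalgebra ℂ B) : Set B) := by
      rw [h1]
      exact (countable_subsemigroup_closure_aux _ (hD.union hstar)).isSeparable.span
    exact h2.closure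

end Pool.Agent.Helper234.Calkin
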