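import Mathlib

set_option autoImplicit false
open scoped Matrix.Norms.L2Operator Kronecker

namespace Pool.Agent.Helper234.Calkin


namespace JLaux

theorem nle {B : Type*} [CStarAlgebra B] [PartialOrder B] [StarOrderedRing B] (h : B)
    (hh : IsSelfAdjoint h) (r : ℝ) (hr : 0 ≤ r) (h1 : h ≤ algebraMap ℝ B r)
    (h2 : -h ≤ algebraMap ℝ B r) : ‖h‖ ≤ r := by
  rcases subsingleton_or_nontrivial B with hs | hn
  · rw [Subsingleton.elim h 0, norm_zero]; exact hr
  · have h3 : ∀ x ∈ spectrum ℝ h, x ≤ r := (le_algebraMap_iff_spectrum_le (ha := hh)).mp h1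
    have h4 : ∀ x ∈ spectrum ℝ (-h), x ≤ r :=
      (le_algebraMap_iff_spectrum_le (ha := hh.neg)).mp h2
    rcases CStarAlgebra.norm_or_neg_norm_mem_spectrum (a := h) hh with h5 | h5
    · exact h3 _ h5
    · apply h4
      rw [← spectrum.neg_eq]
      simpa using h5

theorem norm_proj_le {B : Type*} [CStarAlgebra B] (P : B) (h1 : star P = P) (h2 : P * P = P) :
    ‖P‖ ≤ 1 := by
  have h3 : ‖star P * P‖ = ‖P‖ * ‖P‖ := CStarRing.norm_star_mul_self
  rw [h1, h2] at h3
  by_contra hcon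
  push Not at hcon
  nlinarith

theorem lemA {B : Type*} [CStarAlgebra B] (P x : B) (h1 : star P = P) (h2 : P * P = P)
    (hx : ‖x‖ ≤ 1) : ‖P * x * P + (1 - P)‖ ≤ 1 := by
  let _ := CStarAlgebra.spectralOrder B
  have := CStarAlgebra.spectralOrderedRing B
  have hQ : (1 - P) = star (1 - P) * (1 - P) := by
    rw [star_sub, star_one, h1]
    have : (1 - P) * (1 - P) = 1 - P - P + P * P := by noncomm_ring
    rw [this, h2]
    noncomm_ring
  have hP1 : P ≤ 1 := by
    rw [← sub_nonneg, hQ]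
    exact star_mul_self_nonneg _
  have hu : star (P * x * P + (1 - P)) * (P * x * P + (1 - P)) =
      star P * (star x * P * x) * P + (1 - P) := by
    simp only [star_add, star_mul, star_sub, star_one, h1]
    have e1 : (P * (star x * P) + (1 - P)) * (P * x * P + (1 - P)) =
      P * star x * (P * P) * x * P + P * star x * (P - P * P) + (P - P * P) * x * P
        + (1 - P - P + P * P) := by noncomm_ring
    rw [e1, h2]
    noncomm_ring
  have hle : star x * P * x ≤ 1 := by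
    calc star x * P * x ≤ star x * 1 * x := star_left_conjugate_le_conjugate hP1 x
      _ = star x * x := by rw [mul_one]
      _ ≤ algebraMap ℝ B (‖x‖ ^ 2) := CStarAlgebra.star_mul_le_algebraMap_norm_sq
      _ ≤ algebraMap ℝ B 1 := by
          apply algebraMap_mono
          nlinarith [norm_nonneg x]
      _ = 1 := map_one _
  have hle2 : star P * (star x * P * x) * P + (1 - P) ≤ 1 := by
    have h3 : star P * (star x * P * x) * P ≤ star P * 1 * P :=
      star_left_conjugate_le_conjugate hle P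
    rw [mul_one, h1, h2] at h3
    rw [h1]
    calc P * (star x * P * x) * P + (1 - P) ≤ P + (1 - P) := by gcongr
      _ = 1 := by noncomm_ring
  have hn : ‖star (P * x * P + (1 - P)) * (P * x * P + (1 - P))‖ ≤ 1 := by
    rw [CStarAlgebra.norm_le_one_iff_of_nonneg _ (star_mul_self_nonneg _), hu]
    exact hle2
  rw [CStarRing.norm_star_mul_self] at hn
  nlinarith [norm_nonneg (P * x * P + (1 - P))]

theorem lemA' {B : Type*} [CStarAlgebra B] (P x : B) (h1 : star P = P) (h2 : P * P = P)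
    (hx : ‖x‖ ≤ 1) : ‖P * x * P - (1 - P)‖ ≤ 1 := by
  have h := lemA P (-x) h1 h2 (by rwa [norm_neg])
  have e : P * (-x) * P + (1 - P) = -(P * x * P - (1 - P)) := by noncomm_ring
  rw [e, norm_neg] at h
  exact h

theorem lemB {B : Type*} [CStarAlgebra B] (P z : B) (h1 : star P = P) (h2 : P * P = P) :
    ‖P + P * z * (1 - P)‖ ≤ 1 + ‖z‖ ^ 2 := by
  have hQ1 : star (1 - P) = 1 - P := by rw [star_sub, star_one, h1]
  have hQ2 : (1 - P) * (1 - P) = 1 - P := by
    have : (1 - P) * (1 - P) = 1 - P - P + P * P := by noncomm_ring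
    rw [this, h2]
    noncomm_ring
  have hu : (P + P * z * (1 - P)) * star (P + P * z * (1 - P)) =
      P + P * z * (1 - P) * star z * P := by
    simp only [star_add, star_mul, hQ1, h1]
    have e1 : (P + P * z * (1 - P)) * (P + (1 - P) * (star z * P)) =
      P * P + P * z * (P - P * P) + (P - P * P) * (star z * P) +
        P * z * ((1 - P) * (1 - P)) * star z * P := by noncomm_ring
    rw [e1, hQ2, h2]
    noncomm_ring
  have hP := norm_proj_le P h1 h2
  have hQ := norm_proj_le (1 - P) hQ1 hQ2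
  have hn : ‖(P + P * z * (1 - P)) * star (P + P * z * (1 - P))‖ ≤ 1 + ‖z‖ ^ 2 := by
    rw [hu]
    refine (norm_add_le _ _).trans ?_
    have h3 : ‖P * z * (1 - P) * star z * P‖ ≤ ‖P‖ * ‖z‖ * ‖1 - P‖ * ‖star z‖ * ‖P‖ := by
      refine (norm_mul_le _ _).trans ?_
      gcongr
      refine (norm_mul_le _ _).trans ?_
      gcongr
      refine (norm_mul_le _ _).trans ?_
      gcongr
      exact norm_mul_le _ _
    have h4 : ‖P‖ * ‖z‖ * ‖1 - P‖ * ‖star z‖ * ‖P‖ ≤ 1 * ‖z‖ * 1 * ‖z‖ * 1 := by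
      rw [norm_star]
      gcongr
    nlinarith
  rw [CStarRing.norm_self_mul_star] at hn
  by_contra hcon
  push Not at hcon
  nlinarith [norm_nonneg (P + P * z * (1 - P)), sq_nonneg ‖z‖]

theorem lemB' {B : Type*} [CStarAlgebra B] (P z : B) (h1 : star P = P) (h2 : P * P = P) :
    ‖P + (1 - P) * z * P‖ ≤ 1 + ‖z‖ ^ 2 := by
  have h := lemB P (star z) h1 h2
  have e : P + P * star z * (1 - P) = star (P + (1 - P) * z * P) := by
    simp only [star_add, star_mul, star_sub, star_one, h1]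
    noncomm_ring
  rw [e, norm_star, norm_star] at h
  exact h

theorem lemC {B : Type*} [CStarAlgebra B] (Q y : B) (c : ℝ) (h1 : star Q = Q) (h2 : Q * Q = Q)
    (hc : 1 ≤ c) (hy1 : ‖y + Q‖ ≤ c) (hy2 : ‖y - Q‖ ≤ c) : ‖y * Q‖ ^ 2 ≤ c ^ 2 - 1 := by
  let _ := CStarAlgebra.spectralOrder B
  have := CStarAlgebra.spectralOrderedRing B
  have key : ∀ z : B, ‖z‖ ≤ c → 0 ≤ algebraMap ℝ B (c ^ 2) - star z * z := by
    intro z hz
    rw [sub_nonneg]
    refine CStarAlgebra.star_mul_le_algebraMap_norm_sq.trans ?_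
    apply algebraMap_mono
    nlinarith [norm_nonneg z]
  have k1 := star_left_conjugate_nonneg (key _ hy1) Q
  have k2 := star_left_conjugate_nonneg (key _ hy2) Q
  have hQ : (1 - Q) = star (1 - Q) * (1 - Q) := by
    rw [star_sub, star_one, h1]
    have : (1 - Q) * (1 - Q) = 1 - Q - Q + Q * Q := by noncomm_ring
    rw [this, h2]
    noncomm_ring
  have hQ0 : 0 ≤ 1 - Q := by
    rw [hQ]
    exact star_mul_self_nonneg _
  have hQ3 : 0 ≤ (c ^ 2 - 1) • (1 - Q) := smul_nonneg (by nlinarith) hQ0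
  have hsum : star (y * Q) * (y * Q) ≤ algebraMap ℝ B (c ^ 2 - 1) := by
    have e : algebraMap ℝ B (c ^ 2 - 1) - star (y * Q) * (y * Q) =
        (1 / 2 : ℝ) • (star Q * (algebraMap ℝ B (c ^ 2) - star (y + Q) * (y + Q)) * Q +
          star Q * (algebraMap ℝ B (c ^ 2) - star (y - Q) * (y - Q)) * Q) +
          (c ^ 2 - 1) • (1 - Q) := by
      simp only [Algebra.algebraMap_eq_smul_one, star_add, star_sub, star_mul, h1]
      have e1 : Q * (c ^ 2 • (1:B) - (star y + Q) * (y + Q)) * Q +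
          Q * (c ^ 2 • (1:B) - (star y - Q) * (y - Q)) * Q =
          (2 * c ^ 2) • (Q * Q) - (2:ℝ) • (Q * star y * y * Q) - (2:ℝ) • ((Q * Q) * (Q * Q)) := by
        simp only [two_smul, mul_smul, mul_sub, sub_mul, mul_add, add_mul, smul_mul_assoc,
          mul_smul_comm, mul_one, one_mul, mul_assoc]
        abel
      rw [e1, h2, h2]
      have e2 : Q * star y * (y * Q) = Q * star y * y * Q := by noncomm_ring
      rw [e2]
      module
    rw [← sub_nonneg, e]
    have : 0 ≤ (1 / 2 : ℝ) • (star Q * (algebraMap ℝ B (c ^ 2) - star (y + Q) * (y + Q)) * Q +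
          star Q * (algebraMap ℝ B (c ^ 2) - star (y - Q) * (y - Q)) * Q) :=
      smul_nonneg (by norm_num) (add_nonneg k1 k2)
    exact add_nonneg this hQ3
  have hn := (CStarAlgebra.norm_le_iff_le_algebraMap _ (by nlinarith : (0:ℝ) ≤ c ^ 2 - 1)
    (star_mul_self_nonneg (y * Q))).mpr hsum
  rw [CStarRing.norm_star_mul_self] at hn
  rw [sq]
  exact hn

theorem lemD {B : Type*} [CStarAlgebra B] (P y : B) (C t : ℝ) (h1 : star P = P) (h2 : P * P = P)
    (hC : 1 ≤ C) (ht : 0 < t) (hy : ∀ c : ℂ, ‖c‖ = t → ‖P + c • y‖ ≤ C) :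
    ‖P * y * P‖ ≤ (C ^ 2 - 1) / t := by
  let _ := CStarAlgebra.spectralOrder B
  have := CStarAlgebra.spectralOrderedRing B
  have hP := norm_proj_le P h1 h2
  have hQ : (1 - P) = star (1 - P) * (1 - P) := by
    rw [star_sub, star_one, h1]
    have : (1 - P) * (1 - P) = 1 - P - P + P * P := by noncomm_ring
    rw [this, h2]
    noncomm_ring
  have hQ0 : 0 ≤ 1 - P := by
    rw [hQ]
    exact star_mul_self_nonneg _
  set b : B := P * y * P with hb
  have hPb : P * b = b := by rw [hb, ← mul_assoc, ← mul_assoc, h2]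
  have hbP : b * P = b := by rw [hb, mul_assoc, h2]
  have hPsb : P * star b = star b := by
    have := congrArg star hbP
    rw [star_mul, h1] at this
    exact this
  have hsbP : star b * P = star b := by
    have := congrArg star hPb
    rw [star_mul, h1] at this
    exact this
  have key : ∀ c : ℂ, ‖c‖ = t → c • b + star (c • b) ≤ algebraMap ℝ B (C ^ 2 - 1) := by
    intro c hc
    have hv : P + c • b = P * (P + c • y) * P := by
      rw [hb]
      simp only [mul_add, add_mul, mul_smul_comm, smul_mul_assoc, h2]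
    have hvn : ‖P + c • b‖ ≤ C := by
      rw [hv]
      refine (norm_mul_le _ _).trans ?_
      have h3 : ‖P * (P + c • y)‖ ≤ ‖P‖ * ‖P + c • y‖ := norm_mul_le _ _
      have h4 := hy c hc
      have h5 : ‖P‖ * ‖P + c • y‖ ≤ 1 * C := by gcongr
      have h6 : ‖P * (P + c • y)‖ * ‖P‖ ≤ C * 1 := by
        gcongr
        linarith
      linarith
    have h3 : 0 ≤ algebraMap ℝ B (C ^ 2) - star (P + c • b) * (P + c • b) := by
      rw [sub_nonneg]
      refine CStarAlgebra.star_mul_le_algebraMap_norm_sq.trans ?_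
      apply algebraMap_mono
      nlinarith [norm_nonneg (P + c • b)]
    have h4 := star_left_conjugate_nonneg h3 P
    have h5 : 0 ≤ star (c • b) * (c • b) := star_mul_self_nonneg _
    have h6 : 0 ≤ (C ^ 2 - 1) • (1 - P) := smul_nonneg (by nlinarith) hQ0
    have e : algebraMap ℝ B (C ^ 2 - 1) - (c • b + star (c • b)) =
        star P * (algebraMap ℝ B (C ^ 2) - star (P + c • b) * (P + c • b)) * P +
        star (c • b) * (c • b) + (C ^ 2 - 1) • (1 - P) := by
      have g1 : P * (c • b) = c • b := by rw [mul_smul_comm, hPb]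
      have g2 : (c • b) * P = c • b := by rw [smul_mul_assoc, hbP]
      have g3 : P * star (c • b) = star (c • b) := by
        have := congrArg star g2
        rw [star_mul, h1] at this
        exact this
      have g4 : star (c • b) * P = star (c • b) := by
        have := congrArg star g1
        rw [star_mul, h1] at this
        exact this
      generalize c • b = d at *
      simp only [Algebra.algebraMap_eq_smul_one, star_add, h1]
      have e1 : P * (C ^ 2 • (1:B) - (P + star d) * (P + d)) * P =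
          (C ^ 2) • (P * P) - ((P * P) * (P * P) + (P * P) * (d * P) + (P * star d) * (P * P) +
            (P * star d) * (d * P)) := by
        simp only [mul_sub, sub_mul, mul_add, add_mul, smul_mul_assoc,
          mul_smul_comm, mul_one, mul_assoc]
        abel
      rw [e1, g2, g3, h2, h2, g1, g4]
      module
    rw [← sub_nonneg, e]
    exact add_nonneg (add_nonneg h4 h5) h6
  have hK : (0:ℝ) ≤ C ^ 2 - 1 := by nlinarith
  have n1 : ‖(t:ℂ) • b + star ((t:ℂ) • b)‖ ≤ C ^ 2 - 1 := by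
    apply nle _ _ _ hK
    · apply key
      rw [Complex.norm_real, Real.norm_of_nonneg ht.le]
    · have h3 := key (-(t:ℂ)) (by rw [norm_neg, Complex.norm_real, Real.norm_of_nonneg ht.le])
      rw [neg_smul, star_neg] at h3
      have e : -((t:ℂ) • b + star ((t:ℂ) • b)) = -((t:ℂ) • b) + -star ((t:ℂ) • b) := by abel
      rw [e]
      exact h3
    · exact IsSelfAdjoint.add_star_self _
  have n2 : ‖(Complex.I * t : ℂ) • b + star ((Complex.I * t : ℂ) • b)‖ ≤ C ^ 2 - 1 := by
    have hnI : ‖(Complex.I * t : ℂ)‖ = t := by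
      rw [norm_mul, Complex.norm_I, one_mul, Complex.norm_real, Real.norm_of_nonneg ht.le]
    apply nle _ _ _ hK
    · exact key _ hnI
    · have h3 := key (-(Complex.I * t : ℂ)) (by rw [norm_neg, hnI])
      rw [neg_smul, star_neg] at h3
      have e : -((Complex.I * t : ℂ) • b + star ((Complex.I * t : ℂ) • b)) =
        -((Complex.I * t : ℂ) • b) + -star ((Complex.I * t : ℂ) • b) := by abel
      rw [e]
      exact h3
    · exact IsSelfAdjoint.add_star_self _
  have hcomb : ((2 * t : ℝ) : ℂ) • b = ((t:ℂ) • b + star ((t:ℂ) • b)) -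
      Complex.I • ((Complex.I * t : ℂ) • b + star ((Complex.I * t : ℂ) • b)) := by
    rw [star_smul, star_smul, smul_add, smul_smul, smul_smul]
    have e1 : Complex.I * (Complex.I * t) = -(t:ℂ) := by
      rw [← mul_assoc, Complex.I_mul_I]; ring
    have e2 : Complex.I * star (Complex.I * t : ℂ) = (t:ℂ) := by
      rw [star_mul', Complex.star_def, Complex.conj_I, Complex.conj_ofReal]
      rw [← mul_assoc, mul_neg, Complex.I_mul_I]; ring
    have e3 : star (t:ℂ) = (t:ℂ) := by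
      rw [Complex.star_def, Complex.conj_ofReal]
    rw [e1, e2, e3]
    push_cast
    module
  have hfin : 2 * t * ‖b‖ ≤ 2 * (C ^ 2 - 1) := by
    have h3 : ‖((2 * t : ℝ) : ℂ) • b‖ = 2 * t * ‖b‖ := by
      rw [norm_smul, Complex.norm_real, Real.norm_of_nonneg (by positivity)]
    rw [← h3, hcomb]
    refine (norm_sub_le _ _).trans ?_
    have h4 : ‖Complex.I • ((Complex.I * t : ℂ) • b + star ((Complex.I * t : ℂ) • b))‖ ≤
        C ^ 2 - 1 := by
      rw [norm_smul, Complex.norm_I, one_mul]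
      exact n2
    linarith
  rw [le_div_iff₀ ht]
  linarith

theorem alg1 {B : Type*} [Ring B] (P D : B) :
    D - (P - (1 - P)) * D * (P - (1 - P)) =
      (P * D * (1 - P) + (1 - P) * D * P) + (P * D * (1 - P) + (1 - P) * D * P) := by
  noncomm_ring

theorem alg2 {B : Type*} [Ring B] (P D : B) :
    D + (P - (1 - P)) * D * (P - (1 - P)) =
      (P * D * P + (1 - P) * D * (1 - P)) + (P * D * P + (1 - P) * D * (1 - P)) := by
  noncomm_ring

theorem alg3 {B : Type*} [Ring B] (P Y11 Y12 Y21 Y22 : B) :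
    (Y11 - Y12 - Y21 + Y22) - (P - (1 - P)) * (Y11 + Y12 + Y21 + Y22) * (P - (1 - P)) =
    ((P * (Y11 * (1 - P)) + ((1 - P) * Y11) * P + (P * Y22) * (1 - P) + (1 - P) * (Y22 * P))
    + (P * (Y11 * (1 - P)) + ((1 - P) * Y11) * P + (P * Y22) * (1 - P) + (1 - P) * (Y22 * P)))
    - ((P * Y12 * P + P * Y21 * P + (1 - P) * Y12 * (1 - P) + (1 - P) * Y21 * (1 - P))
    + (P * Y12 * P + P * Y21 * P + (1 - P) * Y12 * (1 - P) + (1 - P) * Y21 * (1 - P))) := by
  have e1 := alg1 P (Y11 + Y22)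
  have e2 := alg2 P (Y12 + Y21)
  have e3 : (Y11 - Y12 - Y21 + Y22) - (P - (1 - P)) * (Y11 + Y12 + Y21 + Y22) * (P - (1 - P)) =
      ((Y11 + Y22) - (P - (1 - P)) * (Y11 + Y22) * (P - (1 - P))) -
      ((Y12 + Y21) + (P - (1 - P)) * (Y12 + Y21) * (P - (1 - P))) := by
    generalize P - (1 - P) = W
    have e4 : W * (Y11 + Y12 + Y21 + Y22) * W = W * (Y11 + Y22) * W + W * (Y12 + Y21) * W := by
      rw [← add_mul, ← mul_add]
      congr 2
      abel
    rw [e4]
    abel
  rw [e3, e1, e2]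
  generalize 1 - P = Q
  simp only [mul_add, add_mul, mul_assoc]
  abel

theorem mulle {B : Type*} [NormedRing B] (a b : B) (r : ℝ) (ha : ‖a‖ ≤ 1) (hb : ‖b‖ ≤ r) :
    ‖a * b‖ ≤ r := by
  refine (norm_mul_le _ _).trans ?_
  calc ‖a‖ * ‖b‖ ≤ 1 * ‖b‖ := by gcongr
    _ ≤ r := by rw [one_mul]; exact hb

theorem mulle' {B : Type*} [NormedRing B] (a b : B) (r : ℝ) (ha : ‖a‖ ≤ 1) (hb : ‖b‖ ≤ r) :
    ‖b * a‖ ≤ r := by
  refine (norm_mul_le _ _).trans ?_
  calc ‖b‖ * ‖a‖ ≤ ‖b‖ * 1 := by gcongr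
    _ ≤ r := by rw [mul_one]; exact hb

theorem numB (v : ℝ) (h0 : 0 ≤ v) (h1 : v ≤ 1 / 625) :
    ((1 + v) * (1 + v) + v) ^ 2 - 1 ≤ 7 * v := by
  have e : ((1 + v) * (1 + v) + v) ^ 2 - 1 = v * (6 + v * (11 + v * (6 + v))) := by ring
  rw [e]
  have h2 : v * (6 + v) ≤ 1 := by nlinarith
  have h3 : v * (11 + v * (6 + v)) ≤ 1 := by nlinarith
  nlinarith

theorem stage {A : ℕ → Type} [∀ i, CStarAlgebra (A i)] {B : Type*} [CStarAlgebra B]
    (T : (∀ i, A i) →ₗ[ℂ] B) (ε : ℝ) (hε : 0 < ε)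
    (hT : ∀ (x : ∀ i, A i) (c : ℝ), (∀ i, ‖x i‖ ≤ c) → ‖T x‖ ≤ (1 + ε) * c)
    (p : ∀ i, A i) (hp1 : ∀ i, star (p i) = p i) (hp2 : ∀ i, p i * p i = p i)
    (P : B) (hP1 : star P = P) (hP2 : P * P = P) (hTP : ‖T p - P‖ ≤ ε)
    (hTQ : ‖T (1 - p) - (1 - P)‖ ≤ ε)
    (x : ∀ i, A i) (hx : ∀ i, ‖x i‖ ≤ 1) (t : ℝ) (ht : 0 < t) :
    ‖T (p * x * p) * (1 - P)‖ ^ 2 ≤ (1 + 2 * ε) ^ 2 - 1 ∧
    ‖(1 - P) * T (p * x * p)‖ ^ 2 ≤ (1 + 2 * ε) ^ 2 - 1 ∧
    ‖P * T (p * x * (1 - p)) * P‖ ≤ (((1 + ε) * (1 + t ^ 2) + ε) ^ 2 - 1) / t ∧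
    ‖P * T ((1 - p) * x * p) * P‖ ≤ (((1 + ε) * (1 + t ^ 2) + ε) ^ 2 - 1) / t := by
  have hQ1 : star (1 - P) = 1 - P := by rw [star_sub, star_one, hP1]
  have hQ2 : (1 - P) * (1 - P) = 1 - P := by
    have : (1 - P) * (1 - P) = 1 - P - P + P * P := by noncomm_ring
    rw [this, hP2]
    noncomm_ring
  have n1 : ‖T (p * x * p) + (1 - P)‖ ≤ 1 + 2 * ε := by
    have e : T (p * x * p) + (1 - P) = T (p * x * p + (1 - p)) - (T (1 - p) - (1 - P)) := by
      rw [map_add]; abel
    rw [e]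
    refine (norm_sub_le _ _).trans ?_
    have := hT (p * x * p + (1 - p)) 1 (fun i => lemA (p i) (x i) (hp1 i) (hp2 i) (hx i))
    linarith
  have n2 : ‖T (p * x * p) - (1 - P)‖ ≤ 1 + 2 * ε := by
    have e : T (p * x * p) - (1 - P) = T (p * x * p - (1 - p)) + (T (1 - p) - (1 - P)) := by
      rw [map_sub (f := T) (p * x * p) (1 - p)]; abel
    rw [e]
    refine (norm_add_le _ _).trans ?_
    have := hT (p * x * p - (1 - p)) 1 (fun i => lemA' (p i) (x i) (hp1 i) (hp2 i) (hx i))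
    linarith
  have hc : ∀ c : ℂ, ‖c‖ = t → ∀ i, ‖c • x i‖ ^ 2 ≤ t ^ 2 := by
    intro c hc i
    rw [norm_smul, hc]
    have h0 := norm_nonneg (x i)
    have h1 := hx i
    have h2 : ‖x i‖ ^ 2 ≤ 1 := by nlinarith
    nlinarith [sq_nonneg t]
  have hC1 : (1:ℝ) ≤ (1 + ε) * (1 + t ^ 2) + ε := by nlinarith [sq_nonneg t]
  refine ⟨lemC (1 - P) _ (1 + 2 * ε) hQ1 hQ2 (by linarith) n1 n2, ?_, ?_, ?_⟩
  · have h := lemC (1 - P) (star (T (p * x * p))) (1 + 2 * ε) hQ1 hQ2 (by linarith)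
      (by rw [← norm_star, star_add, star_star, hQ1]; exact n1)
      (by rw [← norm_star, star_sub, star_star, hQ1]; exact n2)
    rw [← norm_star, star_mul, star_star, hQ1] at h
    exact h
  · apply lemD P _ _ t hP1 hP2 hC1 ht
    intro c hcn
    have e : P + c • T (p * x * (1 - p)) = T (p + p * (c • x) * (1 - p)) - (T p - P) := by
      rw [map_add, mul_smul_comm, smul_mul_assoc, map_smul]; abel
    rw [e]
    refine (norm_sub_le _ _).trans ?_
    have := hT (p + p * (c • x) * (1 - p)) (1 + t ^ 2) (fun i =>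
      (lemB (p i) (c • x i) (hp1 i) (hp2 i)).trans (by linarith [hc c hcn i]))
    linarith
  · apply lemD P _ _ t hP1 hP2 hC1 ht
    intro c hcn
    have e : P + c • T ((1 - p) * x * p) = T (p + (1 - p) * (c • x) * p) - (T p - P) := by
      rw [map_add, mul_smul_comm, smul_mul_assoc, map_smul]; abel
    rw [e]
    refine (norm_sub_le _ _).trans ?_
    have := hT (p + (1 - p) * (c • x) * p) (1 + t ^ 2) (fun i =>
      (lemB' (p i) (c • x i) (hp1 i) (hp2 i)).trans (by linarith [hc c hcn i]))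
    linarith

theorem JLgen {A : ℕ → Type} [∀ i, CStarAlgebra (A i)] {B : Type*} [CStarAlgebra B]
    (T : (∀ i, A i) →ₗ[ℂ] B) (ε : ℝ) (hε : 0 < ε) (hε1 : ε ≤ 1)
    (hT : ∀ (x : ∀ i, A i) (c : ℝ), (∀ i, ‖x i‖ ≤ c) → ‖T x‖ ≤ (1 + ε) * c)
    (h1 : ‖T 1 - 1‖ ≤ ε)
    (W : ∀ i, A i) (hW : ∀ i, star (W i) = W i) (hW2 : ∀ i, W i * W i = 1)
    (W' : B) (hW' : star W' = W') (hW'2 : W' * W' = 1) (hTW : ‖T W - W'‖ ≤ ε)
    (x : ∀ i, A i) (hx : ∀ i, ‖x i‖ ≤ 1) :
    ‖T (W * x * W) - W' * T x * W'‖ ≤ 100 * Real.sqrt ε := by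
  set s := Real.sqrt ε with hs
  have hs0 : 0 < s := Real.sqrt_pos.mpr hε
  have hs2 : s ^ 2 = ε := Real.sq_sqrt hε.le
  rcases le_or_gt (1 / 25) s with hcase | hcase
  · -- trivial bound
    have uW : ∀ i, ‖W i‖ ≤ 1 := by
      intro i
      have h3 : ‖star (W i) * W i‖ = ‖W i‖ * ‖W i‖ := CStarRing.norm_star_mul_self
      rw [hW i, hW2 i] at h3
      have h4 : ‖(1:A i)‖ ≤ 1 := norm_proj_le (1:A i) (star_one _) (mul_one _)
      by_contra hcon
      push Not at hcon
      nlinarith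
    have uW' : ‖W'‖ ≤ 1 := by
      have h3 : ‖star W' * W'‖ = ‖W'‖ * ‖W'‖ := CStarRing.norm_star_mul_self
      rw [hW', hW'2] at h3
      have h4 : ‖(1:B)‖ ≤ 1 := norm_proj_le (1:B) (star_one _) (mul_one _)
      by_contra hcon
      push Not at hcon
      nlinarith
    have b1 : ‖T (W * x * W)‖ ≤ (1 + ε) * 1 := by
      apply hT
      intro i
      calc ‖(W * x * W) i‖ = ‖W i * x i * W i‖ := rfl
        _ ≤ ‖W i * x i‖ * ‖W i‖ := norm_mul_le _ _
        _ ≤ (‖W i‖ * ‖x i‖) * ‖W i‖ := by gcongr; exact norm_mul_le _ _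
        _ ≤ (1 * 1) * 1 := by gcongr; exacts [uW i, hx i, uW i]
        _ = 1 := by norm_num
    have b2 : ‖T x‖ ≤ (1 + ε) * 1 := hT x 1 hx
    have b3 : ‖W' * T x * W'‖ ≤ (1 + ε) * 1 := by
      calc ‖W' * T x * W'‖ ≤ ‖W' * T x‖ * ‖W'‖ := norm_mul_le _ _
        _ ≤ (‖W'‖ * ‖T x‖) * ‖W'‖ := by gcongr; exact norm_mul_le _ _
        _ ≤ (1 * ((1 + ε) * 1)) * 1 := by gcongr
        _ = (1 + ε) * 1 := by ring
    refine (norm_sub_le _ _).trans ?_
    linarith
  · set p : ∀ i, A i := (1 / 2 : ℂ) • (1 + W) with hp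
    set P : B := (1 / 2 : ℂ) • (1 + W') with hP
    have half : star (1 / 2 : ℂ) = 1 / 2 := by
      have e : (1 / 2 : ℂ) = ((1 / 2 : ℝ) : ℂ) := by push_cast; ring
      rw [e, Complex.star_def, Complex.conj_ofReal]
    have hp1 : ∀ i, star (p i) = p i := by
      intro i
      simp only [hp, Pi.smul_apply, Pi.add_apply, Pi.one_apply, star_smul, star_add, star_one,
        hW i, half]
    have hp2 : ∀ i, p i * p i = p i := by
      intro i
      simp only [hp, Pi.smul_apply, Pi.add_apply, Pi.one_apply, smul_mul_smul_comm, mul_add,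
        add_mul, mul_one, one_mul, hW2 i]
      module
    have hP1 : star P = P := by
      simp only [hP, star_smul, star_add, star_one, hW', half]
    have hP2 : P * P = P := by
      simp only [hP, smul_mul_smul_comm, mul_add, add_mul, mul_one, one_mul, hW'2]
      module
    have hq1 : ∀ i, star ((1 - p) i) = (1 - p) i := by
      intro i
      simp only [Pi.sub_apply, Pi.one_apply, star_sub, star_one, hp1 i]
    have hq2 : ∀ i, (1 - p) i * (1 - p) i = (1 - p) i := by
      intro i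
      simp only [Pi.sub_apply, Pi.one_apply]
      have : (1 - p i) * (1 - p i) = 1 - p i - p i + p i * p i := by noncomm_ring
      rw [this, hp2 i]
      noncomm_ring
    have hQ1 : star (1 - P) = 1 - P := by rw [star_sub, star_one, hP1]
    have hQ2 : (1 - P) * (1 - P) = 1 - P := by
      have : (1 - P) * (1 - P) = 1 - P - P + P * P := by noncomm_ring
      rw [this, hP2]
      noncomm_ring
    have nhalf : ‖(1 / 2 : ℂ)‖ = 1 / 2 := by simp
    have hTP : ‖T p - P‖ ≤ ε := by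
      have e : T p - P = (1 / 2 : ℂ) • ((T 1 - 1) + (T W - W')) := by
        rw [hp, hP, map_smul, map_add]
        module
      rw [e, norm_smul, nhalf]
      have := norm_add_le (T 1 - 1) (T W - W')
      linarith
    have hTQ : ‖T (1 - p) - (1 - P)‖ ≤ ε := by
      have e : T (1 - p) - (1 - P) = (1 / 2 : ℂ) • ((T 1 - 1) - (T W - W')) := by
        rw [map_sub, hp, hP, map_smul, map_add]
        module
      rw [e, norm_smul, nhalf]
      have := norm_sub_le (T 1 - 1) (T W - W')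
      linarith
    have ep : (1 : ∀ i, A i) - (1 - p) = p := by abel
    have eP : (1 : B) - (1 - P) = P := by abel
    obtain ⟨a1, a2, a3, a4⟩ := stage T ε hε hT p hp1 hp2 P hP1 hP2 hTP hTQ x hx s hs0
    obtain ⟨b1, b2, b3, b4⟩ := stage T ε hε hT (1 - p) hq1 hq2 (1 - P) hQ1 hQ2 hTQ
      (by rw [ep, eP]; exact hTP) x hx s hs0
    rw [ep] at b3 b4
    rw [eP] at b1 b2
    have nP := norm_proj_le P hP1 hP2
    have nQ := norm_proj_le (1 - P) hQ1 hQ2
    -- numeric bounds
    have hA : ∀ r : ℝ, 0 ≤ r → r ^ 2 ≤ (1 + 2 * ε) ^ 2 - 1 → r ≤ 3 * s := by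
      intro r hr h
      by_contra hcon
      push Not at hcon
      have h5 : s ^ 2 ≤ 1 / 625 := by nlinarith
      rw [← hs2] at h
      nlinarith [sq_nonneg s]
    have hB : (((1 + ε) * (1 + s ^ 2) + ε) ^ 2 - 1) / s ≤ 7 * s := by
      rw [div_le_iff₀ hs0, ← hs2]
      have h5 : s ^ 2 ≤ 1 / 625 := by nlinarith
      have h6 : 0 ≤ s ^ 2 := sq_nonneg s
      have h7 : 7 * s * s = 7 * s ^ 2 := by ring
      rw [h7]
      exact numB _ h6 h5
    have a1' := hA _ (norm_nonneg _) a1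
    have a2' := hA _ (norm_nonneg _) a2
    have b1' := hA _ (norm_nonneg _) b1
    have b2' := hA _ (norm_nonneg _) b2
    have a3' := a3.trans hB
    have a4' := a4.trans hB
    have b3' := b3.trans hB
    have b4' := b4.trans hB
    set Y11 := T (p * x * p) with hY11
    set Y12 := T (p * x * (1 - p)) with hY12
    set Y21 := T ((1 - p) * x * p) with hY21
    set Y22 := T ((1 - p) * x * (1 - p)) with hY22
    have ex : T x = Y11 + Y12 + Y21 + Y22 := by
      rw [hY11, hY12, hY21, hY22, ← map_add, ← map_add, ← map_add]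
      congr 1
      noncomm_ring
    have eW : W = p - (1 - p) := by
      rw [hp]
      have : (1 / 2 : ℂ) • (1 + W) - (1 - (1 / 2 : ℂ) • (1 + W)) = W := by module
      exact this.symm
    have eW' : W' = P - (1 - P) := by
      rw [hP]
      have : (1 / 2 : ℂ) • (1 + W') - (1 - (1 / 2 : ℂ) • (1 + W')) = W' := by module
      exact this.symm
    have eWx : T (W * x * W) = Y11 - Y12 - Y21 + Y22 := by
      rw [hY11, hY12, hY21, hY22, ← map_sub, ← map_sub, ← map_add]
      congr 1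
      rw [eW]
      noncomm_ring
    rw [eWx, ex, eW', alg3]
    have c1 : ‖P * (Y11 * (1 - P))‖ ≤ 3 * s := mulle _ _ _ nP a1'
    have c2 : ‖((1 - P) * Y11) * P‖ ≤ 3 * s := mulle' _ _ _ nP a2'
    have c3 : ‖(P * Y22) * (1 - P)‖ ≤ 3 * s := mulle' _ _ _ nQ b2'
    have c4 : ‖(1 - P) * (Y22 * P)‖ ≤ 3 * s := mulle _ _ _ nQ b1'
    have d1 : ‖P * (Y11 * (1 - P)) + ((1 - P) * Y11) * P + (P * Y22) * (1 - P)
          + (1 - P) * (Y22 * P)‖ ≤ 3 * s + 3 * s + 3 * s + 3 * s := by
      refine (norm_add_le _ _).trans (add_le_add ?_ c4)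
      refine (norm_add_le _ _).trans (add_le_add ?_ c3)
      exact (norm_add_le _ _).trans (add_le_add c1 c2)
    have d2 : ‖P * Y12 * P + P * Y21 * P + (1 - P) * Y12 * (1 - P)
          + (1 - P) * Y21 * (1 - P)‖ ≤ 7 * s + 7 * s + 7 * s + 7 * s := by
      refine (norm_add_le _ _).trans (add_le_add ?_ b3')
      refine (norm_add_le _ _).trans (add_le_add ?_ b4')
      exact (norm_add_le _ _).trans (add_le_add a3' a4')
    refine (norm_sub_le _ _).trans ?_
    have d3 := (norm_add_le _ _).trans (add_le_add d1 d1)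
    have d4 := (norm_add_le _ _).trans (add_le_add d2 d2)
    linarith

end JLaux

/-- Near-contractive near-unital linear maps almost respect conjugation by symmetries
(robust multiplicative domain lemma). -/
theorem JL {A : ℕ → Type} [∀ i, CStarAlgebra (A i)] {n : Type} [Fintype n] [DecidableEq n]
    (T : (∀ i, A i) →ₗ[ℂ] Matrix n n ℂ) (ε : ℝ) (hε : 0 < ε) (hε1 : ε ≤ 1)
    (hT : ∀ (x : ∀ i, A i) (c : ℝ), (∀ i, ‖x i‖ ≤ c) → ‖T x‖ ≤ (1 + ε) * c)
    (h1 : ‖T 1 - 1‖ ≤ ε)
    (W : ∀ i, A i) (hW : ∀ i, star (W i) = W i) (hW2 : ∀ i, W i * W i = 1)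
    (W' : Matrix n n ℂ) (hW' : star W' = W') (hW'2 : W' * W' = 1) (hTW : ‖T W - W'‖ ≤ ε)
    (x : ∀ i, A i) (hx : ∀ i, ‖x i‖ ≤ 1) :
    ‖T (W * x * W) - W' * T x * W'‖ ≤ 100 * Real.sqrt ε :=
  JLaux.JLgen T ε hε hε1 hT h1 W hW hW2 W' hW' hW'2 hTW x hx

end Pool.Agent.Helper234.Calkin
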