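import Mathlib

set_option autoImplicit false
open scoped Matrix.Norms.L2Operator Kronecker

namespace Pool.Agent.Helper234.Calkin


namespace MeasContra862
open Classical in
/-- indicator function -/
noncomputable def ind {Ω : Type*} (P : Ω → Prop) : Ω → ℂ := fun w => if P w then 1 else 0

section abs
variable {Ω : Type*} (ν : (Ω → ℂ) →ₗ[ℂ] ℂ) (ε : ℝ)

/-- mass -/
noncomputable def m (P : Ω → Prop) : ℝ := (ν (ind P)).re

variable {ν ε}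
lemma npos (hν : ∀ F : Ω → ℂ, (∀ w, ‖F w‖ ≤ 1) → ‖ν F‖ ≤ 1 + ε) (h1 : ‖ν (fun _ => 1) - 1‖ ≤ ε)
    (H : Ω → ℝ) (h0 : ∀ w, 0 ≤ H w) (h1' : ∀ w, H w ≤ 1) : -ε ≤ (ν (fun w => (H w : ℂ))).re := by
  have hF := hν (fun w => ((1 - 2 * H w : ℝ) : ℂ)) (fun w => by
    rw [Complex.norm_real, Real.norm_eq_abs, abs_le]
    constructor <;> linarith [h0 w, h1' w])
  have e : (fun w => ((1 - 2 * H w : ℝ) : ℂ)) = (fun _ => (1:ℂ)) - (2:ℂ) • (fun w => (H w : ℂ)) := by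
    funext w; simp
  rw [e, map_sub, map_smul] at hF
  have r1 := (Complex.abs_re_le_norm _).trans hF
  have r2 := (Complex.abs_re_le_norm _).trans h1
  rw [abs_le] at r1 r2
  simp only [Complex.sub_re, smul_eq_mul, Complex.mul_re, Complex.re_ofNat, Complex.im_ofNat, zero_mul,
    sub_zero, Complex.one_re] at r1 r2
  linarith [r1.2, r2.1]

lemma mono (hν : ∀ F : Ω → ℂ, (∀ w, ‖F w‖ ≤ 1) → ‖ν F‖ ≤ 1 + ε) (h1 : ‖ν (fun _ => 1) - 1‖ ≤ ε)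
    {P Q : Ω → Prop} (h : ∀ w, P w → Q w) : m ν P ≤ m ν Q + ε := by
  classical
  have := npos hν h1 (fun w => (if Q w then 1 else 0) - (if P w then 1 else 0)) (fun w => by
    by_cases hp : P w
    · simp [hp, h w hp]
    · by_cases hq : Q w <;> simp [hp, hq]) (fun w => by
    by_cases hp : P w <;> by_cases hq : Q w <;> simp [hp, hq])
  have e : (fun w => (((if Q w then 1 else 0) - (if P w then 1 else 0) : ℝ) : ℂ)) = ind Q - ind P := by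
    funext w
    by_cases hp : P w <;> by_cases hq : Q w <;> simp [ind, hp, hq]
  rw [e, map_sub, Complex.sub_re] at this
  unfold m
  linarith

lemma subadd (hν : ∀ F : Ω → ℂ, (∀ w, ‖F w‖ ≤ 1) → ‖ν F‖ ≤ 1 + ε) (h1 : ‖ν (fun _ => 1) - 1‖ ≤ ε)
    (P Q : Ω → Prop) : m ν (fun w => P w ∨ Q w) ≤ m ν P + m ν Q + ε := by
  classical
  have := npos hν h1 (fun w => (if P w then 1 else 0) + (if Q w then 1 else 0) - (if P w ∨ Q w then 1 else 0)) (fun w => by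
    by_cases hp : P w <;> by_cases hq : Q w <;> simp [hp, hq]) (fun w => by
    by_cases hp : P w <;> by_cases hq : Q w <;> simp [hp, hq])
  have e : (fun w => (((if P w then 1 else 0) + (if Q w then 1 else 0) - (if P w ∨ Q w then 1 else 0) : ℝ) : ℂ)) = 
      ind P + ind Q - ind (fun w => P w ∨ Q w) := by
    funext w
    by_cases hp : P w <;> by_cases hq : Q w <;> simp [ind, hp, hq]
  rw [e, map_sub, map_add, Complex.sub_re, Complex.add_re] at this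
  unfold m
  linarith

lemma m_or {P Q : Ω → Prop} (h : ∀ w, P w → ¬ Q w) : m ν (fun w => P w ∨ Q w) = m ν P + m ν Q := by
  classical
  have e : ind (fun w => P w ∨ Q w) = ind P + ind Q := by
    funext w
    by_cases hp : P w <;> by_cases hq : Q w <;> simp [ind, hp, hq]
    exact h w hp hq
  unfold m
  rw [e, map_add, Complex.add_re]

lemma m_inv {g : Ω → Ω} (hg : ∀ F : Ω → ℂ, (∀ w, ‖F w‖ ≤ 1) → ‖ν (fun w => F (g w)) - ν F‖ ≤ ε)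
    (P : Ω → Prop) : |m ν (fun w => P (g w)) - m ν P| ≤ ε := by
  classical
  have h := hg (ind P) (fun w => by
    by_cases hp : P w <;> simp [ind, hp])
  have h2 := (Complex.abs_re_le_norm _).trans h
  rw [Complex.sub_re] at h2
  exact h2

lemma sector (hν : ∀ F : Ω → ℂ, (∀ w, ‖F w‖ ≤ 1) → ‖ν F‖ ≤ 1 + ε) (h1 : ‖ν (fun _ => 1) - 1‖ ≤ ε)
    (P Q Box : Ω → Prop) (hPQ : ∀ w, P w → ¬ Q w) (g g' : Ω → Ω) (hinv : ∀ w, g (g' w) = w)
    (hg' : ∀ F : Ω → ℂ, (∀ w, ‖F w‖ ≤ 1) → ‖ν (fun w => F (g' w)) - ν F‖ ≤ ε)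
    (hmap : ∀ w, Box w → (P w ∨ Q w) → P (g w)) :
    m ν (fun w => Q w ∧ Box w) ≤ m ν (fun w => ¬ Box w) + 2 * ε := by
  have e1 : m ν (fun w => (P w ∧ Box w) ∨ (Q w ∧ Box w)) = m ν (fun w => P w ∧ Box w) + m ν (fun w => Q w ∧ Box w) :=
    m_or (fun w hp hq => hPQ w hp.1 hq.1)
  have e2 : m ν (fun w => (P w ∧ Box w) ∨ ¬ Box w) = m ν (fun w => P w ∧ Box w) + m ν (fun w => ¬ Box w) :=
    m_or (fun w hp hq => hq hp.2)
  have e3 := m_inv hg' (fun w => (P w ∧ Box w) ∨ (Q w ∧ Box w))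
  rw [abs_le] at e3
  have e4 := mono hν h1 (P := fun w => (P (g' w) ∧ Box (g' w)) ∨ (Q (g' w) ∧ Box (g' w)))
    (Q := fun w => (P w ∧ Box w) ∨ ¬ Box w) (fun w hw => by
      by_cases hb : Box w
      · left
        refine ⟨?_, hb⟩
        rcases hw with h | h
        · have := hmap (g' w) h.2 (Or.inl h.1)
          rwa [hinv] at this
        · have := hmap (g' w) h.2 (Or.inr h.1)
          rwa [hinv] at this
      · right; exact hb)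
  linarith [e3.1]

lemma out_bound (hν : ∀ F : Ω → ℂ, (∀ w, ‖F w‖ ≤ 1) → ‖ν F‖ ≤ 1 + ε) (h1 : ‖ν (fun _ => 1) - 1‖ ≤ ε)
    (G : Ω → ℝ) (O : Ω → Prop) (h0 : ∀ w, 0 ≤ G w) (h2 : ∀ w, G w ≤ 2) (hO : ∀ w, O w → 1 ≤ G w)
    (hG : ‖ν (fun w => (G w : ℂ))‖ ≤ 2 * ε) : m ν O ≤ 4 * ε := by
  classical
  have := npos hν h1 (fun w => (G w - (if O w then 1 else 0)) / 2) (fun w => by
    by_cases ho : O w
    · simp only [ho, if_true]; linarith [hO w ho]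
    · simp only [ho, if_false]; linarith [h0 w]) (fun w => by
    by_cases ho : O w
    · simp only [ho, if_true]; linarith [h2 w]
    · simp only [ho, if_false]; linarith [h2 w])
  have e : (fun w => (((G w - (if O w then 1 else 0)) / 2 : ℝ) : ℂ)) = 
      (1/2 : ℂ) • ((fun w => (G w : ℂ)) - ind O) := by
    funext w
    by_cases ho : O w
    · simp [ind, ho]; ring
    · simp [ind, ho]; ring
  rw [e, map_smul, map_sub, smul_eq_mul] at this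
  have h3 := (Complex.abs_re_le_norm _).trans hG
  rw [abs_le] at h3
  have e2 : ((1/2 : ℂ) * (ν (fun w => (G w : ℂ)) - ν (ind O))).re = 
      ((ν (fun w => (G w : ℂ))).re - (ν (ind O)).re) / 2 := by
    simp [Complex.mul_re]; ring
  rw [e2] at this
  unfold m
  linarith [h3.2]

theorem abs_contra (hε1 : ε ≤ 1 / 100)
    (hν : ∀ F : Ω → ℂ, (∀ w, ‖F w‖ ≤ 1) → ‖ν F‖ ≤ 1 + ε) (h1 : ‖ν (fun _ => 1) - 1‖ ≤ ε)
    (g1 g1' g2 g2' : Ω → Ω) (i1 : ∀ w, g1 (g1' w) = w) (i1' : ∀ w, g1' (g1 w) = w)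
    (i2 : ∀ w, g2 (g2' w) = w) (i2' : ∀ w, g2' (g2 w) = w)
    (hg1 : ∀ F : Ω → ℂ, (∀ w, ‖F w‖ ≤ 1) → ‖ν (fun w => F (g1 w)) - ν F‖ ≤ ε)
    (hg1' : ∀ F : Ω → ℂ, (∀ w, ‖F w‖ ≤ 1) → ‖ν (fun w => F (g1' w)) - ν F‖ ≤ ε)
    (hg2 : ∀ F : Ω → ℂ, (∀ w, ‖F w‖ ≤ 1) → ‖ν (fun w => F (g2 w)) - ν F‖ ≤ ε)
    (hg2' : ∀ F : Ω → ℂ, (∀ w, ‖F w‖ ≤ 1) → ‖ν (fun w => F (g2' w)) - ν F‖ ≤ ε)
    (r1 r2 N : Ω → ℤ)
    (hb1 : ∀ w, 4 * |r1 w| < N w → 4 * |r2 w| < N w → r1 (g1 w) = r1 w + r2 w ∧ r2 (g1 w) = r2 w)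
    (hb1' : ∀ w, 4 * |r1 w| < N w → 4 * |r2 w| < N w → r1 (g1' w) = r1 w - r2 w ∧ r2 (g1' w) = r2 w)
    (hb2 : ∀ w, 4 * |r1 w| < N w → 4 * |r2 w| < N w → r1 (g2 w) = r1 w ∧ r2 (g2 w) = r2 w + r1 w)
    (hb2' : ∀ w, 4 * |r1 w| < N w → 4 * |r2 w| < N w → r1 (g2' w) = r1 w ∧ r2 (g2' w) = r2 w - r1 w)
    (G1 G2 : Ω → ℝ) (a1 : ∀ w, 0 ≤ G1 w) (a2 : ∀ w, G1 w ≤ 2) (a3 : ∀ w, N w ≤ 4 * |r1 w| → 1 ≤ G1 w)
    (a4 : ‖ν (fun w => (G1 w : ℂ))‖ ≤ 2 * ε)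
    (c1 : ∀ w, 0 ≤ G2 w) (c2 : ∀ w, G2 w ≤ 2) (c3 : ∀ w, N w ≤ 4 * |r2 w| → 1 ≤ G2 w)
    (c4 : ‖ν (fun w => (G2 w : ℂ))‖ ≤ 2 * ε)
    (hZ : m ν (fun w => r1 w = 0 ∧ r2 w = 0) ≤ 1/4 + ε) : False := by
  set Box : Ω → Prop := fun w => 4 * |r1 w| < N w ∧ 4 * |r2 w| < N w with hBox
  set A : Ω → Prop := fun w => (0 ≤ r2 w ∧ r2 w < r1 w) ∨ (r2 w ≤ 0 ∧ r1 w < r2 w) with hA
  set B : Ω → Prop := fun w => (0 < r1 w ∧ r1 w ≤ r2 w) ∨ (r1 w < 0 ∧ r2 w ≤ r1 w) with hB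
  set C : Ω → Prop := fun w => (r1 w ≤ 0 ∧ - r1 w < r2 w) ∨ (0 ≤ r1 w ∧ r2 w < - r1 w) with hC
  set D : Ω → Prop := fun w => (0 < r2 w ∧ r2 w ≤ - r1 w) ∨ (r2 w < 0 ∧ - r1 w ≤ r2 w) with hD
  set Z : Ω → Prop := fun w => r1 w = 0 ∧ r2 w = 0 with hZd
  have sB : m ν (fun w => B w ∧ Box w) ≤ m ν (fun w => ¬ Box w) + 2 * ε := by
    refine sector hν h1 A B Box (fun w => ?_) g1 g1' i1 hg1' (fun w hw => ?_)
    · simp only [hA, hB]; omega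
    · have := hb1 w hw.1 hw.2
      simp only [hA, hB]; omega
  have sA : m ν (fun w => A w ∧ Box w) ≤ m ν (fun w => ¬ Box w) + 2 * ε := by
    refine sector hν h1 B A Box (fun w => ?_) g2 g2' i2 hg2' (fun w hw => ?_)
    · simp only [hA, hB]; omega
    · have := hb2 w hw.1 hw.2
      simp only [hA, hB]; omega
  have sC : m ν (fun w => C w ∧ Box w) ≤ m ν (fun w => ¬ Box w) + 2 * ε := by
    refine sector hν h1 D C Box (fun w => ?_) g1' g1 i1' hg1 (fun w hw => ?_)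
    · simp only [hC, hD]; omega
    · have := hb1' w hw.1 hw.2
      simp only [hC, hD]; omega
  have sD : m ν (fun w => D w ∧ Box w) ≤ m ν (fun w => ¬ Box w) + 2 * ε := by
    refine sector hν h1 C D Box (fun w => ?_) g2' g2 i2' hg2 (fun w hw => ?_)
    · simp only [hC, hD]; omega
    · have := hb2' w hw.1 hw.2
      simp only [hC, hD]; omega
  have o1 := out_bound hν h1 G1 (fun w => N w ≤ 4 * |r1 w|) a1 a2 a3 a4
  have o2 := out_bound hν h1 G2 (fun w => N w ≤ 4 * |r2 w|) c1 c2 c3 c4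
  have o3 := subadd hν h1 (fun w => N w ≤ 4 * |r1 w|) (fun w => N w ≤ 4 * |r2 w|)
  have o4 : m ν (fun w => ¬ Box w) = m ν (fun w => (N w ≤ 4 * |r1 w|) ∨ (N w ≤ 4 * |r2 w|)) := by
    congr 1
    funext w
    simp only [hBox, not_and_or, not_lt]
  have t0 : 1 - ε ≤ m ν (fun _ => True) := by
    have e : ind (fun _ : Ω => True) = fun _ => (1:ℂ) := by funext w; simp [ind]
    unfold m
    rw [e]
    have := (Complex.abs_re_le_norm _).trans h1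
    rw [abs_le, Complex.sub_re, Complex.one_re] at this
    linarith [this.1]
  have cover : ∀ w, True → ((A w ∧ Box w) ∨ ((B w ∧ Box w) ∨ ((C w ∧ Box w) ∨ ((D w ∧ Box w) ∨ (Z w ∨ ¬ Box w))))) := by
    intro w _
    by_cases hb : Box w
    · simp only [hb, and_true, not_true, or_false]
      simp only [hA, hB, hC, hD, hZd]; omega
    · simp [hb]
  have t1 := mono hν h1 cover
  have t2 := subadd hν h1 (fun w => A w ∧ Box w) (fun w => (B w ∧ Box w) ∨ ((C w ∧ Box w) ∨ ((D w ∧ Box w) ∨ (Z w ∨ ¬ Box w))))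
  have t3 := subadd hν h1 (fun w => B w ∧ Box w) (fun w => (C w ∧ Box w) ∨ ((D w ∧ Box w) ∨ (Z w ∨ ¬ Box w)))
  have t4 := subadd hν h1 (fun w => C w ∧ Box w) (fun w => (D w ∧ Box w) ∨ (Z w ∨ ¬ Box w))
  have t5 := subadd hν h1 (fun w => D w ∧ Box w) (fun w => Z w ∨ ¬ Box w)
  have t6 := subadd hν h1 Z (fun w => ¬ Box w)
  rw [← o4] at o3
  linarith

end abs

/-- multiplication by `b` from `ZMod a` to `ZMod n`, `n ∣ a*b` -/
noncomputable def mh (a b n : ℕ) (h : n ∣ a * b) : ZMod a →+ ZMod n :=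
  ZMod.lift a ⟨(AddMonoidHom.mulLeft ((b : ℕ) : ZMod n)).comp (Int.castAddHom (ZMod n)), by
    simp only [AddMonoidHom.comp_apply, AddMonoidHom.coe_mulLeft]
    have : ((Int.castAddHom (ZMod n)) (a:ℤ)) = ((a:ℕ) : ZMod n) := by simp
    rw [this, ← Nat.cast_mul, mul_comm b a]
    exact (ZMod.natCast_eq_zero_iff _ _).2 h⟩

lemma mh_val (a b n : ℕ) (h : n ∣ a * b) [NeZero a] (x : ZMod a) :
    mh a b n h x = (((b:ℤ) * (x.val : ℤ) : ℤ) : ZMod n) := by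
  have hx : x = (((x.val : ℕ) : ℤ) : ZMod a) := by simp
  conv_lhs => rw [hx]
  unfold mh
  rw [ZMod.lift_coe]
  simp

lemma vma_add {n : ℕ} [NeZero n] (a b : ZMod n) (ha : 4 * |a.valMinAbs| < n) (hb : 4 * |b.valMinAbs| < n) :
    (a + b).valMinAbs = a.valMinAbs + b.valMinAbs := by
  rw [ZMod.valMinAbs_spec]
  constructor
  · push_cast; simp
  · rw [Set.mem_Ioc]
    have h1 := abs_lt.1 (show |a.valMinAbs| < |a.valMinAbs| + 1 by linarith)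
    have h2 := le_abs_self a.valMinAbs
    have h3 := neg_abs_le a.valMinAbs
    have h4 := le_abs_self b.valMinAbs
    have h5 := neg_abs_le b.valMinAbs
    constructor <;> omega

lemma vma_sub {n : ℕ} [NeZero n] (a b : ZMod n) (ha : 4 * |a.valMinAbs| < n) (hb : 4 * |b.valMinAbs| < n) :
    (a - b).valMinAbs = a.valMinAbs - b.valMinAbs := by
  rw [ZMod.valMinAbs_spec]
  constructor
  · push_cast; simp
  · rw [Set.mem_Ioc]
    have h2 := le_abs_self a.valMinAbs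
    have h3 := neg_abs_le a.valMinAbs
    have h4 := le_abs_self b.valMinAbs
    have h5 := neg_abs_le b.valMinAbs
    constructor <;> omega

lemma cos_nonpos_of (a b : ℕ) (ha : 0 < a) (hb : 0 < b) (x y : ℕ) (r k : ℤ)
    (h : (b:ℤ) * x - a * y = r + (a * b : ℕ) * k) (h2 : ((a * b : ℕ) : ℤ) ≤ 4 * |r|)
    (h3 : 2 * |r| ≤ ((a * b : ℕ) : ℤ)) : Real.cos (2 * Real.pi * ((x:ℝ)/a - (y:ℝ)/b)) ≤ 0 := by
  have ha' : (0:ℝ) < a := by exact_mod_cast ha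
  have hb' : (0:ℝ) < b := by exact_mod_cast hb
  have hr : (b:ℝ) * x - a * y = r + (a * b) * k := by exact_mod_cast h
  have e : 2 * Real.pi * ((x:ℝ)/a - (y:ℝ)/b) = 2 * Real.pi * (r / (a*b)) + k * (2 * Real.pi) := by
    have : (x:ℝ)/a - (y:ℝ)/b = (b * x - a * y) / (a*b) := by field_simp
    rw [this, hr]; field_simp
  rw [e, Real.cos_add_int_mul_two_pi, ← Real.cos_abs]
  have e2 : |2 * Real.pi * ((r:ℝ) / (a*b))| = 2 * Real.pi * (|(r:ℝ)| / (a*b)) := by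
    rw [abs_mul, abs_of_pos (by positivity), abs_div, abs_of_pos (by positivity : (0:ℝ) < a * b)]
  rw [e2]
  have h2' : (a:ℝ) * b ≤ 4 * |(r:ℝ)| := by exact_mod_cast h2
  have h3' : 2 * |(r:ℝ)| ≤ (a:ℝ) * b := by exact_mod_cast h3
  have hab : (0:ℝ) < a * b := by positivity
  have q1 : 1/4 ≤ |(r:ℝ)| / (a*b) := by rw [le_div_iff₀ hab]; linarith
  have q2 : |(r:ℝ)| / (a*b) ≤ 1/2 := by rw [div_le_iff₀ hab]; linarith
  have hpi := Real.pi_pos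
  apply Real.cos_nonpos_of_pi_div_two_le_of_le
  · nlinarith
  · nlinarith

/-- the difference class -/
noncomputable def dd (a b : ℕ) (x : ZMod a) (y : ZMod b) : ZMod (a * b) :=
  mh a b (a*b) dvd_rfl x - mh b a (a*b) (by rw [mul_comm]) y

lemma dd_add (a b : ℕ) (x x' : ZMod a) (y y' : ZMod b) : dd a b (x + x') (y + y') = dd a b x y + dd a b x' y' := by
  unfold dd; rw [map_add, map_add]; abel
lemma dd_sub (a b : ℕ) (x x' : ZMod a) (y y' : ZMod b) : dd a b (x - x') (y - y') = dd a b x y - dd a b x' y' := by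
  unfold dd; rw [map_sub, map_sub]; abel

lemma dd_int (a b : ℕ) [NeZero a] [NeZero b] (x : ZMod a) (y : ZMod b) : 
    dd a b x y = (((b:ℤ) * x.val - a * y.val : ℤ) : ZMod (a*b)) := by
  unfold dd; rw [mh_val, mh_val]; push_cast; ring

lemma cos_dd (a b : ℕ) [NeZero a] [NeZero b] (x : ZMod a) (y : ZMod b) 
    (h : ((a * b : ℕ) : ℤ) ≤ 4 * |(dd a b x y).valMinAbs|) : 
    Real.cos (2 * Real.pi * ((x.val:ℝ)/a - (y.val:ℝ)/b)) ≤ 0 := by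
  have ha : 0 < a := Nat.pos_of_ne_zero (NeZero.ne a)
  have hb : 0 < b := Nat.pos_of_ne_zero (NeZero.ne b)
  have : NeZero (a * b) := ⟨by positivity⟩
  have h1 : (((b:ℤ) * x.val - a * y.val : ℤ) : ZMod (a*b)) = (((dd a b x y).valMinAbs : ℤ) : ZMod (a*b)) := by
    rw [ZMod.coe_valMinAbs, dd_int]
  rw [ZMod.intCast_eq_intCast_iff_dvd_sub] at h1
  obtain ⟨k, hk⟩ := h1
  have h2 := ZMod.valMinAbs_mem_Ioc (dd a b x y)
  rw [Set.mem_Ioc] at h2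
  have h3 : 2 * |(dd a b x y).valMinAbs| ≤ ((a * b : ℕ) : ℤ) := by
    rcases abs_cases (dd a b x y).valMinAbs with h' | h' <;> rw [h'.1] <;> omega
  refine cos_nonpos_of a b ha hb x.val y.val _ (-k) ?_ h h3
  linarith

lemma dd_zero (a b : ℕ) [NeZero a] [NeZero b] (hc : Nat.Coprime a b) (x : ZMod a) (y : ZMod b) 
    (h : (dd a b x y).valMinAbs = 0) : y = 0 := by
  rw [ZMod.valMinAbs_eq_zero, dd_int, ZMod.intCast_zmod_eq_zero_iff_dvd] at h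
  have h1 : (b:ℤ) ∣ (b:ℤ) * x.val - a * y.val := dvd_trans ⟨(a:ℤ), by push_cast; ring⟩ h
  have h2 : (b:ℤ) ∣ a * y.val := by
    have := dvd_sub (Dvd.intro _ rfl : (b:ℤ) ∣ (b:ℤ) * x.val) h1
    simpa using this
  have h3 : b ∣ a * y.val := by exact_mod_cast h2
  have h4 : b ∣ y.val := (Nat.Coprime.symm hc).dvd_of_dvd_mul_left h3
  have h5 := Nat.eq_zero_of_dvd_of_lt h4 (ZMod.val_lt y)
  exact (ZMod.val_eq_zero y).1 h5

end MeasContra862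

open MeasContra862 in
/-- Finitely additive almost-invariant almost-positive functional on pairs of torsion points
concentrated near the diagonal does not exist (Burger/Shalom sector argument). -/
theorem measureContra (p : ℕ → ℕ) (hp : ∀ i, 3 ≤ p i)
    (hcop : ∀ i i', i ≠ i' → Nat.Coprime (p i) (p i')) (j : ℕ)
    (ν : ((i : ℕ) → ZMod (p i) × ZMod (p i) → ZMod (p j) × ZMod (p j) → ℂ) →ₗ[ℂ] ℂ)
    (ε : ℝ) (hε : 0 ≤ ε) (hε1 : ε ≤ 1 / 100)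
    (hν : ∀ F, (∀ i x y, ‖F i x y‖ ≤ 1) → ‖ν F‖ ≤ 1 + ε)
    (h1 : ‖ν (fun _ _ _ => 1) - 1‖ ≤ ε)
    (hj : ∀ F, (∀ i, i ≠ j → F i = 0) → ν F = 0)
    (hz1 : ‖ν (fun i x y => Complex.exp (2 * Real.pi * Complex.I *
        ((x.1.val : ℂ) / (p i : ℂ) - (y.1.val : ℂ) / (p j : ℂ)))) - 1‖ ≤ ε)
    (hz1' : ‖ν (fun i x y => Complex.exp (-(2 * Real.pi * Complex.I *
        ((x.1.val : ℂ) / (p i : ℂ) - (y.1.val : ℂ) / (p j : ℂ))))) - 1‖ ≤ ε)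
    (hz2 : ‖ν (fun i x y => Complex.exp (2 * Real.pi * Complex.I *
        ((x.2.val : ℂ) / (p i : ℂ) - (y.2.val : ℂ) / (p j : ℂ)))) - 1‖ ≤ ε)
    (hz2' : ‖ν (fun i x y => Complex.exp (-(2 * Real.pi * Complex.I *
        ((x.2.val : ℂ) / (p i : ℂ) - (y.2.val : ℂ) / (p j : ℂ))))) - 1‖ ≤ ε)
    (hg1 : ∀ F, (∀ i x y, ‖F i x y‖ ≤ 1) →
      ‖ν (fun i x y => F i (x.1 + x.2, x.2) (y.1 + y.2, y.2)) - ν F‖ ≤ ε)
    (hg1' : ∀ F, (∀ i x y, ‖F i x y‖ ≤ 1) →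
      ‖ν (fun i x y => F i (x.1 - x.2, x.2) (y.1 - y.2, y.2)) - ν F‖ ≤ ε)
    (hg2 : ∀ F, (∀ i x y, ‖F i x y‖ ≤ 1) →
      ‖ν (fun i x y => F i (x.1, x.2 + x.1) (y.1, y.2 + y.1)) - ν F‖ ≤ ε)
    (hg2' : ∀ F, (∀ i x y, ‖F i x y‖ ≤ 1) →
      ‖ν (fun i x y => F i (x.1, x.2 - x.1) (y.1, y.2 - y.1)) - ν F‖ ≤ ε)
    (h0 : ‖ν (fun _ _ y => if y = 0 then 1 else 0)‖ ≤ 1 / 4) : False := by
  have hne : ∀ i, NeZero (p i) := fun i => ⟨by have := hp i; omega⟩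
  have hne2 : ∀ i, NeZero (p i * p j) := fun i => ⟨mul_ne_zero (NeZero.ne _) (NeZero.ne _)⟩
  let Ω := Σ i : ℕ, (ZMod (p i) × ZMod (p i)) × (ZMod (p j) × ZMod (p j))
  let cur : (Ω → ℂ) →ₗ[ℂ] ((i : ℕ) → ZMod (p i) × ZMod (p i) → ZMod (p j) × ZMod (p j) → ℂ) :=
    { toFun := fun f i x y => f ⟨i, x, y⟩
      map_add' := fun _ _ => rfl
      map_smul' := fun _ _ => rfl }
  let ν' : (Ω → ℂ) →ₗ[ℂ] ℂ := ν ∘ₗ cur
  have hν' : ∀ f : Ω → ℂ, ν' f = ν (fun i x y => f ⟨i, x, y⟩) := fun _ => rfl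
  have cos_norm : ∀ (z : Ω → ℝ), ‖ν (fun i x y => Complex.exp (2 * Real.pi * Complex.I * (z ⟨i,x,y⟩ : ℂ))) - 1‖ ≤ ε → 
      ‖ν (fun i x y => Complex.exp (-(2 * Real.pi * Complex.I * (z ⟨i,x,y⟩ : ℂ)))) - 1‖ ≤ ε → 
      ‖ν' (fun w => ((1 - Real.cos (2 * Real.pi * z w) : ℝ) : ℂ))‖ ≤ 2 * ε := by
    intro z ha hb
    have e : (fun w : Ω => ((1 - Real.cos (2 * Real.pi * z w) : ℝ) : ℂ)) = (fun _ => (1:ℂ)) - 
        (1/2:ℂ) • ((fun w : Ω => Complex.exp (2 * Real.pi * Complex.I * (z w : ℂ))) + 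
          (fun w : Ω => Complex.exp (-(2 * Real.pi * Complex.I * (z w : ℂ))))) := by
      funext w
      simp only [Pi.sub_apply, Pi.smul_apply, Pi.add_apply, smul_eq_mul]
      push_cast
      rw [Complex.cos]
      have e1 : (2 * (Real.pi:ℂ) * (z w : ℂ)) * Complex.I = 2 * Real.pi * Complex.I * (z w : ℂ) := by ring
      have e2 : -(2 * (Real.pi:ℂ) * (z w : ℂ)) * Complex.I = -(2 * Real.pi * Complex.I * (z w : ℂ)) := by ring
      rw [e1, e2]; ring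
    rw [e, map_sub, map_smul, map_add]
    rw [hν' (fun _ => 1), hν' (fun w => Complex.exp (2 * Real.pi * Complex.I * (z w : ℂ))), 
      hν' (fun w => Complex.exp (-(2 * Real.pi * Complex.I * (z w : ℂ))))]
    set a := ν (fun _ _ _ => 1)
    set b := ν (fun i x y => Complex.exp (2 * Real.pi * Complex.I * (z ⟨i,x,y⟩ : ℂ)))
    set c := ν (fun i x y => Complex.exp (-(2 * Real.pi * Complex.I * (z ⟨i,x,y⟩ : ℂ))))
    have e2 : a - (1/2:ℂ) • (b + c) = (a - 1) - ((1/2:ℂ) * (b - 1) + (1/2:ℂ) * (c - 1)) := by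
      rw [smul_eq_mul]; ring
    rw [e2]
    have n1 : ‖(1/2:ℂ) * (b - 1)‖ ≤ ε / 2 := by
      rw [norm_mul]; norm_num; linarith
    have n2 : ‖(1/2:ℂ) * (c - 1)‖ ≤ ε / 2 := by
      rw [norm_mul]; norm_num; linarith
    have n3 := norm_sub_le (a - 1) ((1/2:ℂ) * (b - 1) + (1/2:ℂ) * (c - 1))
    have n4 := norm_add_le ((1/2:ℂ) * (b - 1)) ((1/2:ℂ) * (c - 1))
    linarith
  have vadd : ∀ (i : ℕ) (a b : ZMod (p i * p j)), 4 * |a.valMinAbs| < ((p i * p j : ℕ) : ℤ) → 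
      4 * |b.valMinAbs| < ((p i * p j : ℕ) : ℤ) → (a + b).valMinAbs = a.valMinAbs + b.valMinAbs := 
    fun i a b ha hb => vma_add a b ha hb
  have vsub : ∀ (i : ℕ) (a b : ZMod (p i * p j)), 4 * |a.valMinAbs| < ((p i * p j : ℕ) : ℤ) → 
      4 * |b.valMinAbs| < ((p i * p j : ℕ) : ℤ) → (a - b).valMinAbs = a.valMinAbs - b.valMinAbs := 
    fun i a b ha hb => vma_sub a b ha hb
  refine abs_contra (ν := ν') (ε := ε) hε1 (fun F hF => ?_) ?_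
    (fun w => ⟨w.1, (w.2.1.1 + w.2.1.2, w.2.1.2), (w.2.2.1 + w.2.2.2, w.2.2.2)⟩)
    (fun w => ⟨w.1, (w.2.1.1 - w.2.1.2, w.2.1.2), (w.2.2.1 - w.2.2.2, w.2.2.2)⟩)
    (fun w => ⟨w.1, (w.2.1.1, w.2.1.2 + w.2.1.1), (w.2.2.1, w.2.2.2 + w.2.2.1)⟩)
    (fun w => ⟨w.1, (w.2.1.1, w.2.1.2 - w.2.1.1), (w.2.2.1, w.2.2.2 - w.2.2.1)⟩)
    ?_ ?_ ?_ ?_ (fun F hF => ?_) (fun F hF => ?_) (fun F hF => ?_) (fun F hF => ?_)
    (fun w => (dd (p w.1) (p j) w.2.1.1 w.2.2.1).valMinAbs)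
    (fun w => (dd (p w.1) (p j) w.2.1.2 w.2.2.2).valMinAbs)
    (fun w => ((p w.1 * p j : ℕ) : ℤ)) (fun w ha hb => ?_) (fun w ha hb => ?_) (fun w ha hb => ?_) (fun w ha hb => ?_)
    (fun w => 1 - Real.cos (2 * Real.pi * ((w.2.1.1.val : ℝ)/p w.1 - (w.2.2.1.val : ℝ)/p j)))
    (fun w => 1 - Real.cos (2 * Real.pi * ((w.2.1.2.val : ℝ)/p w.1 - (w.2.2.2.val : ℝ)/p j)))
    (fun w => by linarith [Real.cos_le_one (2 * Real.pi * ((w.2.1.1.val : ℝ)/p w.1 - (w.2.2.1.val : ℝ)/p j))])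
    (fun w => by linarith [Real.neg_one_le_cos (2 * Real.pi * ((w.2.1.1.val : ℝ)/p w.1 - (w.2.2.1.val : ℝ)/p j))])
    (fun w hw => by linarith [cos_dd (p w.1) (p j) w.2.1.1 w.2.2.1 hw])
    ?_
    (fun w => by linarith [Real.cos_le_one (2 * Real.pi * ((w.2.1.2.val : ℝ)/p w.1 - (w.2.2.2.val : ℝ)/p j))])
    (fun w => by linarith [Real.neg_one_le_cos (2 * Real.pi * ((w.2.1.2.val : ℝ)/p w.1 - (w.2.2.2.val : ℝ)/p j))])
    (fun w hw => by linarith [cos_dd (p w.1) (p j) w.2.1.2 w.2.2.2 hw])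
    ?_ ?_
  · exact hν _ (fun i x y => hF ⟨i, x, y⟩)
  · exact h1
  · rintro ⟨i, ⟨x1, x2⟩, ⟨y1, y2⟩⟩; simp
  · rintro ⟨i, ⟨x1, x2⟩, ⟨y1, y2⟩⟩; simp
  · rintro ⟨i, ⟨x1, x2⟩, ⟨y1, y2⟩⟩; simp
  · rintro ⟨i, ⟨x1, x2⟩, ⟨y1, y2⟩⟩; simp
  · exact hg1 (fun i x y => F ⟨i, x, y⟩) (fun i x y => hF ⟨i, x, y⟩)
  · exact hg1' (fun i x y => F ⟨i, x, y⟩) (fun i x y => hF ⟨i, x, y⟩)
  · exact hg2 (fun i x y => F ⟨i, x, y⟩) (fun i x y => hF ⟨i, x, y⟩)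
  · exact hg2' (fun i x y => F ⟨i, x, y⟩) (fun i x y => hF ⟨i, x, y⟩)
  · refine ⟨?_, rfl⟩
    simp only [dd_add]; exact vadd _ _ _ ha hb
  · refine ⟨?_, rfl⟩
    simp only [dd_sub]; exact vsub _ _ _ ha hb
  · refine ⟨rfl, ?_⟩
    simp only [dd_add]; exact vadd _ _ _ hb ha
  · refine ⟨rfl, ?_⟩
    simp only [dd_sub]; exact vsub _ _ _ hb ha
  · apply cos_norm (fun w => (w.2.1.1.val : ℝ)/p w.1 - (w.2.2.1.val : ℝ)/p j)
    · push_cast; exact hz1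
    · push_cast; exact hz1'
  · apply cos_norm (fun w => (w.2.1.2.val : ℝ)/p w.1 - (w.2.2.2.val : ℝ)/p j)
    · push_cast; exact hz2
    · push_cast; exact hz2'
  · -- zero part
    classical
    have hνb : ∀ F : Ω → ℂ, (∀ w, ‖F w‖ ≤ 1) → ‖ν' F‖ ≤ 1 + ε := fun F hF => hν _ (fun i x y => hF ⟨i, x, y⟩)
    have h1b : ‖ν' (fun _ => 1) - 1‖ ≤ ε := h1
    set P : Ω → Prop := fun w => (dd (p w.1) (p j) w.2.1.1 w.2.2.1).valMinAbs = 0 ∧ 
      (dd (p w.1) (p j) w.2.1.2 w.2.2.2).valMinAbs = 0 with hP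
    have e1 : m ν' P = m ν' (fun w => (P w ∧ w.1 ≠ j) ∨ (P w ∧ w.1 = j)) := by
      congr 1; funext w
      by_cases h : w.1 = j <;> simp [h]
    have e2 : m ν' (fun w => (P w ∧ w.1 ≠ j) ∨ (P w ∧ w.1 = j)) = m ν' (fun w => (P w ∧ w.1 ≠ j)) + m ν' (fun w => (P w ∧ w.1 = j)) :=
      m_or (fun w ha hb => ha.2 hb.2)
    have e3 : m ν' (fun w => (P w ∧ w.1 = j)) = 0 := by
      unfold m
      rw [hν', hj]
      · simp
      · intro i hi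
        funext x y
        simp [ind, hi]
    have e4 : m ν' (fun w => (P w ∧ w.1 ≠ j)) ≤ m ν' (fun w => w.2.2 = 0) + ε := by
      refine mono hνb h1b (fun w hw => ?_)
      obtain ⟨⟨ha, hb⟩, hc⟩ := hw
      have c := hcop w.1 j hc
      exact Prod.ext (dd_zero _ _ c _ _ ha) (dd_zero _ _ c _ _ hb)
    have e5 : m ν' (fun w => w.2.2 = 0) ≤ 1/4 := by
      unfold m
      refine (le_abs_self _).trans ((Complex.abs_re_le_norm _).trans ?_)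
      rw [hν']
      have e6 : (fun (i : ℕ) (x : ZMod (p i) × ZMod (p i)) (y : ZMod (p j) × ZMod (p j)) => 
          ind (fun w : Ω => w.2.2 = 0) ⟨i, x, y⟩) = (fun _ _ y => if y = 0 then 1 else 0) := by
        funext i x y
        by_cases hy : y = 0 <;> simp [ind, hy]
      rw [e6]
      exact h0
    rw [e1, e2, e3]
    linarith

end Pool.Agent.Helper234.Calkin
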