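import Mathlib
import Pool.Agent.Helper234.Calkin.Defs
import Pool.Agent.Helper234.Calkin.Equiv
import Pool.Agent.Helper234.Calkin.Measure
set_option autoImplicit false
open scoped Matrix.Norms.L2Operator Kronecker

namespace Pool.Agent.Helper234.Calkin










open Matrix in
theorem entry_le {n : Type} [Fintype n] [DecidableEq n] (A : Matrix n n ℂ) (a b : n) :
    ‖A a b‖ ≤ ‖A‖ := by
  have h1 := Matrix.l2_opNorm_mulVec A (EuclideanSpace.single b (1 : ℂ))
  have h2 : ‖(EuclideanSpace.single b (1 : ℂ) : EuclideanSpace ℂ n)‖ = 1 := by simp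
  rw [h2, mul_one] at h1
  refine le_trans ?_ h1
  have h3 := PiLp.norm_apply_le (p := 2) ((EuclideanSpace.equiv n ℂ).symm
    (A *ᵥ (EuclideanSpace.single b (1 : ℂ) : EuclideanSpace ℂ n).ofLp)) a
  refine le_trans (le_of_eq ?_) h3
  congr 1
  simp [Matrix.mulVec, dotProduct]

theorem sMat_unitary (p : ℕ → ℕ) (i : ℕ) [NeZero (p i)] (k : Fin 9) :
    (sMat p i k).conjTranspose * sMat p i k = 1 := by
  have hexp : ∀ t : ℂ, (starRingEnd ℂ) t = -t → (starRingEnd ℂ) (Complex.exp t) *
      Complex.exp t = 1 := by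
    intro t ht
    rw [← Complex.exp_conj, ht, ← Complex.exp_add]
    simp
  have hdiag : ∀ d : Y p i → ℂ, (∀ x, (starRingEnd ℂ) (d x) * d x = 1) →
      (Matrix.diagonal d).conjTranspose * Matrix.diagonal d = 1 := by
    intro d hd
    rw [Matrix.diagonal_conjTranspose, Matrix.diagonal_mul_diagonal, ← Matrix.diagonal_one]
    congr 1
    funext x
    exact hd x
  have hperm : ∀ g : Y p i → Y p i, Function.Injective g →
      (Matrix.of (fun x y : Y p i => if x = g y then (1 : ℂ) else 0)).conjTranspose *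
        Matrix.of (fun x y : Y p i => if x = g y then (1 : ℂ) else 0) = 1 := by
    intro g hg
    ext a b
    rw [Matrix.mul_apply, Finset.sum_eq_single (g a)]
    · simp only [Matrix.conjTranspose_apply, Matrix.of_apply, if_true, star_one, one_mul,
        Matrix.one_apply]
      by_cases h : a = b
      · subst h; simp
      · rw [if_neg h, if_neg (fun h2 => h (hg h2))]
    · intro c _ hc
      simp [Matrix.conjTranspose_apply, Matrix.of_apply, hc]
    · simp
  have hconj : ∀ r : ℂ, (starRingEnd ℂ) r = r →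
      (starRingEnd ℂ) (2 * Real.pi * Complex.I * r) = -(2 * Real.pi * Complex.I * r) := by
    intro r hr
    rw [map_mul, map_mul, map_mul, hr, Complex.conj_ofReal, Complex.conj_I, map_ofNat]
    ring
  have hrat : ∀ a b : ℕ, (starRingEnd ℂ) ((a : ℂ) / (b : ℂ)) = (a : ℂ) / (b : ℂ) := by
    intro a b
    simp
  fin_cases k
  · change (1 : Matrix (Y p i) (Y p i) ℂ).conjTranspose * 1 = 1
    simp
  · exact hdiag _ (fun x => hexp _ (hconj _ (hrat _ _)))
  · refine hdiag _ (fun x => hexp _ ?_)
    rw [map_neg, hconj _ (hrat _ _)]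
  · exact hdiag _ (fun x => hexp _ (hconj _ (hrat _ _)))
  · refine hdiag _ (fun x => hexp _ ?_)
    rw [map_neg, hconj _ (hrat _ _)]
  · refine hperm (fun y => (y.1 + y.2, y.2)) ?_
    rintro ⟨a, b⟩ ⟨c, d⟩ h
    simp only [Prod.mk.injEq] at h ⊢
    obtain ⟨h1, rfl⟩ := h
    exact ⟨add_right_cancel h1, rfl⟩
  · refine hperm (fun y => (y.1 - y.2, y.2)) ?_
    rintro ⟨a, b⟩ ⟨c, d⟩ h
    simp only [Prod.mk.injEq] at h ⊢
    obtain ⟨h1, rfl⟩ := h
    exact ⟨sub_left_injective h1, rfl⟩
  · refine hperm (fun y => (y.1, y.2 + y.1)) ?_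
    rintro ⟨a, b⟩ ⟨c, d⟩ h
    simp only [Prod.mk.injEq] at h ⊢
    obtain ⟨rfl, h1⟩ := h
    exact ⟨rfl, add_right_cancel h1⟩
  · refine hperm (fun y => (y.1, y.2 - y.1)) ?_
    rintro ⟨a, b⟩ ⟨c, d⟩ h
    simp only [Prod.mk.injEq] at h ⊢
    obtain ⟨rfl, h1⟩ := h
    exact ⟨rfl, sub_left_injective h1⟩

theorem uMat_norm (p : ℕ → ℕ) [∀ i, NeZero (p i)] (k : Fin 2 × Fin 2 × Fin 9) (i : ℕ) :
    ‖uMat p k i‖ ≤ 1 := by
  have h1 : (uMat p k i).conjTranspose * uMat p k i =
      Matrix.diagonal (fun b : Fin 2 × Y p i => if b.1 = k.2.1 then (1 : ℂ) else 0) := by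
    ext b b'
    have hs := congrFun (congrFun (sMat_unitary p i k.2.2) b.2) b'.2
    rw [Matrix.mul_apply] at hs
    rw [Matrix.mul_apply, Fintype.sum_prod_type, Finset.sum_eq_single k.1]
    · simp only [uMat, Matrix.conjTranspose_apply, Matrix.of_apply, true_and] at hs ⊢
      by_cases hb : b.1 = k.2.1
      · by_cases hb' : b'.1 = k.2.1
        · simp only [hb, hb', if_true]
          rw [hs, Matrix.diagonal_apply, Matrix.one_apply, hb, if_pos rfl]
          by_cases h2 : b.2 = b'.2
          · rw [if_pos h2, if_pos (Prod.ext (hb.trans hb'.symm) h2)]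
          · rw [if_neg h2, if_neg (fun h => h2 (congrArg Prod.snd h))]
        · simp only [hb', if_false, mul_zero, Finset.sum_const_zero]
          rw [Matrix.diagonal_apply, if_neg]
          rintro rfl
          exact hb' hb
      · simp only [hb, if_false, star_zero, zero_mul, Finset.sum_const_zero]
        rw [Matrix.diagonal_apply]
        simp [hb]
    · intro a _ ha
      apply Finset.sum_eq_zero
      intro x _
      simp [uMat, Matrix.conjTranspose_apply, ha]
    · intro h; exact absurd (Finset.mem_univ _) h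
  have h2 := Matrix.l2_opNorm_conjTranspose_mul_self (uMat p k i)
  rw [h1, Matrix.l2_opNorm_diagonal] at h2
  have h3 : ‖fun b : Fin 2 × Y p i => if b.1 = k.2.1 then (1 : ℂ) else 0‖ ≤ 1 := by
    rw [pi_norm_le_iff_of_nonneg zero_le_one]
    intro b
    split_ifs <;> simp
  rw [h2] at h3
  nlinarith [norm_nonneg (uMat p k i)]

theorem e11_norm {Z : Type} [Fintype Z] [DecidableEq Z] (f : Z → ℂ) (c : ℝ) (hc : 0 ≤ c)
    (hf : ∀ x, ‖f x‖ ≤ c) : ‖e11 f‖ ≤ c := by
  unfold e11
  rw [Matrix.l2_opNorm_diagonal, pi_norm_le_iff_of_nonneg hc]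
  intro a
  split_ifs
  · exact hf _
  · simpa using hc

/-- the averaged functional -/
noncomputable def nuB (p : ℕ → ℕ) [∀ i, NeZero (p i)] (j : ℕ)
    (T : (∀ i, Matrix (Fin 2 × Y p i) (Fin 2 × Y p i) ℂ) →ₗ[ℂ]
      Matrix (Fin 2 × Y p j) (Fin 2 × Y p j) ℂ) :
    ((i : ℕ) → ZMod (p i) × ZMod (p i) → ZMod (p j) × ZMod (p j) → ℂ) →ₗ[ℂ] ℂ where
  toFun F := (1 / (Fintype.card (Y p j) : ℂ)) *
    ∑ y : Y p j, T (fun i => e11 (fun x => F i x y)) (0, y) (0, y)
  map_add' F G := by
    rw [← mul_add, ← Finset.sum_add_distrib]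
    congr 1
    apply Finset.sum_congr rfl
    intro y _
    have h1 : (fun i => e11 (fun x => (F + G) i x y)) =
        (fun i => e11 (fun x : Y p i => F i x y)) + (fun i => e11 (fun x : Y p i => G i x y)) := by
      funext i
      simp only [Pi.add_apply, e11]
      rw [Matrix.diagonal_add]
      congr 1
      funext a
      split_ifs <;> simp
    rw [h1, map_add]
    rfl
  map_smul' c F := by
    have h2 : ∀ y : Y p j, T (fun i => e11 (fun x => (c • F) i x y)) (0, y) (0, y) =
        c * T (fun i => e11 (fun x => F i x y)) (0, y) (0, y) := by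
      intro y
      have h1 : (fun i => e11 (fun x => (c • F) i x y)) =
          c • (fun i => e11 (fun x : Y p i => F i x y)) := by
        funext i
        simp only [Pi.smul_apply, e11]
        rw [← Matrix.diagonal_smul]
        congr 1
        funext a
        simp only [Pi.smul_apply, smul_eq_mul]
        split_ifs <;> simp
      rw [h1, map_smul]
      rfl
    rw [RingHom.id_apply, smul_eq_mul, Finset.sum_congr rfl (fun y _ => h2 y), ← Finset.mul_sum]
    ring

theorem avg_close {Z : Type} [Fintype Z] [Nonempty Z] (a b : Z → ℂ) (δ : ℝ)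
    (h : ∀ y, ‖a y - b y‖ ≤ δ) :
    ‖(1 / (Fintype.card Z : ℂ)) * ∑ y, a y - (1 / (Fintype.card Z : ℂ)) * ∑ y, b y‖ ≤ δ := by
  have hN : (0 : ℝ) < Fintype.card Z := Nat.cast_pos.2 Fintype.card_pos
  rw [← mul_sub, ← Finset.sum_sub_distrib, norm_mul]
  have h1 : ‖∑ y, (a y - b y)‖ ≤ Fintype.card Z * δ := by
    refine (norm_sum_le _ _).trans ?_
    refine (Finset.sum_le_sum (fun y _ => h y)).trans ?_
    rw [Finset.sum_const, Finset.card_univ, nsmul_eq_mul]
  have h2 : ‖(1 / (Fintype.card Z : ℂ))‖ = 1 / (Fintype.card Z : ℝ) := by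
    rw [norm_div, norm_one, Complex.norm_natCast]
  rw [h2]
  calc 1 / (Fintype.card Z : ℝ) * ‖∑ y, (a y - b y)‖
      ≤ 1 / (Fintype.card Z : ℝ) * (Fintype.card Z * δ) := by gcongr
    _ = δ := by field_simp

section nuB_facts

variable (p : ℕ → ℕ) [∀ i, NeZero (p i)] (j : ℕ)
    (T : (∀ i, Matrix (Fin 2 × Y p i) (Fin 2 × Y p i) ℂ) →ₗ[ℂ]
      Matrix (Fin 2 × Y p j) (Fin 2 × Y p j) ℂ)
    (hT : ∀ (x : ∀ i, Matrix (Fin 2 × Y p i) (Fin 2 × Y p i) ℂ) (c : ℝ),
      (∀ᶠ i in Filter.atTop, ‖x i‖ ≤ c) → ‖T x‖ ≤ (1 + 1 / 10 ^ 10) * c)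
    (hu : ∀ k, ‖T (uMat p k) - uMat p k j‖ ≤ 1 / 10 ^ 10)

include hT in
theorem nuB_bound (F : (i : ℕ) → ZMod (p i) × ZMod (p i) → ZMod (p j) × ZMod (p j) → ℂ)
    (hF : ∀ i x y, ‖F i x y‖ ≤ 1) : ‖nuB p j T F‖ ≤ 1 + 1 / 100 := by
  have h1 := avg_close (Z := Y p j)
    (fun y => T (fun i => e11 (fun x => F i x y)) (0, y) (0, y)) (fun _ => 0)
    (1 + 1 / 100) (by
      intro y
      rw [sub_zero]
      refine (entry_le _ _ _).trans ?_
      refine (hT _ 1 (Filter.Eventually.of_forall fun i =>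
        e11_norm _ 1 zero_le_one (fun x => hF i x y))).trans ?_
      norm_num)
  rw [Finset.sum_const_zero, mul_zero, sub_zero] at h1
  exact h1

include hu in
theorem nuB_diag (k : Fin 9) (d : (i : ℕ) → Y p i → ℂ) (c : Y p j → ℂ)
    (hk : ∀ i, sMat p i k = Matrix.diagonal (d i)) (hc : ∀ y, ‖c y‖ ≤ 1)
    (hcd : ∀ y, c y * d j y = 1) :
    ‖nuB p j T (fun i x y => c y * d i x) - 1‖ ≤ 1 / 100 := by
  have hcard : (Fintype.card (Y p j) : ℂ) ≠ 0 := Nat.cast_ne_zero.2 Fintype.card_ne_zero
  have h1 := avg_close (Z := Y p j)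
    (fun y => T (fun i => e11 (fun x => c y * d i x)) (0, y) (0, y)) (fun _ => 1)
    (1 / 100) (by
      intro y
      have h2 : (fun i => e11 (fun x : Y p i => c y * d i x)) = c y • uMat p (0, 0, k) := by
        funext i
        ext a b
        simp only [Pi.smul_apply, Matrix.smul_apply, e11, uMat, Matrix.of_apply, hk i,
          smul_eq_mul, Matrix.diagonal_apply]
        by_cases hab : a = b
        · subst hab
          by_cases ha : a.1 = 0
          · simp [ha]
          · simp [ha]
        · rw [if_neg hab]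
          by_cases ha : a.1 = 0 ∧ b.1 = 0
          · rw [if_pos ha, if_neg, mul_zero]
            intro h3
            exact hab (Prod.ext (ha.1.trans ha.2.symm) h3)
          · rw [if_neg ha, mul_zero]
      change ‖T (fun i => e11 (fun x : Y p i => c y * d i x)) (0, y) (0, y) - 1‖ ≤ 1 / 100
      rw [h2, map_smul, Matrix.smul_apply, smul_eq_mul, ← hcd y]
      have h3 : uMat p (0, 0, k) j (0, y) (0, y) = d j y := by
        simp [uMat, hk j]
      rw [← mul_sub, norm_mul, ← h3, ← Matrix.sub_apply]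
      calc ‖c y‖ * ‖(T (uMat p (0, 0, k)) - uMat p (0, 0, k) j) (0, y) (0, y)‖
          ≤ 1 * (1 / 10 ^ 10) := by
            apply mul_le_mul (hc y) ((entry_le _ _ _).trans (hu _)) (norm_nonneg _) zero_le_one
        _ ≤ 1 / 100 := by norm_num)
  rw [Finset.sum_const, Finset.card_univ, nsmul_eq_mul, mul_one, one_div_mul_cancel hcard] at h1
  exact h1

include hT in
theorem nuB_supp (F : (i : ℕ) → ZMod (p i) × ZMod (p i) → ZMod (p j) × ZMod (p j) → ℂ)
    (hF : ∀ i, i ≠ j → F i = 0) : nuB p j T F = 0 := by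
  change (1 / (Fintype.card (Y p j) : ℂ)) *
    ∑ y : Y p j, T (fun i => e11 (fun x => F i x y)) (0, y) (0, y) = 0
  rw [Finset.sum_eq_zero, mul_zero]
  intro y _
  have h1 := hT (fun i => e11 (fun x => F i x y)) 0 (by
    filter_upwards [Filter.eventually_gt_atTop j] with i hi
    apply e11_norm _ 0 le_rfl
    intro x
    rw [hF i hi.ne']
    simp)
  rw [mul_zero] at h1
  have h2 : T (fun i => e11 (fun x => F i x y)) = 0 := norm_le_zero_iff.1 h1
  rw [h2]
  rfl

include hT hu in
theorem nuB_equiv (g : ∀ i, Equiv.Perm (Y p i)) (k k' : Fin 9)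
    (hk : ∀ i x y, sMat p i k x y = if x = g i y then 1 else 0)
    (hk' : ∀ i x y, sMat p i k' x y = if y = g i x then 1 else 0)
    (F : (i : ℕ) → ZMod (p i) × ZMod (p i) → ZMod (p j) × ZMod (p j) → ℂ)
    (hF : ∀ i x y, ‖F i x y‖ ≤ 1) :
    ‖nuB p j T (fun i x y => F i (g i x) (g j y)) - nuB p j T F‖ ≤ 1 / 100 := by
  have hsymW : ∀ (h : ∀ i, Equiv.Perm (Y p i)) (l l' : Fin 9),
      (∀ i x y, sMat p i l x y = if x = h i y then 1 else 0) →
      (∀ i x y, sMat p i l' x y = if y = h i x then 1 else 0) →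
      (fun i => symW (h i)) = uMat p (0, 1, l) + uMat p (1, 0, l') := by
    intro h l l' hl hl'
    funext i
    ext a b
    simp only [symW, Matrix.of_apply, Pi.add_apply, Matrix.add_apply, uMat, hl, hl']
    rcases a with ⟨a1, a2⟩
    rcases b with ⟨b1, b2⟩
    fin_cases a1 <;> fin_cases b1 <;> simp
  have hid : ∀ i, sMat p i 0 = 1 := fun i => rfl
  have hone : (fun i => (1 : Matrix (Fin 2 × Y p i) (Fin 2 × Y p i) ℂ)) =
      uMat p (0, 0, 0) + uMat p (1, 1, 0) := by
    funext i
    ext a b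
    simp only [Pi.add_apply, Matrix.add_apply, uMat, hid, Matrix.of_apply, Matrix.one_apply]
    rcases a with ⟨a1, a2⟩
    rcases b with ⟨b1, b2⟩
    fin_cases a1 <;> fin_cases b1 <;> simp
  have hclose : ∀ l l' : Fin 2 × Fin 2 × Fin 9,
      ‖T (uMat p l + uMat p l') - (uMat p l j + uMat p l' j)‖ ≤ 2 / 10 ^ 10 := by
    intro l l'
    have h1 : T (uMat p l + uMat p l') - (uMat p l j + uMat p l' j) =
        (T (uMat p l) - uMat p l j) + (T (uMat p l') - uMat p l' j) := by
      rw [map_add]; abel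
    rw [h1]
    refine (norm_add_le _ _).trans ?_
    have := hu l
    have := hu l'
    linarith
  have hW := hsymW g k k' hk hk'
  have hW1 := hsymW (fun i => 1) 0 0 (by
    intro i x y
    rw [hid, Matrix.one_apply]
    rfl) (by
    intro i x y
    rw [hid, Matrix.one_apply]
    simp only [Equiv.Perm.coe_one, id, eq_comm])
  have hsq : 200 * Real.sqrt (2 / 10 ^ 10) ≤ 1 / 100 := by
    have h1 : Real.sqrt (2 / 10 ^ 10) ≤ 1 / 20000 := by
      rw [Real.sqrt_le_left (by norm_num)]
      norm_num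
    linarith
  have hcl := avg_close (Z := Y p j)
    (fun y => T (fun i => e11 (fun x => F i (g i x) (g j y))) (0, y) (0, y))
    (fun y => T (fun i => e11 (fun x => F i x (g j y))) (0, g j y) (0, g j y)) (1 / 100) (by
      intro y
      refine le_trans ?_ hsq
      refine equivariance (Z := fun i => Y p i) j g T (2 / 10 ^ 10) (by norm_num) (by norm_num)
        ?_ ?_ ?_ ?_ (fun i x => F i x (g j y)) (fun i x => hF i x _) y
      · intro x c hx
        have hc : 0 ≤ c := (norm_nonneg _).trans (hx 0)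
        refine (hT x c (Filter.Eventually.of_forall hx)).trans ?_
        apply mul_le_mul_of_nonneg_right _ hc
        norm_num
      · rw [hone]
        have h1 : (1 : Matrix (Fin 2 × Y p j) (Fin 2 × Y p j) ℂ) =
          uMat p (0, 0, 0) j + uMat p (1, 1, 0) j := congrFun hone j
        rw [h1]
        exact hclose _ _
      · rw [hW]
        have h1 : symW (g j) = uMat p (0, 1, k) j + uMat p (1, 0, k') j := congrFun hW j
        rw [h1]
        exact hclose _ _
      · have h2 : (fun i => symW (1 : Equiv.Perm (Y p i))) =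
          uMat p (0, 1, 0) + uMat p (1, 0, 0) := hW1
        rw [h2]
        have h1 : symW (1 : Equiv.Perm (Y p j)) = uMat p (0, 1, 0) j + uMat p (1, 0, 0) j :=
          congrFun hW1 j
        rw [h1]
        exact hclose _ _)
  have hre : ∑ y, T (fun i => e11 (fun x => F i x (g j y))) (0, g j y) (0, g j y) =
      ∑ y, T (fun i => e11 (fun x => F i x y)) (0, y) (0, y) :=
    Equiv.sum_comp (g j) (fun y => T (fun i => e11 (fun x => F i x y)) (0, y) (0, y))
  rw [hre] at hcl
  exact hcl

include hT in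
theorem nuB_zero (hp : 3 ≤ p j) :
    ‖nuB p j T (fun _ _ y => if y = 0 then 1 else 0)‖ ≤ 1 / 4 := by
  change ‖(1 / (Fintype.card (Y p j) : ℂ)) *
    ∑ y : Y p j, T (fun i => e11 (fun x => if y = 0 then 1 else 0)) (0, y) (0, y)‖ ≤ 1 / 4
  rw [Finset.sum_eq_single 0]
  · simp only [if_true]
    rw [norm_mul, norm_div, norm_one, Complex.norm_natCast]
    have hc : (9 : ℝ) ≤ Fintype.card (Y p j) := by
      rw [Fintype.card_prod, ZMod.card]
      have : 9 ≤ p j * p j := by nlinarith
      exact_mod_cast this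
    have h1 : ‖T (fun i => e11 (fun _ : Y p i => 1)) (0, 0) (0, 0)‖ ≤ (1 + 1 / 10 ^ 10) * 1 := by
      refine (entry_le _ _ _).trans ?_
      apply hT
      exact Filter.Eventually.of_forall fun i => e11_norm _ 1 zero_le_one (fun x => by simp)
    have h2 : 1 / (Fintype.card (Y p j) : ℝ) ≤ 1 / 9 :=
      one_div_le_one_div_of_le (by norm_num) hc
    calc 1 / (Fintype.card (Y p j) : ℝ) * ‖T (fun i => e11 (fun _ : Y p i => 1)) (0, 0) (0, 0)‖
        ≤ 1 / 9 * ((1 + 1 / 10 ^ 10) * 1) := by
          apply mul_le_mul h2 h1 (norm_nonneg _) (by norm_num)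
      _ ≤ 1 / 4 := by norm_num
  · intro y _ hy
    simp only [hy, if_false]
    have h1 : (fun i => e11 (fun _ : Y p i => (0 : ℂ))) = 0 := by
      funext i
      ext a b
      simp [e11]
    rw [h1, map_zero]
    rfl
  · intro h; exact absurd (Finset.mem_univ _) h

end nuB_facts

theorem base (p : ℕ → ℕ) [∀ i, NeZero (p i)] (hp : ∀ i, 3 ≤ p i)
    (hcop : ∀ i i', i ≠ i' → Nat.Coprime (p i) (p i')) (j : ℕ)
    (T : (∀ i, Matrix (Fin 2 × Y p i) (Fin 2 × Y p i) ℂ) →ₗ[ℂ]
      Matrix (Fin 2 × Y p j) (Fin 2 × Y p j) ℂ)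
    (hT : ∀ (x : ∀ i, Matrix (Fin 2 × Y p i) (Fin 2 × Y p i) ℂ) (c : ℝ),
      (∀ᶠ i in Filter.atTop, ‖x i‖ ≤ c) → ‖T x‖ ≤ (1 + 1 / 10 ^ 10) * c)
    (hu : ∀ k, ‖T (uMat p k) - uMat p k j‖ ≤ 1 / 10 ^ 10) : False := by
  have hne : ∀ t : ℝ, ‖Complex.exp (2 * Real.pi * Complex.I * (t : ℂ))‖ ≤ 1 := by
    intro t
    have : (2 * Real.pi * Complex.I * (t : ℂ)) = ((2 * Real.pi * t : ℝ) : ℂ) * Complex.I := by
      push_cast; ring
    rw [this, Complex.norm_exp_ofReal_mul_I]
  refine measureContra p hp hcop j (nuB p j T) (1 / 100) (by norm_num) le_rfl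
    (nuB_bound p j T hT) ?_ (nuB_supp p j T hT) ?_ ?_ ?_ ?_ ?_ ?_ ?_ ?_ (nuB_zero p j T hT (hp j))
  · have h := nuB_diag p j T hu 0 (fun i _ => 1) (fun _ => 1) (fun i => by
      change (1 : Matrix (Y p i) (Y p i) ℂ) = _
      exact Matrix.diagonal_one.symm) (by simp) (by simp)
    simpa using h
  · have h := nuB_diag p j T hu 1
      (fun i x => Complex.exp (2 * Real.pi * Complex.I * ((x.1.val : ℂ) / (p i : ℂ))))
      (fun y => Complex.exp (-(2 * Real.pi * Complex.I * ((y.1.val : ℂ) / (p j : ℂ)))))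
      (fun i => rfl) (by
        intro y
        have := hne (-((y.1.val : ℝ) / (p j : ℝ)))
        push_cast at this
        rwa [mul_neg] at this) (by
        intro y
        rw [← Complex.exp_add]
        simp)
    convert h using 4
    funext i x y
    rw [← Complex.exp_add]
    congr 1
    ring
  · have h := nuB_diag p j T hu 2
      (fun i x => Complex.exp (-(2 * Real.pi * Complex.I * ((x.1.val : ℂ) / (p i : ℂ)))))
      (fun y => Complex.exp (2 * Real.pi * Complex.I * ((y.1.val : ℂ) / (p j : ℂ))))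
      (fun i => rfl) (by
        intro y
        have := hne ((y.1.val : ℝ) / (p j : ℝ))
        push_cast at this
        exact this) (by
        intro y
        rw [← Complex.exp_add]
        simp)
    convert h using 4
    funext i x y
    rw [← Complex.exp_add]
    congr 1
    ring
  · have h := nuB_diag p j T hu 3
      (fun i x => Complex.exp (2 * Real.pi * Complex.I * ((x.2.val : ℂ) / (p i : ℂ))))
      (fun y => Complex.exp (-(2 * Real.pi * Complex.I * ((y.2.val : ℂ) / (p j : ℂ)))))
      (fun i => rfl) (by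
        intro y
        have := hne (-((y.2.val : ℝ) / (p j : ℝ)))
        push_cast at this
        rwa [mul_neg] at this) (by
        intro y
        rw [← Complex.exp_add]
        simp)
    convert h using 4
    funext i x y
    rw [← Complex.exp_add]
    congr 1
    ring
  · have h := nuB_diag p j T hu 4
      (fun i x => Complex.exp (-(2 * Real.pi * Complex.I * ((x.2.val : ℂ) / (p i : ℂ)))))
      (fun y => Complex.exp (2 * Real.pi * Complex.I * ((y.2.val : ℂ) / (p j : ℂ))))
      (fun i => rfl) (by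
        intro y
        have := hne ((y.2.val : ℝ) / (p j : ℝ))
        push_cast at this
        exact this) (by
        intro y
        rw [← Complex.exp_add]
        simp)
    convert h using 4
    funext i x y
    rw [← Complex.exp_add]
    congr 1
    ring
  · intro F hF
    exact nuB_equiv p j T hT hu (fun i => ⟨fun x => (x.1 + x.2, x.2), fun x => (x.1 - x.2, x.2),
      fun x => by simp, fun x => by simp⟩) 5 6 (fun i x y => rfl) (fun i x y => by
        change (if x = (y.1 - y.2, y.2) then (1 : ℂ) else 0) = if y = (x.1 + x.2, x.2) then 1 else 0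
        congr 1
        apply propext
        constructor
        · rintro rfl; simp
        · rintro rfl; simp) F hF
  · intro F hF
    exact nuB_equiv p j T hT hu (fun i => ⟨fun x => (x.1 - x.2, x.2), fun x => (x.1 + x.2, x.2),
      fun x => by simp, fun x => by simp⟩) 6 5 (fun i x y => rfl) (fun i x y => by
        change (if x = (y.1 + y.2, y.2) then (1 : ℂ) else 0) = if y = (x.1 - x.2, x.2) then 1 else 0
        congr 1
        apply propext
        constructor
        · rintro rfl; simp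
        · rintro rfl; simp) F hF
  · intro F hF
    exact nuB_equiv p j T hT hu (fun i => ⟨fun x => (x.1, x.2 + x.1), fun x => (x.1, x.2 - x.1),
      fun x => by simp, fun x => by simp⟩) 7 8 (fun i x y => rfl) (fun i x y => by
        change (if x = (y.1, y.2 - y.1) then (1 : ℂ) else 0) = if y = (x.1, x.2 + x.1) then 1 else 0
        congr 1
        apply propext
        constructor
        · rintro rfl; simp
        · rintro rfl; simp) F hF
  · intro F hF
    exact nuB_equiv p j T hT hu (fun i => ⟨fun x => (x.1, x.2 - x.1), fun x => (x.1, x.2 + x.1),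
      fun x => by simp, fun x => by simp⟩) 8 7 (fun i x y => rfl) (fun i x y => by
        change (if x = (y.1, y.2 + y.1) then (1 : ℂ) else 0) = if y = (x.1, x.2 - x.1) then 1 else 0
        congr 1
        apply propext
        constructor
        · rintro rfl; simp
        · rintro rfl; simp) F hF

end Pool.Agent.Helper234.Calkin
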