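import Mathlib

set_option autoImplicit false
open scoped Matrix.Norms.L2Operator Kronecker

namespace Pool.Agent.Helper234.Calkin


theorem cpt {ι : ℕ → Type} [∀ i, Fintype (ι i)] [∀ i, DecidableEq (ι i)] {Λ : Type} [Fintype Λ]
    (u : Λ → ∀ i, Matrix (ι i) (ι i) ℂ) (hu : ∀ k i, ‖u k i‖ ≤ 1) (j : ℕ)
    (z : (Λ → Matrix (ι j) (ι j) ℂ) →ₗ[ℂ] ℂ)
    (h : ∀ T : (∀ i, Matrix (ι i) (ι i) ℂ) →ₗ[ℂ] Matrix (ι j) (ι j) ℂ,
      (∀ (x : ∀ i, Matrix (ι i) (ι i) ℂ) (c : ℝ), (∀ᶠ i in Filter.atTop, ‖x i‖ ≤ c) → ‖T x‖ ≤ c) →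
        ‖z (fun k => T (u k))‖ ≤ 1) :
    ∃ E : Finset (∀ i, Matrix (ι i) (ι i) ℂ), (∀ x ∈ E, ∃ c, ∀ i, ‖x i‖ ≤ c) ∧
      ∀ T : (∀ i, Matrix (ι i) (ι i) ℂ) →ₗ[ℂ] Matrix (ι j) (ι j) ℂ,
        (∀ x ∈ Submodule.span ℂ (E : Set (∀ i, Matrix (ι i) (ι i) ℂ)), ∀ c : ℝ,
          (∀ᶠ i in Filter.atTop, ‖x i‖ ≤ c) → ‖T x‖ ≤ c) →
        ‖z (fun k => T (u k))‖ ≤ 2 := by
  classical
  by_contra hcon
  push Not at hcon
  -- the submodule of bounded sequences
  let B : Submodule ℂ (∀ i, Matrix (ι i) (ι i) ℂ) :=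
    { carrier := {x | ∃ c : ℝ, ∀ i, ‖x i‖ ≤ c}
      add_mem' := by
        rintro x y ⟨a, ha⟩ ⟨b, hb⟩
        exact ⟨a + b, fun i => (norm_add_le _ _).trans (add_le_add (ha i) (hb i))⟩
      zero_mem' := ⟨0, fun i => by simp⟩
      smul_mem' := by
        rintro a x ⟨b, hb⟩
        refine ⟨‖a‖ * b, fun i => ?_⟩
        have : (a • x) i = a • x i := rfl
        rw [this, norm_smul]
        exact mul_le_mul_of_nonneg_left (hb i) (norm_nonneg _) }
  have huB : ∀ k, u k ∈ B := fun k => ⟨1, hu k⟩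
  let Ef : Finset B → Finset (∀ i, Matrix (ι i) (ι i) ℂ) := fun s => s.image (fun b => b.1)
  have hEf : ∀ s : Finset B, ∀ x ∈ Ef s, ∃ c : ℝ, ∀ i, ‖x i‖ ≤ c := by
    intro s x hx
    obtain ⟨b, _, rfl⟩ := Finset.mem_image.1 hx
    exact b.2
  choose T hT1 hT2 using fun s : Finset B => hcon (Ef s) (hEf s)
  let U : Ultrafilter (Finset B) := Ultrafilter.of Filter.atTop
  have hU : (U : Filter (Finset B)) ≤ Filter.atTop := Ultrafilter.of_le _
  have hmem : ∀ x : B, ∀ᶠ s in (U : Filter (Finset B)), x.1 ∈ Submodule.span ℂ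
      ((Ef s : Finset (∀ i, Matrix (ι i) (ι i) ℂ)) : Set (∀ i, Matrix (ι i) (ι i) ℂ)) := by
    intro x
    refine (Filter.Eventually.filter_mono hU (Filter.eventually_ge_atTop ({x} : Finset B))).mono ?_
    intro s hs
    apply Submodule.subset_span
    have : x ∈ s := hs (Finset.mem_singleton_self x)
    exact Finset.mem_coe.2 (Finset.mem_image.2 ⟨x, this, rfl⟩)
  haveI : ProperSpace (Matrix (ι j) (ι j) ℂ) := FiniteDimensional.proper ℂ _
  have hlim : ∀ x : B, ∃ y : Matrix (ι j) (ι j) ℂ,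
      Filter.Tendsto (fun s => T s x.1) (U : Filter (Finset B)) (nhds y) := by
    intro x
    obtain ⟨c, hc⟩ := x.2
    have hle : ((U.map (fun s => T s x.1) : Ultrafilter _) : Filter _) ≤
        Filter.principal (Metric.closedBall (0 : Matrix (ι j) (ι j) ℂ) c) := by
      rw [Filter.le_principal_iff]
      show ∀ᶠ s in (U : Filter (Finset B)), T s x.1 ∈ Metric.closedBall (0 : Matrix (ι j) (ι j) ℂ) c
      refine (hmem x).mono ?_
      intro s hs
      rw [mem_closedBall_zero_iff]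
      exact hT1 s x.1 hs c (Filter.Eventually.of_forall hc)
    obtain ⟨y, _, hy⟩ := (isCompact_closedBall (0 : Matrix (ι j) (ι j) ℂ) c).ultrafilter_le_nhds _ hle
    exact ⟨y, hy⟩
  choose L hL using hlim
  let Ll : B →ₗ[ℂ] Matrix (ι j) (ι j) ℂ :=
    { toFun := L
      map_add' := by
        intro x y
        refine tendsto_nhds_unique (hL (x + y)) ?_
        have := (hL x).add (hL y)
        refine this.congr (fun s => ?_)
        show T s x.1 + T s y.1 = T s (x + y).1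
        rw [← map_add]; rfl
      map_smul' := by
        intro a x
        refine tendsto_nhds_unique (hL (a • x)) ?_
        have := (hL x).const_smul a
        refine this.congr (fun s => ?_)
        show a • T s x.1 = T s (a • x).1
        rw [← map_smul]; rfl }
  obtain ⟨g, hg⟩ := LinearMap.exists_extend Ll
  have hgx : ∀ x : B, g x.1 = L x := fun x => by
    have := LinearMap.congr_fun hg x
    exact this
  have hfin : ∀ (x : ∀ i, Matrix (ι i) (ι i) ℂ) (c : ℝ), (∀ᶠ i in Filter.atTop, ‖x i‖ ≤ c) → ‖g x‖ ≤ c := by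
    intro x c hc
    have hxB : x ∈ B := by
      obtain ⟨N, hN⟩ := Filter.eventually_atTop.1 hc
      refine ⟨|c| + ∑ i ∈ Finset.range N, ‖x i‖, fun i => ?_⟩
      by_cases hi : i < N
      · have h1 : ‖x i‖ ≤ ∑ i ∈ Finset.range N, ‖x i‖ :=
          Finset.single_le_sum (f := fun i => ‖x i‖) (fun i _ => norm_nonneg _) (Finset.mem_range.2 hi)
        linarith [abs_nonneg c]
      · have h1 := hN i (not_lt.1 hi)
        have h2 : 0 ≤ ∑ i ∈ Finset.range N, ‖x i‖ := Finset.sum_nonneg (fun i _ => norm_nonneg _)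
        linarith [le_abs_self c]
    rw [hgx ⟨x, hxB⟩]
    refine le_of_tendsto (hL ⟨x, hxB⟩).norm ((hmem ⟨x, hxB⟩).mono fun s hs => ?_)
    exact hT1 s x hs c hc
  have h1 := h g hfin
  have hz : Continuous z := LinearMap.continuous_of_finiteDimensional z
  have ht : Filter.Tendsto (fun s => (fun k => T s (u k))) (U : Filter (Finset B))
      (nhds (fun k => g (u k))) := by
    rw [tendsto_pi_nhds]
    intro k
    rw [hgx ⟨u k, huB k⟩]
    exact hL ⟨u k, huB k⟩
  have ht2 := ((hz.tendsto _).comp ht).norm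
  have h2 : (2 : ℝ) ≤ ‖z (fun k => g (u k))‖ := by
    refine ge_of_tendsto ht2 (Filter.Eventually.of_forall fun s => ?_)
    exact (hT2 s).le
  linarith

end Pool.Agent.Helper234.Calkin
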