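import Mathlib

set_option autoImplicit false
open scoped Matrix.Norms.L2Operator Kronecker

namespace Pool.Agent.Helper234.Calkin


section embdiag

variable {G : ℕ → Type} [∀ i, NormedAddCommGroup (G i)] [∀ i, InnerProductSpace ℂ (G i)]

theorem emb_dg (T : ∀ i, G i →L[ℂ] G i) (C : ℝ) (hC : 0 ≤ C) (hT : ∀ i, ‖T i‖ ≤ C) :
    ∃ D : lp G 2 →L[ℂ] lp G 2,
      (∀ (f : lp G 2) (i : ℕ), (D f : ∀ i, G i) i = T i ((f : ∀ i, G i) i)) ∧ ‖D‖ ≤ C := by
  have hp : 0 < (2 : ENNReal).toReal := by simp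
  have hbd : ∀ (f : lp G 2) (s : Finset ℕ),
      ∑ i ∈ s, ‖T i ((f : ∀ i, G i) i)‖ ^ (2 : ENNReal).toReal ≤ (C * ‖f‖) ^ (2 : ENNReal).toReal := by
    intro f s
    calc ∑ i ∈ s, ‖T i ((f : ∀ i, G i) i)‖ ^ (2 : ENNReal).toReal
        ≤ ∑ i ∈ s, C ^ (2 : ENNReal).toReal * ‖(f : ∀ i, G i) i‖ ^ (2 : ENNReal).toReal := by
          apply Finset.sum_le_sum
          intro i _
          rw [← Real.mul_rpow hC (norm_nonneg _)]
          apply Real.rpow_le_rpow (norm_nonneg _) _ hp.le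
          exact ((T i).le_opNorm _).trans (mul_le_mul_of_nonneg_right (hT i) (norm_nonneg _))
      _ = C ^ (2 : ENNReal).toReal * ∑ i ∈ s, ‖(f : ∀ i, G i) i‖ ^ (2 : ENNReal).toReal := by
          rw [Finset.mul_sum]
      _ ≤ C ^ (2 : ENNReal).toReal * ‖f‖ ^ (2 : ENNReal).toReal :=
          mul_le_mul_of_nonneg_left (lp.sum_rpow_le_norm_rpow hp f s) (Real.rpow_nonneg hC _)
      _ = _ := by rw [Real.mul_rpow hC (norm_nonneg _)]
  have hmem : ∀ f : lp G 2, Memℓp (fun i => T i ((f : ∀ i, G i) i)) 2 := fun f => memℓp_gen' (hbd f)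
  obtain ⟨D0, hD0⟩ : ∃ D0 : lp G 2 → lp G 2,
      ∀ (f : lp G 2) (i : ℕ), (D0 f : ∀ i, G i) i = T i ((f : ∀ i, G i) i) :=
    ⟨fun f => ⟨fun i => T i ((f : ∀ i, G i) i), hmem f⟩, fun f i => rfl⟩
  have hadd : ∀ f g, D0 (f + g) = D0 f + D0 g := by
    intro f g
    apply lp.ext
    funext i
    rw [hD0, lp.coeFn_add, lp.coeFn_add, Pi.add_apply, Pi.add_apply, map_add, hD0, hD0]
  have hsmul : ∀ (c : ℂ) f, D0 (c • f) = c • D0 f := by
    intro c f
    apply lp.ext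
    funext i
    rw [hD0, lp.coeFn_smul, lp.coeFn_smul, Pi.smul_apply, Pi.smul_apply, map_smul, hD0]
  have hnorm : ∀ f, ‖D0 f‖ ≤ C * ‖f‖ := by
    intro f
    apply lp.norm_le_of_forall_sum_le hp (by positivity)
    intro s
    have h1 : ∀ i ∈ s, ‖(D0 f : ∀ i, G i) i‖ ^ (2 : ENNReal).toReal =
        ‖T i ((f : ∀ i, G i) i)‖ ^ (2 : ENNReal).toReal := by
      intro i _
      rw [hD0]
    rw [Finset.sum_congr rfl h1]
    exact hbd f s
  refine ⟨LinearMap.mkContinuous ⟨⟨D0, hadd⟩, hsmul⟩ C hnorm, ?_, ?_⟩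
  · intro f i
    exact hD0 f i
  · exact LinearMap.mkContinuous_norm_le _ hC _

theorem emb_dg_unique {D D' : lp G 2 →L[ℂ] lp G 2}
    (h : ∀ (f : lp G 2) (i : ℕ), (D f : ∀ i, G i) i = (D' f : ∀ i, G i) i) : D = D' := by
  ext1 f
  apply lp.ext
  funext i
  exact h f i

end embdiag

/-- Block diagonal embedding of sequences of matrices into operators on `ℓ²(ℕ)`. -/
theorem emb {ι : ℕ → Type} [∀ i, Fintype (ι i)] [∀ i, DecidableEq (ι i)] :
    ∃ (Δ : (∀ i, Matrix (ι i) (ι i) ℂ) →ₗ[ℂ]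
        (lp (fun _ : ℕ => ℂ) 2 →L[ℂ] lp (fun _ : ℕ => ℂ) 2))
      (c : ∀ j, (lp (fun _ : ℕ => ℂ) 2 →L[ℂ] lp (fun _ : ℕ => ℂ) 2) →ₗ[ℂ] Matrix (ι j) (ι j) ℂ),
      (∀ (x : ∀ i, Matrix (ι i) (ι i) ℂ) (C : ℝ), 0 ≤ C → (∀ i, ‖x i‖ ≤ C) → ‖Δ x‖ ≤ C) ∧
      (∀ x : ∀ i, Matrix (ι i) (ι i) ℂ, (∀ᶠ i in Filter.atTop, x i = 0) →
        IsCompactOperator (⇑(Δ x))) ∧
      (∀ (x : ∀ i, Matrix (ι i) (ι i) ℂ) (C : ℝ), (∀ i, ‖x i‖ ≤ C) → ∀ j, c j (Δ x) = x j) ∧
      (∀ j a, ‖c j a‖ ≤ ‖a‖) ∧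
      (∀ k : lp (fun _ : ℕ => ℂ) 2 →L[ℂ] lp (fun _ : ℕ => ℂ) 2, IsCompactOperator (⇑k) →
        Filter.Tendsto (fun j => ‖c j k‖) Filter.atTop (nhds 0)) := by
  classical
  obtain ⟨e, he⟩ := Countable.exists_injective_nat (Σ i, ι i)
  -- orthonormal family
  obtain ⟨b, hb⟩ : ∃ b : ℕ → lp (fun _ : ℕ => ℂ) 2, Orthonormal ℂ b :=
    ⟨_, (HilbertBasis.ofRepr (LinearIsometryEquiv.refl ℂ (lp (fun _ : ℕ => ℂ) 2))).orthonormal⟩
  -- isometries of the blocks
  have hV0 : ∀ i, ∃ V : EuclideanSpace ℂ (ι i) →ₗᵢ[ℂ] lp (fun _ : ℕ => ℂ) 2,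
      ∀ v, ∃ u : ι i → ℂ, V v = ∑ a, u a • b (e ⟨i, a⟩) := by
    intro i
    obtain ⟨v, hv⟩ : ∃ v : Module.Basis (ι i) ℂ (EuclideanSpace ℂ (ι i)), Orthonormal ℂ v :=
      ⟨(EuclideanSpace.basisFun (ι i) ℂ).toBasis, by
        rw [OrthonormalBasis.coe_toBasis]
        exact (EuclideanSpace.basisFun (ι i) ℂ).orthonormal⟩
    have hf : Orthonormal ℂ ((v.constr ℂ (fun a => b (e ⟨i, a⟩))) ∘ v) := by
      have e1 : (v.constr ℂ (fun a => b (e ⟨i, a⟩))) ∘ v = fun a => b (e ⟨i, a⟩) := by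
        funext a
        exact v.constr_basis ℂ _ a
      rw [e1]
      exact hb.comp (fun a => e ⟨i, a⟩) (fun a a' h => by
        have h2 := he h
        exact eq_of_heq (Sigma.mk.inj h2).2)
    refine ⟨(v.constr ℂ (fun a => b (e ⟨i, a⟩))).isometryOfOrthonormal hv hf, ?_⟩
    intro x
    refine ⟨v.equivFun x, ?_⟩
    rw [LinearMap.coe_isometryOfOrthonormal]
    exact v.constr_apply_fintype ℂ _ x
  choose V hV using hV0
  have hort : OrthogonalFamily ℂ (fun i => EuclideanSpace ℂ (ι i)) V := by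
    intro i j hij v w
    obtain ⟨u, hu⟩ := hV i v
    obtain ⟨u', hu'⟩ := hV j w
    rw [hu, hu', sum_inner]
    apply Finset.sum_eq_zero
    intro a _
    rw [inner_sum]
    apply Finset.sum_eq_zero
    intro a' _
    have hne : e ⟨i, a⟩ ≠ e ⟨j, a'⟩ := fun h => hij (congrArg Sigma.fst (he h))
    rw [inner_smul_left, inner_smul_right, hb.2 hne, mul_zero, mul_zero]
  obtain ⟨W, hW⟩ : ∃ W : lp (fun i => EuclideanSpace ℂ (ι i)) 2 →L[ℂ] lp (fun _ : ℕ => ℂ) 2,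
      W = hort.linearIsometry.toContinuousLinearMap := ⟨_, rfl⟩
  have hWn : ∀ g, ‖W g‖ = ‖g‖ := by
    intro g
    rw [hW]
    exact hort.linearIsometry.norm_map g
  have hWs : ∀ j v, W (lp.single 2 j v) = V j v := by
    intro j v
    rw [hW]
    exact hort.linearIsometry_apply_single v
  obtain ⟨Wa, hWa⟩ : ∃ Wa : lp (fun _ : ℕ => ℂ) 2 →L[ℂ] lp (fun i => EuclideanSpace ℂ (ι i)) 2,
      Wa = ContinuousLinearMap.adjoint W := ⟨_, rfl⟩
  have hWaW : ∀ g, Wa (W g) = g := by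
    intro g
    have h1 := (ContinuousLinearMap.norm_map_iff_adjoint_comp_self W).1 hWn
    rw [hWa]
    have h2 := congrArg (fun T => T g) h1
    exact h2
  obtain ⟨Vc, hVc⟩ : ∃ Vc : ∀ j, EuclideanSpace ℂ (ι j) →L[ℂ] lp (fun _ : ℕ => ℂ) 2,
      Vc = fun j => (V j).toContinuousLinearMap := ⟨_, rfl⟩
  have hVcn : ∀ j v, ‖Vc j v‖ = ‖v‖ := by
    intro j v
    rw [hVc]
    exact (V j).norm_map v
  have hVcs : ∀ j v, Vc j v = V j v := by
    intro j v
    rw [hVc]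
    rfl
  obtain ⟨Va, hVa⟩ : ∃ Va : ∀ j, lp (fun _ : ℕ => ℂ) 2 →L[ℂ] EuclideanSpace ℂ (ι j),
      Va = fun j => ContinuousLinearMap.adjoint (Vc j) := ⟨_, rfl⟩
  have hVaW : ∀ j y, Va j y = (Wa y : ∀ i, EuclideanSpace ℂ (ι i)) j := by
    intro j y
    apply ext_inner_left ℂ
    intro v
    rw [hVa, ContinuousLinearMap.adjoint_inner_right, hVcs, ← hWs,
      ← ContinuousLinearMap.adjoint_inner_right, ← hWa, lp.inner_single_left]
  have hVcn1 : ∀ j, ‖Vc j‖ ≤ 1 := by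
    intro j
    apply ContinuousLinearMap.opNorm_le_bound _ zero_le_one
    intro v
    rw [hVcn, one_mul]
  have hVan1 : ∀ j, ‖Va j‖ ≤ 1 := by
    intro j
    rw [hVa]
    show ‖ContinuousLinearMap.adjoint (Vc j)‖ ≤ 1
    rw [LinearIsometryEquiv.norm_map]
    exact hVcn1 j
  have hWn1 : ‖W‖ ≤ 1 := by
    apply ContinuousLinearMap.opNorm_le_bound _ zero_le_one
    intro v
    rw [hWn, one_mul]
  have hWan1 : ‖Wa‖ ≤ 1 := by
    rw [hWa, LinearIsometryEquiv.norm_map]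
    exact hWn1
  -- the diagonal operators
  obtain ⟨B, hB⟩ : ∃ B : Submodule ℂ (∀ i, Matrix (ι i) (ι i) ℂ), ∀ x, x ∈ B ↔ ∃ C : ℝ, ∀ i, ‖x i‖ ≤ C := by
    refine ⟨{ carrier := {x | ∃ C : ℝ, ∀ i, ‖x i‖ ≤ C}, add_mem' := ?_, zero_mem' := ?_, smul_mem' := ?_ }, ?_⟩
    · rintro x y ⟨C, hC⟩ ⟨C', hC'⟩
      exact ⟨C + C', fun i => (norm_add_le _ _).trans (add_le_add (hC i) (hC' i))⟩
    · exact ⟨0, fun i => by simp⟩
    · rintro c x ⟨C, hC⟩
      refine ⟨‖c‖ * C, fun i => ?_⟩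
      rw [Pi.smul_apply, norm_smul]
      exact mul_le_mul_of_nonneg_left (hC i) (norm_nonneg _)
    · intro x
      exact Iff.rfl
  have hDex : ∀ x : B, ∃ D : lp (fun i => EuclideanSpace ℂ (ι i)) 2 →L[ℂ] lp (fun i => EuclideanSpace ℂ (ι i)) 2,
      ∀ (f : lp (fun i => EuclideanSpace ℂ (ι i)) 2) (i : ℕ), (D f : ∀ i, EuclideanSpace ℂ (ι i)) i =
        Matrix.toEuclideanCLM (n := ι i) (𝕜 := ℂ) (x.1 i) ((f : ∀ i, EuclideanSpace ℂ (ι i)) i) := by
    intro x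
    obtain ⟨C, hC⟩ := (hB x.1).1 x.2
    obtain ⟨D, hD, _⟩ := emb_dg (fun i => Matrix.toEuclideanCLM (n := ι i) (𝕜 := ℂ) (x.1 i)) C
      ((norm_nonneg _).trans (hC 0)) hC
    exact ⟨D, hD⟩
  choose DD hDD using hDex
  obtain ⟨Δ0, hΔ0⟩ : ∃ Δ0 : B →ₗ[ℂ] (lp (fun _ : ℕ => ℂ) 2 →L[ℂ] lp (fun _ : ℕ => ℂ) 2),
      ∀ x, Δ0 x = W ∘L (DD x) ∘L Wa := by
    refine ⟨{ toFun := fun x => W ∘L (DD x) ∘L Wa, map_add' := ?_, map_smul' := ?_ }, fun x => rfl⟩
    · intro x y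
      have h1 : DD (x + y) = DD x + DD y := by
        apply emb_dg_unique
        intro f i
        rw [hDD]
        show Matrix.toEuclideanCLM (n := ι i) (𝕜 := ℂ) (x.1 i + y.1 i) ((f : ∀ i, EuclideanSpace ℂ (ι i)) i) =
          (DD x f : ∀ i, EuclideanSpace ℂ (ι i)) i + (DD y f : ∀ i, EuclideanSpace ℂ (ι i)) i
        rw [hDD, hDD, map_add]
        rfl
      rw [h1]
      ext1 f
      show W ((DD x + DD y) (Wa f)) = W (DD x (Wa f)) + W (DD y (Wa f))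
      rw [← map_add]
      rfl
    · intro c x
      have h1 : DD (c • x) = c • DD x := by
        apply emb_dg_unique
        intro f i
        rw [hDD]
        show Matrix.toEuclideanCLM (n := ι i) (𝕜 := ℂ) (c • x.1 i) ((f : ∀ i, EuclideanSpace ℂ (ι i)) i) =
          c • (DD x f : ∀ i, EuclideanSpace ℂ (ι i)) i
        rw [hDD, map_smul]
        rfl
      rw [h1]
      ext1 f
      show W ((c • DD x) (Wa f)) = c • W (DD x (Wa f))
      rw [← map_smul]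
      rfl
  obtain ⟨Δ, hΔ⟩ := LinearMap.exists_extend Δ0
  have hΔB : ∀ x (hx : x ∈ B), Δ x = W ∘L (DD ⟨x, hx⟩) ∘L Wa := by
    intro x hx
    have h1 : Δ x = (Δ ∘ₗ B.subtype) ⟨x, hx⟩ := rfl
    rw [h1, hΔ, hΔ0]
  obtain ⟨c, hc⟩ : ∃ c : ∀ j, (lp (fun _ : ℕ => ℂ) 2 →L[ℂ] lp (fun _ : ℕ => ℂ) 2) →ₗ[ℂ] Matrix (ι j) (ι j) ℂ,
      ∀ j a, c j a = (Matrix.toEuclideanCLM (n := ι j) (𝕜 := ℂ)).symm ((Va j) ∘L a ∘L (Vc j)) := by
    refine ⟨fun j => { toFun := fun a => (Matrix.toEuclideanCLM (n := ι j) (𝕜 := ℂ)).symm ((Va j) ∘L a ∘L (Vc j)),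
                       map_add' := ?_, map_smul' := ?_ }, fun j a => rfl⟩
    · intro a a'
      rw [← map_add]
      congr 1
      ext1 f
      show Va j ((a + a') (Vc j f)) = Va j (a (Vc j f)) + Va j (a' (Vc j f))
      rw [← map_add]
      rfl
    · intro s a
      rw [RingHom.id_apply, ← map_smul]
      congr 1
      ext1 f
      show Va j ((s • a) (Vc j f)) = s • Va j (a (Vc j f))
      rw [← map_smul]
      rfl
  have hcn : ∀ j a, ‖c j a‖ = ‖(Va j) ∘L a ∘L (Vc j)‖ := by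
    intro j a
    rw [← Matrix.l2_opNorm_toEuclideanCLM, hc]
    congr 1
    exact (Matrix.toEuclideanCLM (n := ι j) (𝕜 := ℂ)).apply_symm_apply _
  refine ⟨Δ, c, ?_, ?_, ?_, ?_, ?_⟩
  · -- norm
    intro x C hC hx
    rw [hΔB x ((hB x).2 ⟨C, hx⟩)]
    obtain ⟨D, hD, hDn⟩ := emb_dg (fun i => Matrix.toEuclideanCLM (n := ι i) (𝕜 := ℂ) (x i)) C hC hx
    have h1 : DD ⟨x, (hB x).2 ⟨C, hx⟩⟩ = D := by
      apply emb_dg_unique
      intro f i
      rw [hDD, hD]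
    rw [h1]
    calc ‖W ∘L D ∘L Wa‖ ≤ ‖W‖ * ‖D ∘L Wa‖ := ContinuousLinearMap.opNorm_comp_le _ _
      _ ≤ ‖W‖ * (‖D‖ * ‖Wa‖) := mul_le_mul_of_nonneg_left (ContinuousLinearMap.opNorm_comp_le _ _) (norm_nonneg _)
      _ ≤ 1 * (C * 1) := by
          apply mul_le_mul hWn1 _ (by positivity) zero_le_one
          exact mul_le_mul hDn hWan1 (norm_nonneg _) hC
      _ = C := by ring
  · -- compactness
    intro x hx
    obtain ⟨N, hN⟩ := Filter.eventually_atTop.1 hx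
    have hxB : x ∈ B := by
      rw [hB]
      refine ⟨∑ i ∈ Finset.range N, ‖x i‖, ?_⟩
      intro i
      by_cases hi : i < N
      · exact Finset.single_le_sum (f := fun i => ‖x i‖) (fun _ _ => norm_nonneg _) (Finset.mem_range.2 hi)
      · rw [hN i (by omega), norm_zero]
        exact Finset.sum_nonneg (fun _ _ => norm_nonneg _)
    have h1 : (⇑(Δ x) : lp (fun _ : ℕ => ℂ) 2 → lp (fun _ : ℕ => ℂ) 2) = fun f => ∑ i ∈ Finset.range N,
        ((Vc i) ∘L (Matrix.toEuclideanCLM (n := ι i) (𝕜 := ℂ) (x i)) ∘L (Va i)) f := by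
      funext f
      rw [hΔB x hxB]
      have h2 : DD ⟨x, hxB⟩ (Wa f) = ∑ i ∈ Finset.range N,
          lp.single 2 i (Matrix.toEuclideanCLM (n := ι i) (𝕜 := ℂ) (x i) (Va i f)) := by
        apply lp.ext
        funext i
        rw [hDD, lp.coeFn_sum, Finset.sum_apply]
        by_cases hi : i < N
        · rw [Finset.sum_eq_single i]
          · rw [lp.single_apply_self, hVaW]
          · intro j _ hj
            rw [lp.single_apply_ne _ _ _ (Ne.symm hj)]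
          · intro h3
            exact absurd (Finset.mem_range.2 hi) h3
        · have h3 : x i = 0 := hN i (by omega)
          rw [Finset.sum_eq_zero]
          · show Matrix.toEuclideanCLM (n := ι i) (𝕜 := ℂ) (x i) _ = 0
            rw [h3, map_zero]
            rfl
          · intro j hj
            rw [Finset.mem_range] at hj
            rw [lp.single_apply_ne _ _ _ (by omega)]
      show W (DD ⟨x, hxB⟩ (Wa f)) = _
      rw [h2, map_sum]
      apply Finset.sum_congr rfl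
      intro i _
      rw [hWs, ← hVcs]
      rfl
    rw [h1]
    have h4 : ∀ n : ℕ, IsCompactOperator (fun f : lp (fun _ : ℕ => ℂ) 2 => ∑ i ∈ Finset.range n,
        ((Vc i) ∘L (Matrix.toEuclideanCLM (n := ι i) (𝕜 := ℂ) (x i)) ∘L (Va i)) f) := by
      intro n
      induction n with
      | zero =>
        simp only [Finset.range_zero, Finset.sum_empty]
        exact isCompactOperator_zero
      | succ n ih =>
        simp only [Finset.sum_range_succ]
        apply ih.add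
        have h5 : IsCompactOperator (⇑(Vc n)) :=
          isCompactOperator_of_locallyCompactSpace_rng (Vc n)
        exact h5.comp_clm ((Matrix.toEuclideanCLM (n := ι n) (𝕜 := ℂ) (x n)) ∘L (Va n))
    exact h4 N
  · -- compressions
    intro x C hx j
    rw [hΔB x ((hB x).2 ⟨C, hx⟩), hc]
    have h1 : (Va j) ∘L (W ∘L (DD ⟨x, (hB x).2 ⟨C, hx⟩⟩) ∘L Wa) ∘L (Vc j) =
        Matrix.toEuclideanCLM (n := ι j) (𝕜 := ℂ) (x j) := by
      ext1 v
      show Va j (W (DD ⟨x, (hB x).2 ⟨C, hx⟩⟩ (Wa (Vc j v)))) = _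
      rw [hVcs, ← hWs, hWaW, hVaW, hWaW, hDD, lp.single_apply_self]
    rw [h1]
    exact (Matrix.toEuclideanCLM (n := ι j) (𝕜 := ℂ)).symm_apply_apply _
  · intro j a
    rw [hcn]
    calc ‖(Va j) ∘L a ∘L (Vc j)‖ ≤ ‖Va j‖ * ‖a ∘L (Vc j)‖ := ContinuousLinearMap.opNorm_comp_le _ _
      _ ≤ ‖Va j‖ * (‖a‖ * ‖Vc j‖) := mul_le_mul_of_nonneg_left (ContinuousLinearMap.opNorm_comp_le _ _) (norm_nonneg _)
      _ ≤ 1 * (‖a‖ * 1) := by
          apply mul_le_mul (hVan1 j) _ (by positivity) zero_le_one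
          exact mul_le_mul_of_nonneg_left (hVcn1 j) (norm_nonneg _)
      _ = ‖a‖ := by ring
  · -- compact operators
    intro k hk
    have hVa0 : ∀ y, Filter.Tendsto (fun j => ‖Va j y‖) Filter.atTop (nhds 0) := by
      intro y
      have hp : 0 < (2 : ENNReal).toReal := by simp
      have h1 := (lp.hasSum_norm hp (Wa y)).summable.tendsto_atTop_zero
      have h2 : ∀ j, ‖(Wa y : ∀ i, EuclideanSpace ℂ (ι i)) j‖ ^ (2 : ENNReal).toReal = ‖Va j y‖ ^ 2 := by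
        intro j
        rw [hVaW]
        have : (2 : ENNReal).toReal = ((2 : ℕ) : ℝ) := by simp
        rw [this, Real.rpow_natCast]
      simp only [h2] at h1
      have h3 := (Real.continuous_sqrt.tendsto 0).comp h1
      rw [Real.sqrt_zero] at h3
      apply h3.congr
      intro j
      exact Real.sqrt_sq (norm_nonneg _)
    rw [Metric.tendsto_atTop]
    intro ε hε
    have hcomp : IsCompact (closure ((⇑k : lp (fun _ : ℕ => ℂ) 2 → lp (fun _ : ℕ => ℂ) 2) '' Metric.closedBall 0 1)) :=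
      IsCompactOperator.isCompact_closure_image_closedBall (f := (k : lp (fun _ : ℕ => ℂ) 2 →ₗ[ℂ] lp (fun _ : ℕ => ℂ) 2)) hk 1
    obtain ⟨t, htf, ht⟩ := Metric.totallyBounded_iff.1 hcomp.totallyBounded (ε / 4) (by positivity)
    have hev : ∀ᶠ j in Filter.atTop, ∀ y ∈ t, ‖Va j y‖ < ε / 4 := by
      rw [Filter.eventually_all_finite htf]
      intro y _
      exact (hVa0 y).eventually (gt_mem_nhds (by positivity))
    obtain ⟨N, hN⟩ := Filter.eventually_atTop.1 hev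
    refine ⟨N, fun j hj => ?_⟩
    rw [dist_zero_right, norm_norm, hcn]
    have h1 : ‖(Va j) ∘L k ∘L (Vc j)‖ ≤ ε / 2 := by
      have key : ∀ v, ‖v‖ ≤ 1 → ‖((Va j) ∘L k ∘L (Vc j)) v‖ ≤ ε / 2 := by
        intro v hv
        have h2 : k (Vc j v) ∈ closure ((⇑k : lp (fun _ : ℕ => ℂ) 2 → lp (fun _ : ℕ => ℂ) 2) ''
            Metric.closedBall 0 1) := by
          apply subset_closure
          refine ⟨Vc j v, ?_, rfl⟩
          rw [Metric.mem_closedBall, dist_zero_right, hVcn]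
          exact hv
        have h3 := ht h2
        rw [Set.mem_iUnion₂] at h3
        obtain ⟨y, hy, hy2⟩ := h3
        rw [Metric.mem_ball, dist_eq_norm] at hy2
        have h4 := hN j hj y hy
        have h5 : ((Va j) ∘L k ∘L (Vc j)) v = Va j (k (Vc j v) - y) + Va j y := by
          rw [← map_add, sub_add_cancel]
          rfl
        rw [h5]
        have h6 : ‖Va j (k (Vc j v) - y)‖ ≤ ε / 4 := by
          calc ‖Va j (k (Vc j v) - y)‖ ≤ ‖Va j‖ * ‖k (Vc j v) - y‖ := (Va j).le_opNorm _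
            _ ≤ 1 * (ε / 4) := mul_le_mul (hVan1 j) hy2.le (norm_nonneg _) zero_le_one
            _ = ε / 4 := one_mul _
        calc _ ≤ ‖Va j (k (Vc j v) - y)‖ + ‖Va j y‖ := norm_add_le _ _
          _ ≤ ε / 2 := by linarith
      apply ContinuousLinearMap.opNorm_le_bound _ (by positivity)
      intro v
      by_cases hv : v = 0
      · rw [hv, map_zero]
        simp
      · have hv' : 0 < ‖v‖ := norm_pos_iff.2 hv
        have h2 := key (((‖v‖⁻¹ : ℝ) : ℂ) • v) (by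
          rw [norm_smul, Complex.norm_real, norm_inv, norm_norm, inv_mul_cancel₀ hv'.ne'])
        rw [map_smul, norm_smul, Complex.norm_real, norm_inv, norm_norm] at h2
        rw [inv_mul_le_iff₀ hv'] at h2
        linarith
    linarith

end Pool.Agent.Helper234.Calkin
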