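import Mathlib

set_option autoImplicit false
open scoped Matrix.Norms.L2Operator Kronecker

namespace Pool.Agent.Helper234.Calkin


/-- Hahn-Banach: if `v` is at distance `> ε` from `(1+ε)𝒞` (𝒞 convex balanced containing 0), there is a
linear functional bounded by 1 on `𝒞`, bounded by `(1+ε)/ε` on the unit ball, and `≥ 1+ε` at `v`. -/
theorem HBsep {E : Type} [NormedAddCommGroup E] [NormedSpace ℂ E] (𝒞 : Set E)
    (h0 : (0 : E) ∈ 𝒞) (hconv : ∀ a ∈ 𝒞, ∀ b ∈ 𝒞, ∀ t : ℝ, 0 ≤ t → t ≤ 1 →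
      ((t : ℂ) • a + ((1 - t : ℝ) : ℂ) • b) ∈ 𝒞)
    (hbal : ∀ a ∈ 𝒞, ∀ θ : ℂ, ‖θ‖ ≤ 1 → θ • a ∈ 𝒞) (v : E) (ε : ℝ) (hε : 0 < ε)
    (hno : ∀ c ∈ 𝒞, ε < ‖v - ((1 + ε : ℝ) : ℂ) • c‖) :
    ∃ z : E →ₗ[ℂ] ℂ, (∀ c ∈ 𝒞, ‖z c‖ ≤ 1) ∧ (∀ w, ‖z w‖ ≤ ((1 + ε) / ε) * ‖w‖) ∧
      1 + ε ≤ ‖z v‖ := by
  set U : Set E := {w | ∃ c ∈ 𝒞, ‖w - ((1 + ε : ℝ) : ℂ) • c‖ < ε} with hU
  let _ : NormedSpace ℝ E := NormedSpace.restrictScalars ℝ ℂ E
  have hsm : ∀ (t : ℝ) (a : E), t • a = (t : ℂ) • a := fun t a => rfl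
  have hUo : IsOpen U := by
    have : U = ⋃ c ∈ 𝒞, Metric.ball (((1 + ε : ℝ) : ℂ) • c) ε := by
      ext w
      simp [hU, dist_eq_norm]
    rw [this]
    exact isOpen_biUnion fun c _ => Metric.isOpen_ball
  have hUc : Convex ℝ U := by
    intro w1 hw1 w2 hw2 s t hs ht hst
    obtain ⟨c1, hc1, h1⟩ := hw1
    obtain ⟨c2, hc2, h2⟩ := hw2
    have ht' : t = 1 - s := by linarith
    refine ⟨(s : ℂ) • c1 + ((1 - s : ℝ) : ℂ) • c2, hconv c1 hc1 c2 hc2 s hs (by linarith), ?_⟩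
    have e : s • w1 + t • w2 - ((1 + ε : ℝ) : ℂ) • ((s : ℂ) • c1 + ((1 - s : ℝ) : ℂ) • c2) =
        (s : ℂ) • (w1 - ((1 + ε : ℝ) : ℂ) • c1) + (t : ℂ) • (w2 - ((1 + ε : ℝ) : ℂ) • c2) := by
      rw [hsm, hsm, ht', smul_sub, smul_sub, smul_add, smul_comm (s : ℂ) (((1 + ε : ℝ) : ℂ)) c1,
        smul_comm (((1 - s : ℝ) : ℂ)) (((1 + ε : ℝ) : ℂ)) c2]
      abel
    rw [e]
    refine lt_of_le_of_lt (norm_add_le _ _) ?_
    rw [norm_smul, norm_smul, Complex.norm_real, Complex.norm_real, Real.norm_eq_abs,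
      Real.norm_eq_abs, abs_of_nonneg hs, abs_of_nonneg ht]
    rcases eq_or_lt_of_le hs with hs0 | hs0
    · rw [← hs0, zero_mul, zero_add]
      have : t = 1 := by linarith
      rw [this, one_mul]
      exact h2
    · have h3 : s * ‖w1 - ((1 + ε : ℝ) : ℂ) • c1‖ < s * ε := mul_lt_mul_of_pos_left h1 hs0
      have h4 : t * ‖w2 - ((1 + ε : ℝ) : ℂ) • c2‖ ≤ t * ε := mul_le_mul_of_nonneg_left h2.le ht
      calc _ < s * ε + t * ε := add_lt_add_of_lt_of_le h3 h4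
        _ = (s + t) * ε := by ring
        _ = ε := by rw [hst, one_mul]
  have hUb : ∀ w ∈ U, ∀ θ : ℂ, ‖θ‖ ≤ 1 → θ • w ∈ U := by
    intro w hw θ hθ
    obtain ⟨c, hc, h1⟩ := hw
    refine ⟨θ • c, hbal c hc θ hθ, ?_⟩
    rw [smul_comm, ← smul_sub, norm_smul]
    calc ‖θ‖ * ‖w - ((1 + ε : ℝ) : ℂ) • c‖ ≤ 1 * ‖w - ((1 + ε : ℝ) : ℂ) • c‖ :=
          mul_le_mul_of_nonneg_right hθ (norm_nonneg _)
      _ < ε := by rwa [one_mul]
  have hvU : v ∉ U := by
    rintro ⟨c, hc, h1⟩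
    have := hno c hc
    linarith
  obtain ⟨f, hf⟩ := RCLike.geometric_hahn_banach_open_point (𝕜 := ℂ) hUc hUo hvU
  have h0U : (0 : E) ∈ U := ⟨0, h0, by simpa using hε⟩
  have hfv : 0 < (f v).re := by
    have := hf 0 h0U
    simpa using this
  have hfU : ∀ w ∈ U, ‖f w‖ ≤ (f v).re := by
    intro w hw
    rcases eq_or_ne (f w) 0 with h | h
    · rw [h, norm_zero]
      exact hfv.le
    · set θ : ℂ := (starRingEnd ℂ) (f w) / ‖f w‖ with hθ
      have hn : (‖f w‖ : ℂ) ≠ 0 := by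
        exact_mod_cast (norm_pos_iff.2 h).ne'
      have hθn : ‖θ‖ ≤ 1 := by
        rw [hθ, norm_div, RCLike.norm_conj, Complex.norm_real, norm_norm,
          div_self (norm_pos_iff.2 h).ne']
      have h1 := hf _ (hUb w hw θ hθn)
      have h2 : f (θ • w) = (‖f w‖ : ℂ) := by
        rw [map_smul, smul_eq_mul, hθ, div_mul_eq_mul_div, div_eq_iff hn, ← sq,
          mul_comm, Complex.mul_conj, Complex.normSq_eq_norm_sq]
        push_cast
        rfl
      rw [h2] at h1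
      have h3 : (RCLike.re ((‖f w‖ : ℂ)) : ℝ) = ‖f w‖ := by simp
      rw [h3] at h1
      exact h1.le
  set k : ℝ := (1 + ε) / (f v).re with hk
  have hk0 : 0 < k := by positivity
  refine ⟨(k : ℂ) • (f : E →ₗ[ℂ] ℂ), ?_, ?_, ?_⟩
  · intro c hc
    have h1 : ((1 + ε : ℝ) : ℂ) • c ∈ U := ⟨c, hc, by simpa using hε⟩
    have h2 := hfU _ h1
    rw [map_smul, smul_eq_mul, norm_mul, Complex.norm_real, Real.norm_eq_abs,
      abs_of_pos (by linarith)] at h2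
    change ‖(k : ℂ) * f c‖ ≤ 1
    rw [norm_mul, Complex.norm_real, Real.norm_eq_abs, abs_of_pos hk0, hk, div_mul_eq_mul_div,
      div_le_one hfv]
    exact h2
  · intro w
    change ‖(k : ℂ) * f w‖ ≤ _
    rw [norm_mul, Complex.norm_real, Real.norm_eq_abs, abs_of_pos hk0]
    have key : ‖f w‖ * ε ≤ (f v).re * ‖w‖ := by
      rcases eq_or_ne w 0 with h | h
      · simp [h]
      · have hw : 0 < ‖w‖ := norm_pos_iff.2 h
        by_contra hcon
        push Not at hcon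
        have hB : 0 < (f v).re * ‖w‖ := by positivity
        have hA : 0 < ‖f w‖ * ε := by linarith
        set a : ℝ := (‖f w‖ * ε + (f v).re * ‖w‖) / (2 * (‖f w‖ * ε)) with ha
        have hapos : 0 < a := by positivity
        have ha0 : a < 1 := by
          rw [ha, div_lt_one (by positivity)]
          linarith
        have haA : a * (‖f w‖ * ε) = (‖f w‖ * ε + (f v).re * ‖w‖) / 2 := by
          rw [ha, div_mul_eq_mul_div, div_eq_div_iff (by positivity) (by norm_num)]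
          ring
        have h1 : ((a * ε / ‖w‖ : ℝ) : ℂ) • w ∈ U := by
          refine ⟨0, h0, ?_⟩
          rw [smul_zero, sub_zero, norm_smul, Complex.norm_real, Real.norm_eq_abs,
            abs_of_pos (by positivity), div_mul_cancel₀ _ hw.ne']
          nlinarith
        have h2 := hfU _ h1
        rw [map_smul, smul_eq_mul, norm_mul, Complex.norm_real, Real.norm_eq_abs,
          abs_of_pos (by positivity), div_mul_eq_mul_div, div_le_iff₀ hw] at h2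
        have h3 : a * (‖f w‖ * ε) ≤ (f v).re * ‖w‖ := by
          calc a * (‖f w‖ * ε) = a * ε * ‖f w‖ := by ring
            _ ≤ _ := h2
        rw [haA] at h3
        linarith
    rw [hk, div_mul_eq_mul_div, div_mul_eq_mul_div, div_le_div_iff₀ hfv hε]
    calc (1 + ε) * ‖f w‖ * ε = (1 + ε) * (‖f w‖ * ε) := by ring
      _ ≤ (1 + ε) * ((f v).re * ‖w‖) := mul_le_mul_of_nonneg_left key (by linarith)
      _ = _ := by ring
  · change 1 + ε ≤ ‖(k : ℂ) * f v‖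
    rw [norm_mul, Complex.norm_real, Real.norm_eq_abs, abs_of_pos hk0]
    have h1 : (f v).re ≤ ‖f v‖ := Complex.re_le_norm _
    calc 1 + ε = k * (f v).re := by rw [hk, div_mul_cancel₀ _ hfv.ne']
      _ ≤ k * ‖f v‖ := mul_le_mul_of_nonneg_left h1 hk0.le

end Pool.Agent.Helper234.Calkin
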