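import Mathlib

set_option autoImplicit false
open scoped Matrix.Norms.L2Operator Kronecker

namespace Pool.Agent.Helper234.Calkin


open TopologicalSpace Filter Topology in
theorem cgh_sep : SeparableSpace (lp (fun _ : ℕ => ℂ) 2) := by
  rw [← isSeparable_univ_iff]
  have h1 : IsSeparable ((Submodule.span ℂ (Set.range fun n : ℕ =>
      (lp.single 2 n (1 : ℂ) : lp (fun _ : ℕ => ℂ) 2)) :
      Submodule ℂ (lp (fun _ : ℕ => ℂ) 2)) : Set (lp (fun _ : ℕ => ℂ) 2)) :=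
    (Set.countable_range _).isSeparable.span
  refine h1.closure.mono ?_
  intro f _
  have h2 := lp.hasSum_single (E := fun _ : ℕ => ℂ) (p := 2) (by norm_num) f
  refine mem_closure_of_tendsto h2.tendsto_sum_nat (Eventually.of_forall fun n => ?_)
  refine Submodule.sum_mem _ (fun i _ => ?_)
  have h3 : (lp.single 2 i (f i) : lp (fun _ : ℕ => ℂ) 2) =
      (f i) • (lp.single 2 i (1 : ℂ) : lp (fun _ : ℕ => ℂ) 2) := by
    rw [← lp.single_smul]
    simp
  rw [h3]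
  exact Submodule.smul_mem _ _ (Submodule.subset_span ⟨i, rfl⟩)

open TopologicalSpace Filter Topology in
/-- The compact operators on `ℓ²` form a separable set. -/
theorem compact_isSeparable :
    TopologicalSpace.IsSeparable {k : lp (fun _ : ℕ => ℂ) 2 →L[ℂ] lp (fun _ : ℕ => ℂ) 2 |
      IsCompactOperator (⇑k)} := by
  classical
  haveI := cgh_sep
  haveI hd : SeparableSpace (lp (fun _ : ℕ => ℂ) 2 →L[ℂ] ℂ) :=
    (InnerProductSpace.toDual ℂ (lp (fun _ : ℕ => ℂ) 2)).surjective.denseRange.separableSpace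
      (InnerProductSpace.toDual ℂ (lp (fun _ : ℕ => ℂ) 2)).continuous
  obtain ⟨Ψ, hΨ⟩ : ∃ Ψ : ∀ n : ℕ, (Fin n → (lp (fun _ : ℕ => ℂ) 2 →L[ℂ] ℂ)) →
      (lp (fun _ : ℕ => ℂ) 2 →L[ℂ] lp (fun _ : ℕ => ℂ) 2), ∀ n φ, Ψ n φ =
        ∑ m, (φ m).smulRight (lp.single 2 (m : ℕ) (1 : ℂ) : lp (fun _ : ℕ => ℂ) 2) :=
    ⟨fun n φ => _, fun n φ => rfl⟩
  have hΨc : ∀ n, Continuous (Ψ n) := by
    intro n
    have e : Ψ n = fun φ => ∑ m, (φ m).smulRight
      (lp.single 2 (m : ℕ) (1 : ℂ) : lp (fun _ : ℕ => ℂ) 2) := funext (hΨ n)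
    rw [e]
    refine continuous_finset_sum _ (fun m _ => ?_)
    exact ((ContinuousLinearMap.smulRightL ℂ (lp (fun _ : ℕ => ℂ) 2)
      (lp (fun _ : ℕ => ℂ) 2)).flip
      (lp.single 2 (m : ℕ) (1 : ℂ) : lp (fun _ : ℕ => ℂ) 2)).continuous.comp (continuous_apply m)
  have hsep : IsSeparable (closure (⋃ n, Set.range (Ψ n))) :=
    (IsSeparable.iUnion fun n => isSeparable_range (hΨc n)).closure
  refine hsep.mono ?_
  intro k hk
  -- truncations
  obtain ⟨P, hP⟩ : ∃ P : ℕ → lp (fun _ : ℕ => ℂ) 2 → lp (fun _ : ℕ => ℂ) 2, ∀ n z, P n z =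
      ∑ m ∈ Finset.range n, (lp.single 2 m (z m) : lp (fun _ : ℕ => ℂ) 2) :=
    ⟨fun n z => _, fun n z => rfl⟩
  have hPt : ∀ z, Tendsto (fun n => P n z) atTop (𝓝 z) := by
    intro z
    have h2 := lp.hasSum_single (E := fun _ : ℕ => ℂ) (p := 2) (by norm_num) z
    exact h2.tendsto_sum_nat.congr (fun n => (hP n z).symm)
  have hPn : ∀ n z, ‖P n z‖ ≤ ‖z‖ := by
    intro n z
    have h2 : (0 : ℝ) < (2 : ENNReal).toReal := by norm_num
    have h3 := lp.norm_sum_single (E := fun _ : ℕ => ℂ) (p := 2) h2 (fun m => z m) (Finset.range n)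
    have h4 := lp.sum_rpow_le_norm_rpow (E := fun _ : ℕ => ℂ) (p := 2) h2 z (Finset.range n)
    rw [← h3, ← hP] at h4
    exact (Real.rpow_le_rpow_iff (norm_nonneg _) (norm_nonneg _) h2).1 h4
  have hPs : ∀ n z w, P n (z - w) = P n z - P n w := by
    intro n z w
    rw [hP, hP, hP, ← Finset.sum_sub_distrib]
    refine Finset.sum_congr rfl (fun m _ => ?_)
    rw [← lp.single_sub]
    rfl
  rw [Metric.mem_closure_iff]
  intro ε hε
  obtain ⟨K, hK, hkK⟩ := IsCompactOperator.image_closedBall_subset_compact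
    (f := (k : lp (fun _ : ℕ => ℂ) 2 →ₗ[ℂ] lp (fun _ : ℕ => ℂ) 2)) hk 1
  obtain ⟨n, hn⟩ : ∃ n, ∀ z ∈ K, ‖z - P n z‖ ≤ ε / 2 := by
    obtain ⟨t, ht, hcov⟩ := Metric.totallyBounded_iff.1 hK.totallyBounded (ε / 8) (by linarith)
    have hev : ∀ᶠ n in atTop, ∀ y ∈ t, ‖y - P n y‖ < ε / 8 := by
      refine (eventually_all_finite ht).2 (fun y _ => ?_)
      have h1 := (Metric.tendsto_nhds.1 (hPt y)) (ε / 8) (by linarith)
      filter_upwards [h1] with n h
      rwa [dist_comm, dist_eq_norm] at h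
    obtain ⟨n, hn⟩ := hev.exists
    refine ⟨n, fun z hz => ?_⟩
    obtain ⟨y, hy, hzy⟩ := Set.mem_iUnion₂.1 (hcov hz)
    rw [Metric.mem_ball, dist_eq_norm] at hzy
    have e : z - P n z = (z - y) + (y - P n y) + P n (y - z) := by
      rw [hPs]; abel
    rw [e]
    have h1 : ‖P n (y - z)‖ ≤ ‖z - y‖ := (hPn n _).trans_eq (norm_sub_rev _ _)
    have h2 := norm_add₃_le (a := z - y) (b := y - P n y) (c := P n (y - z))
    have h3 := hn y hy
    linarith
  refine ⟨Ψ n (fun m => (lp.evalCLM ℂ (fun _ : ℕ => ℂ) 2 (m : ℕ)).comp k),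
    Set.mem_iUnion.2 ⟨n, ⟨_, rfl⟩⟩, ?_⟩
  rw [dist_eq_norm]
  refine lt_of_le_of_lt (b := ε / 2) ?_ (by linarith)
  refine ContinuousLinearMap.opNorm_le_of_unit_norm (by linarith) (fun x hx => ?_)
  have h1 : (Ψ n (fun m => (lp.evalCLM ℂ (fun _ : ℕ => ℂ) 2 (m : ℕ)).comp k)) x = P n (k x) := by
    rw [hΨ, hP, ContinuousLinearMap.sum_apply, ← Fin.sum_univ_eq_sum_range
      (fun m => (lp.single 2 m ((k x) m) : lp (fun _ : ℕ => ℂ) 2)) n]
    refine Finset.sum_congr rfl (fun m _ => ?_)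
    rw [ContinuousLinearMap.smulRight_apply, ← lp.single_smul]
    simp
    rfl
  rw [ContinuousLinearMap.sub_apply, h1]
  refine hn _ (hkK ⟨x, ?_, rfl⟩)
  rw [Metric.mem_closedBall, dist_zero_right, hx]

end Pool.Agent.Helper234.Calkin
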