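import Mathlib
import Pool.Agent.Helper234.Calkin.Defs
set_option autoImplicit false
open scoped Matrix.Norms.L2Operator Kronecker

namespace Pool.Agent.Helper234.Calkin


namespace GapSq

/-- slices of a matrix indexed by pairs -/
def sl {m : Type} (a b : m) (W : Matrix (m × m) (m × m) ℂ) : Matrix m m ℂ :=
  Matrix.of fun c d => W (a, c) (b, d)

/-- the isometry-like map `d ↦ ξ ⊗ d` -/
def V {m : Type} [DecidableEq m] (ξ : m → ℂ) : Matrix (m × m) m ℂ :=
  Matrix.of fun p d => ξ p.1 * (if p.2 = d then 1 else 0)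

lemma V_conj_mul {m : Type} [Fintype m] [DecidableEq m] (ξ : m → ℂ) :
    (V ξ).conjTranspose * V ξ = ((∑ a, ‖ξ a‖ ^ 2 : ℝ) : ℂ) • (1 : Matrix m m ℂ) := by
  ext c d
  simp only [Matrix.mul_apply, Matrix.conjTranspose_apply, V, Matrix.of_apply,
    Fintype.sum_prod_type, Matrix.smul_apply, smul_eq_mul, Matrix.one_apply]
  push_cast
  rw [Finset.sum_mul]
  refine Finset.sum_congr rfl fun a _ => ?_
  have h1 : ∀ x : m, star (ξ a * (if x = c then (1:ℂ) else 0)) * (ξ a * (if x = d then 1 else 0))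
      = if x = c then (star (ξ a) * ξ a * (if c = d then 1 else 0)) else 0 := by
    intro x
    by_cases hxc : x = c
    · subst hxc
      by_cases hxd : x = d <;> simp [hxd]
    · simp [hxc]
  rw [Finset.sum_congr rfl fun x _ => h1 x, Finset.sum_ite_eq' Finset.univ c]
  have h2 : star (ξ a) * ξ a = ((‖ξ a‖ : ℂ)) ^ 2 := by
    rw [mul_comm]
    exact Complex.mul_conj' (ξ a)
  rw [if_pos (Finset.mem_univ c), h2]

lemma V_norm {m : Type} [Fintype m] [DecidableEq m] (ξ : m → ℂ) :
    ‖V ξ‖ ≤ ‖(WithLp.toLp 2 ξ : EuclideanSpace ℂ m)‖ := by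
  have h1 := Matrix.l2_opNorm_conjTranspose_mul_self (V ξ)
  rw [V_conj_mul, norm_smul] at h1
  have h2 : ‖(1 : Matrix m m ℂ)‖ ≤ 1 := by
    rw [Matrix.cstar_norm_def, map_one]
    exact ContinuousLinearMap.norm_id_le
  have h0 : (0:ℝ) ≤ ∑ a, ‖ξ a‖ ^ 2 := Finset.sum_nonneg fun a _ => by positivity
  rw [EuclideanSpace.norm_eq]
  apply Real.le_sqrt_of_sq_le
  rw [sq, ← h1]
  have h3 : ‖((∑ a, ‖ξ a‖ ^ 2 : ℝ) : ℂ)‖ = ∑ a, ‖ξ a‖ ^ 2 := by
    rw [Complex.norm_real, Real.norm_of_nonneg h0]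
  rw [h3]
  calc (∑ a, ‖ξ a‖ ^ 2) * ‖(1 : Matrix m m ℂ)‖ ≤ (∑ a, ‖ξ a‖ ^ 2) * 1 :=
        mul_le_mul_of_nonneg_left h2 h0
    _ = _ := by simp

/-- compression -/
def cmp {m : Type} [Fintype m] [DecidableEq m] (η ξ : m → ℂ) (W : Matrix (m × m) (m × m) ℂ) :
    Matrix m m ℂ := (V η).conjTranspose * W * V ξ

lemma cmp_norm {m : Type} [Fintype m] [DecidableEq m] (η ξ : m → ℂ)
    (W : Matrix (m × m) (m × m) ℂ) :
    ‖cmp η ξ W‖ ≤ ‖(WithLp.toLp 2 η : EuclideanSpace ℂ m)‖ * ‖W‖ *
      ‖(WithLp.toLp 2 ξ : EuclideanSpace ℂ m)‖ := by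
  unfold cmp
  calc _ ≤ ‖(V η).conjTranspose * W‖ * ‖V ξ‖ := Matrix.l2_opNorm_mul _ _
    _ ≤ (‖(V η).conjTranspose‖ * ‖W‖) * ‖V ξ‖ := by
        gcongr
        exact Matrix.l2_opNorm_mul _ _
    _ ≤ _ := by
        rw [Matrix.l2_opNorm_conjTranspose]
        gcongr
        · exact V_norm η
        · exact V_norm ξ

lemma cmp_eq {m : Type} [Fintype m] [DecidableEq m] (η ξ : m → ℂ)
    (W : Matrix (m × m) (m × m) ℂ) :
    cmp η ξ W = ∑ a, ∑ b, (star (η a) * ξ b) • sl a b W := by
  ext c d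
  unfold cmp
  simp only [Matrix.mul_apply, Matrix.conjTranspose_apply, V, Matrix.of_apply,
    Fintype.sum_prod_type, Matrix.sum_apply, Matrix.smul_apply, smul_eq_mul, sl]
  have h1 : ∀ (b x : m), (∑ a, ∑ y, star (η a * (if y = c then (1:ℂ) else 0)) * W (a, y) (b, x))
      = ∑ a, star (η a) * W (a, c) (b, x) := by
    intro b x
    refine Finset.sum_congr rfl fun a _ => ?_
    rw [Finset.sum_eq_single c]
    · simp
    · intro y _ hy
      simp [hy]
    · intro h
      exact absurd (Finset.mem_univ c) h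
  simp only [h1]
  have h2 : ∀ b : m, (∑ x, (∑ a, star (η a) * W (a, c) (b, x)) * (ξ b * (if x = d then 1 else 0)))
      = ∑ a, star (η a) * ξ b * W (a, c) (b, d) := by
    intro b
    rw [Finset.sum_eq_single d]
    · rw [Finset.sum_mul]
      refine Finset.sum_congr rfl fun a _ => ?_
      simp
      ring
    · intro y _ hy
      simp [hy]
    · intro h
      exact absurd (Finset.mem_univ d) h
  simp only [h2]
  exact Finset.sum_comm

lemma norm_le_of_form {m : Type} [Fintype m] [DecidableEq m] (A : Matrix m m ℂ) (c : ℝ)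
    (hc : 0 ≤ c)
    (h : ∀ η ξ : EuclideanSpace ℂ m, ‖∑ a, ∑ b, (star (η a) * ξ b) * A a b‖ ≤ c * (‖η‖ * ‖ξ‖)) :
    ‖A‖ ≤ c := by
  rw [Matrix.cstar_norm_def]
  refine ContinuousLinearMap.opNorm_le_bound _ hc fun ξ => ?_
  set y := Matrix.toEuclideanCLM (n := m) (𝕜 := ℂ) A ξ with hy
  have h1 := h y ξ
  have h2 : (∑ a, ∑ b, (star (y a) * ξ b) * A a b) = ((‖y‖ ^ 2 : ℝ) : ℂ) := by
    have h3 : ∀ a, y a = ∑ b, A a b * ξ b := by
      intro a
      rw [hy]
      have := congrFun (Matrix.ofLp_toEuclideanCLM A ξ) a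
      simpa [Matrix.mulVec, dotProduct] using this
    have h4 : ∀ a, (∑ b, (star (y a) * ξ b) * A a b) = star (y a) * y a := by
      intro a
      have h5 : (∑ b, (star (y a) * ξ b) * A a b) = star (y a) * ∑ b, A a b * ξ b := by
        rw [Finset.mul_sum]
        refine Finset.sum_congr rfl fun b _ => ?_
        ring
      rw [h5, ← h3 a]
    rw [Finset.sum_congr rfl fun a _ => h4 a, EuclideanSpace.norm_sq_eq]
    push_cast
    refine Finset.sum_congr rfl fun a _ => ?_
    rw [mul_comm]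
    exact Complex.mul_conj' (y a)
  rw [h2, Complex.norm_real, Real.norm_of_nonneg (by positivity)] at h1
  by_cases hy0 : ‖y‖ = 0
  · rw [hy0]
    positivity
  · have hypos : 0 < ‖y‖ := lt_of_le_of_ne (norm_nonneg y) (Ne.symm hy0)
    have h6 : ‖y‖ * ‖y‖ ≤ ‖y‖ * (c * ‖ξ‖) := by nlinarith [h1]
    exact le_of_mul_le_mul_left h6 hypos

lemma kron_norm {m : Type} [Fintype m] [DecidableEq m] (A B : Matrix m m ℂ) :
    ‖A ⊗ₖ B‖ ≤ ‖A‖ * ‖B‖ := by
  let f1 : Matrix m m ℂ →⋆ₙₐ[ℂ] Matrix (m × m) (m × m) ℂ :=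
    { toFun := fun A => A ⊗ₖ (1 : Matrix m m ℂ)
      map_smul' := fun r A => by simp [Matrix.smul_kronecker]
      map_zero' := by simp
      map_add' := fun A B => Matrix.add_kronecker A B 1
      map_mul' := fun A B => by
        rw [← Matrix.mul_kronecker_mul, one_mul]
      map_star' := fun A => by
        rw [Matrix.star_eq_conjTranspose, Matrix.star_eq_conjTranspose,
          Matrix.conjTranspose_kronecker, Matrix.conjTranspose_one] }
  let f2 : Matrix m m ℂ →⋆ₙₐ[ℂ] Matrix (m × m) (m × m) ℂ :=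
    { toFun := fun B => (1 : Matrix m m ℂ) ⊗ₖ B
      map_smul' := fun r A => by simp [Matrix.kronecker_smul]
      map_zero' := by simp
      map_add' := fun A B => Matrix.kronecker_add 1 A B
      map_mul' := fun A B => by
        rw [← Matrix.mul_kronecker_mul, one_mul]
      map_star' := fun A => by
        rw [Matrix.star_eq_conjTranspose, Matrix.star_eq_conjTranspose,
          Matrix.conjTranspose_kronecker, Matrix.conjTranspose_one] }
  have h1 : ‖f1 A‖ ≤ ‖A‖ := NonUnitalStarAlgHom.norm_apply_le f1 A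
  have h2 : ‖f2 B‖ ≤ ‖B‖ := NonUnitalStarAlgHom.norm_apply_le f2 B
  have h3 : A ⊗ₖ B = f1 A * f2 B := by
    show A ⊗ₖ B = (A ⊗ₖ (1 : Matrix m m ℂ)) * ((1 : Matrix m m ℂ) ⊗ₖ B)
    rw [← Matrix.mul_kronecker_mul, one_mul, mul_one]
  rw [h3]
  calc ‖f1 A * f2 B‖ ≤ ‖f1 A‖ * ‖f2 B‖ := norm_mul_le _ _
    _ ≤ ‖A‖ * ‖B‖ := by gcongr

/-- inner evaluation, slice by slice -/
def inn {Λ m : Type} (z : (Λ → Matrix m m ℂ) →ₗ[ℂ] ℂ) :
    (Λ → Matrix (m × m) (m × m) ℂ) →ₗ[ℂ] Matrix m m ℂ where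
  toFun w := Matrix.of fun a b => z (fun l => sl a b (w l))
  map_add' w w' := by
    ext a b
    simp only [Matrix.of_apply, Matrix.add_apply]
    rw [← map_add]
    rfl
  map_smul' r w := by
    ext a b
    simp only [Matrix.of_apply, Matrix.smul_apply, RingHom.id_apply]
    rw [← map_smul]
    rfl

lemma inn_apply {Λ m : Type} (z : (Λ → Matrix m m ℂ) →ₗ[ℂ] ℂ)
    (w : Λ → Matrix (m × m) (m × m) ℂ) (a b : m) :
    inn z w a b = z (fun l => sl a b (w l)) := rfl

lemma inn_form {Λ m : Type} [Fintype m] [DecidableEq m] (z : (Λ → Matrix m m ℂ) →ₗ[ℂ] ℂ)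
    (w : Λ → Matrix (m × m) (m × m) ℂ) (η ξ : m → ℂ) :
    ∑ a, ∑ b, (star (η a) * ξ b) * inn z w a b = z (fun l => cmp η ξ (w l)) := by
  have h : (fun l => cmp η ξ (w l)) =
      ∑ a, ∑ b, (star (η a) * ξ b) • (fun l => sl a b (w l)) := by
    funext l
    rw [cmp_eq]
    simp only [Finset.sum_apply, Pi.smul_apply]
  rw [h]
  simp only [map_sum, map_smul, smul_eq_mul, inn_apply]

lemma inn_norm {Λ m : Type} [Fintype m] [DecidableEq m] (z : (Λ → Matrix m m ℂ) →ₗ[ℂ] ℂ) (R : ℝ)
    (hR : 0 ≤ R)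
    (hz : ∀ (w : Λ → Matrix m m ℂ) (c : ℝ), 0 ≤ c → (∀ k, ‖w k‖ ≤ c) → ‖z w‖ ≤ R * c)
    (w : Λ → Matrix (m × m) (m × m) ℂ) (c : ℝ) (hc : 0 ≤ c) (hw : ∀ k, ‖w k‖ ≤ c) :
    ‖inn z w‖ ≤ R * c := by
  refine norm_le_of_form _ _ (by positivity) fun η ξ => ?_
  rw [inn_form z w η ξ]
  have h1 := hz (fun l => cmp η ξ (w l)) (‖η‖ * c * ‖ξ‖) (by positivity) (fun k => by
    refine (cmp_norm _ _ _).trans ?_
    have := hw k
    show ‖η‖ * ‖w k‖ * ‖ξ‖ ≤ _
    gcongr)
  refine h1.trans (le_of_eq ?_)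
  ring

end GapSq

theorem gap_sq {Λ : Type} [Fintype Λ] {ι : ℕ → Type} [∀ i, Fintype (ι i)]
    [∀ i, DecidableEq (ι i)] (u : Λ → ∀ i, Matrix (ι i) (ι i) ℂ) (R L : ℝ) (hL : 0 ≤ L)
    (h : Gap u R L) :
    Gap (Λ := Λ × Λ) (ι := fun i => ι i × ι i) (fun kl i => u kl.1 i ⊗ₖ u kl.2 i) (R * R) (L * L) := by
  obtain ⟨hR, hu, hj⟩ := h
  refine ⟨by positivity, fun kl i => ?_, fun j => ?_⟩
  · refine (GapSq.kron_norm _ _).trans ?_
    have h1 := hu kl.1 i
    have h2 := hu kl.2 i
    have h3 := norm_nonneg (u kl.1 i)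
    have h4 := norm_nonneg (u kl.2 i)
    nlinarith
  obtain ⟨z, hz1, hz2, hz3⟩ := hj j
  let Z : (Λ × Λ → Matrix (ι j × ι j) (ι j × ι j) ℂ) →ₗ[ℂ] ℂ :=
    { toFun := fun w => z (fun k => GapSq.inn z (fun l => w (k, l)))
      map_add' := fun w w' => by
        rw [← map_add]
        congr 1
        funext k
        show _ = GapSq.inn z _ + GapSq.inn z _
        rw [← map_add]
        rfl
      map_smul' := fun r w => by
        rw [RingHom.id_apply, ← map_smul]
        congr 1
        funext k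
        show _ = r • GapSq.inn z _
        rw [← map_smul]
        rfl }
  have hZ : ∀ w, Z w = z (fun k => GapSq.inn z (fun l => w (k, l))) := fun w => rfl
  refine ⟨Z, ?_, ?_, ?_⟩
  · intro w c hc hw
    rw [hZ, mul_assoc]
    refine hz1 _ _ (by positivity) fun k => ?_
    exact GapSq.inn_norm z R hR hz1 _ c hc fun l => hw (k, l)
  · intro T hT
    rw [hZ]
    let S : (∀ i, Matrix (ι i) (ι i) ℂ) →ₗ[ℂ] Matrix (ι j) (ι j) ℂ :=
      { toFun := fun q => GapSq.inn z (fun l => T (fun i => q i ⊗ₖ u l i))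
        map_add' := fun q q' => by
          rw [← map_add]
          congr 1
          funext l
          show _ = T _ + T _
          rw [← map_add]
          congr 1
          funext i
          exact Matrix.add_kronecker _ _ _
        map_smul' := fun r q => by
          rw [RingHom.id_apply, ← map_smul]
          congr 1
          funext l
          show _ = r • T _
          rw [← map_smul]
          congr 1
          funext i
          exact Matrix.smul_kronecker r (q i) (u l i) }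
    have hS : ∀ q, S q = GapSq.inn z (fun l => T (fun i => q i ⊗ₖ u l i)) := fun q => rfl
    have hSC : Ctr 1 S := by
      intro q c hq
      have hc : 0 ≤ c := by
        obtain ⟨i, hi⟩ := hq.exists
        exact (norm_nonneg _).trans hi
      rw [hS, one_mul]
      refine GapSq.norm_le_of_form _ _ hc fun η ξ => ?_
      rw [GapSq.inn_form z _ η ξ]
      refine le_of_forall_pos_le_add fun ε hε => ?_
      set K : ℝ := c * (‖η‖ * ‖ξ‖) + ε with hK
      have hKpos : 0 < K := by positivity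
      let T' : (∀ i, Matrix (ι i) (ι i) ℂ) →ₗ[ℂ] Matrix (ι j) (ι j) ℂ :=
        { toFun := fun x => ((1 / K : ℝ) : ℂ) • GapSq.cmp η ξ (T (fun i => q i ⊗ₖ x i))
          map_add' := fun x x' => by
            have h1 : T (fun i => q i ⊗ₖ (x + x') i) = T (fun i => q i ⊗ₖ x i) +
                T (fun i => q i ⊗ₖ x' i) := by
              rw [← map_add]
              congr 1
              funext i
              exact Matrix.kronecker_add _ _ _
            rw [h1, ← smul_add]
            congr 1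
            simp only [GapSq.cmp, Matrix.mul_add, Matrix.add_mul]
          map_smul' := fun r x => by
            have h1 : T (fun i => q i ⊗ₖ (r • x) i) = r • T (fun i => q i ⊗ₖ x i) := by
              rw [← map_smul]
              congr 1
              funext i
              exact Matrix.kronecker_smul r (q i) (x i)
            rw [h1, RingHom.id_apply, smul_comm]
            congr 1
            simp only [GapSq.cmp, Matrix.mul_smul, Matrix.smul_mul] }
      have hT' : ∀ x, T' x = ((1 / K : ℝ) : ℂ) • GapSq.cmp η ξ (T (fun i => q i ⊗ₖ x i)) :=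
        fun x => rfl
      have hTC : Ctr 1 T' := by
        intro x c' hx
        have hc' : 0 ≤ c' := by
          obtain ⟨i, hi⟩ := hx.exists
          exact (norm_nonneg _).trans hi
        have h1 : ‖T (fun i => q i ⊗ₖ x i)‖ ≤ 1 * (c * c') := by
          refine hT _ _ ?_
          filter_upwards [hq, hx] with i h2 h3
          refine (GapSq.kron_norm _ _).trans ?_
          gcongr
        rw [one_mul] at h1
        rw [hT', norm_smul, one_mul, Complex.norm_real, Real.norm_of_nonneg (by positivity)]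
        have h2 : ‖GapSq.cmp η ξ (T (fun i => q i ⊗ₖ x i))‖ ≤ ‖η‖ * (c * c') * ‖ξ‖ := by
          refine (GapSq.cmp_norm _ _ _).trans ?_
          show ‖η‖ * ‖T (fun i => q i ⊗ₖ x i)‖ * ‖ξ‖ ≤ _
          gcongr
        calc 1 / K * ‖GapSq.cmp η ξ (T (fun i => q i ⊗ₖ x i))‖
            ≤ 1 / K * (‖η‖ * (c * c') * ‖ξ‖) := by gcongr
          _ ≤ c' := by
              rw [one_div, inv_mul_le_iff₀ hKpos, hK]
              have : 0 ≤ ε * c' := by positivity
              nlinarith
      have h1 := hz2 T' hTC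
      have h2 : z (fun k => T' (u k)) = ((1 / K : ℝ) : ℂ) •
          z (fun l => GapSq.cmp η ξ (T (fun i => q i ⊗ₖ u l i))) := by
        rw [← map_smul]
        rfl
      rw [h2, norm_smul, Complex.norm_real, Real.norm_of_nonneg (by positivity), one_div,
        inv_mul_le_iff₀ hKpos, mul_one] at h1
      exact h1
    exact hz2 S hSC
  · rw [hZ]
    have h1 : ∀ k, GapSq.inn z (fun l => u k j ⊗ₖ u l j) = z (fun l => u l j) • u k j := by
      intro k
      ext a b
      rw [GapSq.inn_apply, Matrix.smul_apply, smul_eq_mul]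
      have h2 : (fun l => GapSq.sl a b (u k j ⊗ₖ u l j)) = u k j a b • (fun l => u l j) := by
        funext l
        ext c d
        rfl
      rw [h2, map_smul, smul_eq_mul, mul_comm]
    have h3 : z (fun k => GapSq.inn z (fun l => u k j ⊗ₖ u l j)) =
        z (fun l => u l j) * z (fun l => u l j) := by
      have h4 : (fun k => GapSq.inn z (fun l => u k j ⊗ₖ u l j)) =
          z (fun l => u l j) • (fun k => u k j) := by
        funext k
        exact h1 k
      rw [h4, map_smul, smul_eq_mul]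
    show L * L ≤ ‖z (fun k => GapSq.inn z (fun l => u k j ⊗ₖ u l j))‖
    rw [h3, norm_mul]
    gcongr

end Pool.Agent.Helper234.Calkin
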