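import Mathlib

set_option autoImplicit false
open scoped Matrix.Norms.L2Operator Kronecker

namespace Pool.Agent.Helper234.Calkin


/-- The adjoint of a compact operator is compact. -/
theorem compact_star {H : Type} [NormedAddCommGroup H] [InnerProductSpace ℂ H] [CompleteSpace H]
    (x : H →L[ℂ] H) (hx : IsCompactOperator (⇑x)) : IsCompactOperator (⇑(star x)) := by
  have hy : IsCompactOperator (⇑x ∘ ⇑(star x)) := hx.comp_clm (star x : H →L[ℂ] H)
  have hsq : ∀ w : H, ‖(star x) w‖ ^ 2 ≤ ‖w‖ * ‖x ((star x) w)‖ := by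
    intro w
    have h1 : inner ℂ ((star x) w) ((star x) w) = inner ℂ w (x ((star x) w)) := by
      rw [ContinuousLinearMap.star_eq_adjoint, ContinuousLinearMap.adjoint_inner_left]
    have h2 : ‖(star x) w‖ ^ 2 = RCLike.re (inner ℂ ((star x) w) ((star x) w)) :=
      norm_sq_eq_re_inner _
    rw [h2, h1]
    exact (RCLike.re_le_norm _).trans (norm_inner_le_norm _ _)
  have hyc := hy.isCompact_closure_image_closedBall (f := ((x ∘L (star x : H →L[ℂ] H) : H →L[ℂ] H) : H →ₗ[ℂ] H)) 1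
  have hyt : TotallyBounded ((fun w => x ((star x) w)) '' Metric.closedBall 0 1) :=
    hyc.totallyBounded.subset subset_closure
  have key : TotallyBounded (⇑(star x : H →L[ℂ] H) '' Metric.closedBall (0 : H) 1) := by
    rw [Metric.totallyBounded_iff]
    intro ε hε
    obtain ⟨t, hts, htf, htc⟩ := Metric.finite_approx_of_totallyBounded hyt (ε ^ 2 / 8)
      (by positivity)
    have hch : ∀ z : H, ∃ u : H, z ∈ t → (u ∈ Metric.closedBall (0 : H) 1 ∧ x ((star x) u) = z) := by
      intro z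
      by_cases hz : z ∈ t
      · obtain ⟨u, hu, huz⟩ := hts hz
        exact ⟨u, fun _ => ⟨hu, huz⟩⟩
      · exact ⟨0, fun h => absurd h hz⟩
    choose u hu using hch
    refine ⟨(fun z => (star x) (u z)) '' t, htf.image _, ?_⟩
    rintro _ ⟨v, hv, rfl⟩
    have hv2 : x ((star x) v) ∈ ⋃ y ∈ t, Metric.ball y (ε ^ 2 / 8) := htc ⟨v, hv, rfl⟩
    rw [Set.mem_iUnion₂] at hv2
    obtain ⟨z, hz, hvz⟩ := hv2
    rw [Set.mem_iUnion₂]
    refine ⟨(star x) (u z), ⟨z, hz, rfl⟩, ?_⟩
    obtain ⟨h1, h2⟩ := hu z hz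
    rw [mem_closedBall_zero_iff] at h1 hv
    rw [mem_ball_iff_norm, ← map_sub]
    rw [mem_ball_iff_norm, ← h2, ← map_sub, ← map_sub] at hvz
    have h3 := hsq (v - u z)
    have h4 : ‖v - u z‖ ≤ 2 := (norm_sub_le _ _).trans (by linarith)
    have h5 : ‖(star x) (v - u z)‖ ^ 2 ≤ 2 * (ε ^ 2 / 8) := by
      refine h3.trans ?_
      gcongr
    nlinarith [norm_nonneg ((star x) (v - u z))]
  have h := (isCompactOperator_iff_isCompact_closure_image_closedBall
    (f := ((star x : H →L[ℂ] H) : H →ₗ[ℂ] H)) (zero_lt_one' ℝ)).mpr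
  apply h
  exact isCompact_iff_totallyBounded_isComplete.mpr ⟨key.closure, isClosed_closure.isComplete⟩

end Pool.Agent.Helper234.Calkin
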