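import Mathlib
import Pool.Agent.Helper234.Calkin.Defs
import Pool.Agent.Helper234.Calkin.HB
import Pool.Agent.Helper234.Calkin.Sq
import Pool.Agent.Helper234.Calkin.Cpt
import Pool.Agent.Helper234.Calkin.Sep
import Pool.Agent.Helper234.Calkin.Alg
import Pool.Agent.Helper234.Calkin.Base
import Pool.Agent.Helper234.Calkin.Emb
import Pool.Agent.Helper234.Calkin.Star

set_option autoImplicit false
open scoped Matrix.Norms.L2Operator Kronecker

namespace Pool.Agent.Helper234.Calkin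

/-! ### Assembly -/

theorem gap_base : ∃ (Λ : Type) (_ : Fintype Λ) (ι : ℕ → Type) (_ : ∀ i, Fintype (ι i))
    (_ : ∀ i, DecidableEq (ι i)) (u : Λ → ∀ i, Matrix (ι i) (ι i) ℂ) (R : ℝ),
    Gap u R (1 + 1 / 10 ^ 10) := by
  classical
  -- pairwise coprime numbers: odd primes
  let p : ℕ → ℕ := fun i => Nat.nth Nat.Prime (i + 1)
  have hprime : ∀ i, (p i).Prime := fun i => Nat.prime_nth_prime _
  have hp : ∀ i, 3 ≤ p i := by
    intro i
    have h1 : Nat.nth Nat.Prime 1 ≤ p i :=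
      Nat.nth_monotone Nat.infinite_setOfPred_prime (by omega)
    have h2 : Nat.nth Nat.Prime 1 = 3 := Nat.nth_prime_one_eq_three
    omega
  have hinj : ∀ i i', i ≠ i' → p i ≠ p i' := by
    intro i i' h h'
    exact h (by
      have := Nat.nth_injective Nat.infinite_setOfPred_prime h'
      omega)
  have hcop : ∀ i i', i ≠ i' → Nat.Coprime (p i) (p i') := fun i i' h =>
    (Nat.coprime_primes (hprime i) (hprime i')).2 (hinj i i' h)
  have : ∀ i, NeZero (p i) := fun i => ⟨(hprime i).ne_zero⟩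
  refine ⟨Fin 2 × Fin 2 × Fin 9, inferInstance, fun i => Fin 2 × Y p i, inferInstance,
    inferInstance, uMat p, (1 + 1 / 10 ^ 10) / (1 / 10 ^ 10), by positivity, uMat_norm p, ?_⟩
  intro j
  -- the convex balanced set
  let 𝒞 : Set ((Fin 2 × Fin 2 × Fin 9) → Matrix (Fin 2 × Y p j) (Fin 2 × Y p j) ℂ) :=
    {w | ∃ T : (∀ i, Matrix (Fin 2 × Y p i) (Fin 2 × Y p i) ℂ) →ₗ[ℂ]
      Matrix (Fin 2 × Y p j) (Fin 2 × Y p j) ℂ, Ctr 1 T ∧ w = fun k => T (uMat p k)}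
  have hC0 : (0 : _) ∈ 𝒞 := by
    refine ⟨0, ?_, ?_⟩
    · intro x c hx
      obtain ⟨i, hi⟩ := hx.exists
      simpa using (norm_nonneg _).trans hi
    · rfl
  have hCconv : ∀ a ∈ 𝒞, ∀ b ∈ 𝒞, ∀ t : ℝ, 0 ≤ t → t ≤ 1 →
      ((t : ℂ) • a + ((1 - t : ℝ) : ℂ) • b) ∈ 𝒞 := by
    rintro a ⟨S, hS, rfl⟩ b ⟨T, hT, rfl⟩ t ht0 ht1
    refine ⟨(t : ℂ) • S + ((1 - t : ℝ) : ℂ) • T, ?_, rfl⟩
    intro x c hx
    have h1 := hS x c hx
    have h2 := hT x c hx
    have e1 : ‖(t : ℂ) • S x‖ = t * ‖S x‖ := by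
      rw [norm_smul]; simp [abs_of_nonneg ht0]
    have e2 : ‖((1 - t : ℝ) : ℂ) • T x‖ = (1 - t) * ‖T x‖ := by
      rw [norm_smul, Complex.norm_real, Real.norm_of_nonneg (by linarith)]
    calc ‖((t : ℂ) • S + ((1 - t : ℝ) : ℂ) • T) x‖
        = ‖(t : ℂ) • S x + ((1 - t : ℝ) : ℂ) • T x‖ := by simp
      _ ≤ t * ‖S x‖ + (1 - t) * ‖T x‖ := by
          rw [← e1, ← e2]; exact norm_add_le _ _
      _ ≤ 1 * c := by nlinarith
  have hCbal : ∀ a ∈ 𝒞, ∀ θ : ℂ, ‖θ‖ ≤ 1 → θ • a ∈ 𝒞 := by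
    rintro a ⟨S, hS, rfl⟩ θ hθ
    refine ⟨θ • S, ?_, rfl⟩
    intro x c hx
    have h1 := hS x c hx
    have : ‖(θ • S) x‖ = ‖θ‖ * ‖S x‖ := by
      rw [LinearMap.smul_apply, norm_smul]
    rw [this]
    have := norm_nonneg (S x)
    nlinarith [norm_nonneg θ]
  obtain ⟨z, hz1, hz2, hz3⟩ := HBsep 𝒞 hC0 hCconv hCbal (fun k => uMat p k j) (1 / 10 ^ 10)
    (by positivity) (by
      rintro w ⟨T, hT, rfl⟩
      by_contra hcon
      push Not at hcon
      refine base p hp hcop j (((1 + 1 / 10 ^ 10 : ℝ) : ℂ) • T) ?_ ?_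
      · intro x c hx
        have h1 := hT x c hx
        rw [LinearMap.smul_apply, norm_smul, Complex.norm_real, Real.norm_of_nonneg (by positivity)]
        have h3 : (0 : ℝ) ≤ 1 + 1 / 10 ^ 10 := by positivity
        nlinarith
      · intro k
        have h1 := norm_le_pi_norm ((fun k => uMat p k j) -
          ((1 + 1 / 10 ^ 10 : ℝ) : ℂ) • fun k => T (uMat p k)) k
        have h2 := h1.trans hcon
        rw [← norm_neg]
        simpa using h2)
  refine ⟨z, ?_, ?_, hz3⟩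
  · intro w c hc hw
    refine (hz2 w).trans ?_
    have : ‖w‖ ≤ c := (pi_norm_le_iff_of_nonneg hc).2 hw
    gcongr
  · intro T hT
    exact hz1 _ ⟨T, hT, rfl⟩

theorem gap_exists (L : ℝ) : ∃ (Λ : Type) (_ : Fintype Λ) (ι : ℕ → Type) (_ : ∀ i, Fintype (ι i))
    (_ : ∀ i, DecidableEq (ι i)) (u : Λ → ∀ i, Matrix (ι i) (ι i) ℂ) (R : ℝ), Gap u R L := by
  have key : ∀ m : ℕ, ∃ (Λ : Type) (_ : Fintype Λ) (ι : ℕ → Type) (_ : ∀ i, Fintype (ι i))
      (_ : ∀ i, DecidableEq (ι i)) (u : Λ → ∀ i, Matrix (ι i) (ι i) ℂ) (R : ℝ),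
      Gap u R ((1 + 1 / 10 ^ 10) ^ (2 ^ m)) := by
    intro m
    induction m with
    | zero => simpa using gap_base
    | succ m ih =>
      obtain ⟨Λ, i1, ι, i2, i3, u, R, h⟩ := ih
      refine ⟨Λ × Λ, inferInstance, fun i => ι i × ι i, inferInstance, inferInstance,
        fun kl i => u kl.1 i ⊗ₖ u kl.2 i, R * R, ?_⟩
      have := gap_sq u R _ (by positivity) h
      rwa [← pow_add, ← two_mul, ← pow_succ'] at this
  have hlim : Filter.Tendsto (fun m : ℕ => ((1 : ℝ) + 1 / 10 ^ 10) ^ (2 ^ m)) Filter.atTop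
      Filter.atTop := by
    have h1 : Filter.Tendsto (fun n : ℕ => ((1 : ℝ) + 1 / 10 ^ 10) ^ n) Filter.atTop Filter.atTop :=
      tendsto_pow_atTop_atTop_of_one_lt (by norm_num)
    exact h1.comp (tendsto_pow_atTop_atTop_of_one_lt (by norm_num : (1:ℕ) < 2))
  obtain ⟨m, hm⟩ := (hlim.eventually_ge_atTop L).exists
  obtain ⟨Λ, i1, ι, i2, i3, u, R, hR, hu, h⟩ := key m
  refine ⟨Λ, i1, ι, i2, i3, u, R, hR, hu, fun j => ?_⟩
  obtain ⟨z, h1, h2, h3⟩ := h j
  exact ⟨z, h1, h2, hm.trans h3⟩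

/-- The Hilbert space `ℓ²(ℕ)`. -/
noncomputable abbrev L2 := lp (fun _ : ℕ => ℂ) 2
/-- The bounded operators on `ℓ²(ℕ)`. -/
noncomputable abbrev BH := L2 →L[ℂ] L2

theorem level (L : ℝ) : ∃ G : Set BH, G.Countable ∧ ∀ (A : Submodule ℂ BH), G ⊆ (A : Set BH) →
    (∀ k : BH, IsCompactOperator (⇑k) → k ∈ A) → ∀ (σ : BH →ₗ[ℂ] BH) (C : ℝ), 0 < C →
    (∀ a ∈ A, ‖σ a‖ ≤ C * ‖a‖) → (∀ k : BH, IsCompactOperator (⇑k) → σ k = 0) →
    (∀ a ∈ A, IsCompactOperator (⇑(a - σ a))) → L ≤ 2 * C + 1 := by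
  classical
  obtain ⟨Λ, i1, ι, i2, i3, u, R, hR, hu, h⟩ := gap_exists L
  choose z hz1 hz2 hz3 using h
  have hE : ∀ j, ∃ E : Finset (∀ i, Matrix (ι i) (ι i) ℂ), (∀ x ∈ E, ∃ c, ∀ i, ‖x i‖ ≤ c) ∧
      ∀ T : (∀ i, Matrix (ι i) (ι i) ℂ) →ₗ[ℂ] Matrix (ι j) (ι j) ℂ,
        (∀ x ∈ Submodule.span ℂ (E : Set (∀ i, Matrix (ι i) (ι i) ℂ)), ∀ c : ℝ,
          (∀ᶠ i in Filter.atTop, ‖x i‖ ≤ c) → ‖T x‖ ≤ c) →
        ‖z j (fun k => T (u k))‖ ≤ 2 := by
    intro j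
    refine cpt u hu j (z j) ?_
    intro T hT
    exact hz2 j T (fun x c hx => by simpa using hT x c hx)
  choose E hE1 hE2 using hE
  obtain ⟨Δ, c, hΔ1, hΔ2, hΔ3, hc1, hc2⟩ := emb (ι := ι)
  refine ⟨(⋃ j, Δ '' (E j : Set _)) ∪ Set.range (fun k => Δ (u k)), ?_, ?_⟩
  · refine Set.Countable.union ?_ (Set.countable_range _)
    exact Set.countable_iUnion fun j => ((E j).countable_toSet).image _
  intro A hGA hKA σ C hC hσ1 hσ2 hσ3
  -- the compressed maps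
  let Tj : ∀ j, (∀ i, Matrix (ι i) (ι i) ℂ) →ₗ[ℂ] Matrix (ι j) (ι j) ℂ :=
    fun j => (c j).comp (σ.comp Δ)
  have hspanA : ∀ j, ∀ x ∈ Submodule.span ℂ (E j : Set (∀ i, Matrix (ι i) (ι i) ℂ)), Δ x ∈ A := by
    intro j x hx
    have : Submodule.span ℂ (E j : Set (∀ i, Matrix (ι i) (ι i) ℂ)) ≤ A.comap Δ := by
      rw [Submodule.span_le]
      intro y hy
      exact hGA (Or.inl (Set.mem_iUnion.2 ⟨j, y, hy, rfl⟩))
    exact this hx
  have hTj : ∀ j, ∀ x ∈ Submodule.span ℂ (E j : Set (∀ i, Matrix (ι i) (ι i) ℂ)), ∀ b : ℝ,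
      (∀ᶠ i in Filter.atTop, ‖x i‖ ≤ b) → ‖Tj j x‖ ≤ C * b := by
    intro j x hx b hb
    obtain ⟨i0, hi0⟩ := hb.exists
    have hb0 : 0 ≤ b := (norm_nonneg _).trans hi0
    -- cut off the finitely many bad coordinates
    let x' : ∀ i, Matrix (ι i) (ι i) ℂ := fun i => if ‖x i‖ ≤ b then x i else 0
    have hx'1 : ∀ i, ‖x' i‖ ≤ b := by
      intro i
      by_cases h : ‖x i‖ ≤ b
      · simpa [x', h] using h
      · simpa [x', h] using hb0
    have hx'2 : ∀ᶠ i in Filter.atTop, (x - x') i = 0 := by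
      filter_upwards [hb] with i hi
      simp [x', hi]
    have hcomp := hΔ2 _ hx'2
    have hσx : σ (Δ x) = σ (Δ x') := by
      have : Δ x = Δ x' + Δ (x - x') := by rw [← map_add]; congr 1; abel
      rw [this, map_add, hσ2 _ hcomp, add_zero]
    have hmem : Δ x' ∈ A := by
      have h1 := A.sub_mem (hspanA j x hx) (hKA _ hcomp)
      have : Δ x - Δ (x - x') = Δ x' := by rw [← map_sub]; congr 1; abel
      rwa [this] at h1
    calc ‖Tj j x‖ = ‖c j (σ (Δ x'))‖ := by simp [Tj, hσx]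
      _ ≤ ‖σ (Δ x')‖ := hc1 _ _
      _ ≤ C * ‖Δ x'‖ := hσ1 _ hmem
      _ ≤ C * b := by
          have := hΔ1 x' b hb0 hx'1
          gcongr
  have hup : ∀ j, ‖z j (fun k => Tj j (u k))‖ ≤ 2 * C := by
    intro j
    have h1 := hE2 j (((C⁻¹ : ℝ) : ℂ) • Tj j) (by
      intro x hx b hb
      have := hTj j x hx b hb
      rw [LinearMap.smul_apply, norm_smul, Complex.norm_real, Real.norm_of_nonneg (by positivity)]
      rw [inv_mul_le_iff₀ hC]
      exact this)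
    have h2 : (fun k => (((C⁻¹ : ℝ) : ℂ) • Tj j) (u k)) = ((C⁻¹ : ℝ) : ℂ) • fun k => Tj j (u k) := rfl
    rw [h2, map_smul, norm_smul, Complex.norm_real, Real.norm_of_nonneg (by positivity),
      inv_mul_le_iff₀ hC] at h1
    linarith
  -- the error terms
  have huA : ∀ k, Δ (u k) ∈ A := fun k => hGA (Or.inr ⟨k, rfl⟩)
  have herr : ∀ k, Filter.Tendsto (fun j => ‖c j (Δ (u k) - σ (Δ (u k)))‖) Filter.atTop (nhds 0) :=
    fun k => hc2 _ (hσ3 _ (huA k))
  obtain ⟨j, hj⟩ : ∃ j, ∀ k, ‖c j (Δ (u k) - σ (Δ (u k)))‖ ≤ 1 / (R + 1) := by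
    have hall : ∀ᶠ j in Filter.atTop, ∀ k, ‖c j (Δ (u k) - σ (Δ (u k)))‖ ≤ 1 / (R + 1) := by
      rw [Filter.eventually_all]
      intro k
      have hpos : (0 : ℝ) < 1 / (R + 1) := by positivity
      filter_upwards [(herr k).eventually (gt_mem_nhds hpos)] with j hj
      exact hj.le
    exact hall.exists
  have hdiff : (fun k => u k j) = (fun k => Tj j (u k)) + fun k => c j (Δ (u k) - σ (Δ (u k))) := by
    funext k
    have h1 := hΔ3 (u k) 1 (hu k) j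
    simp only [Pi.add_apply, Tj, LinearMap.comp_apply, map_sub, h1]
    abel
  have hlow := hz3 j
  rw [hdiff, map_add] at hlow
  have h2 := hz1 j (fun k => c j (Δ (u k) - σ (Δ (u k)))) (1 / (R + 1)) (by positivity) hj
  have h3 : R * (1 / (R + 1)) ≤ 1 := by
    rw [mul_one_div, div_le_one (by positivity)]; linarith
  have h4 := norm_add_le (z j fun k => Tj j (u k)) (z j fun k => c j (Δ (u k) - σ (Δ (u k))))
  linarith [hup j]

/-- **Main theorem.**  A separable C*-subalgebra of `B(ℓ²)` containing the compact operators, such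
that there is no bounded linear map on it killing the compact operators and equal to the identity
modulo compact operators. -/
theorem main : ∃ S : NonUnitalStarSubalgebra ℂ BH, IsClosed (S : Set BH) ∧
    TopologicalSpace.IsSeparable (S : Set BH) ∧
    (∀ k : BH, IsCompactOperator (⇑k) → k ∈ S) ∧
    ∀ (σ : S →ₗ[ℂ] BH) (C : ℝ), (∀ a : S, ‖σ a‖ ≤ C * ‖(a : BH)‖) →
      (∀ a : S, IsCompactOperator (⇑(a : BH)) → σ a = 0) →
      (∀ a : S, IsCompactOperator (⇑((a : BH) - σ a))) → False := by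
  classical
  choose G hG1 hG2 using fun n : ℕ => level (n : ℝ)
  obtain ⟨S, hS1, hS2, hS3⟩ := exists_separable_alg
    ((⋃ n, G n) ∪ {k : BH | IsCompactOperator (⇑k)})
    (((Set.countable_iUnion hG1).isSeparable).union compact_isSeparable)
  refine ⟨S, hS1, hS3, fun k hk => hS2 (Or.inr hk), ?_⟩
  intro σ C hσ1 hσ2 hσ3
  -- extend σ algebraically
  obtain ⟨τ, hτ⟩ := LinearMap.exists_extend (p := S.toSubmodule) σ
  have hτ' : ∀ (a : BH) (ha : a ∈ S), τ a = σ ⟨a, ha⟩ := by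
    intro a ha
    have := congrArg (fun f => f ⟨a, ha⟩) hτ
    simpa using this
  have hC : 0 < |C| + 1 := by positivity
  obtain ⟨n, hn⟩ := exists_nat_gt (2 * (|C| + 1) + 1)
  have := hG2 n S.toSubmodule (fun a ha => hS2 (Or.inl (Set.mem_iUnion.2 ⟨n, ha⟩)))
    (fun k hk => hS2 (Or.inr hk)) τ (|C| + 1) hC
    (by
      intro a ha
      have ha' : a ∈ S := ha
      rw [hτ' a ha']
      refine (hσ1 ⟨a, ha'⟩).trans ?_
      have h1 := le_abs_self C
      have h2 := norm_nonneg a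
      show C * ‖a‖ ≤ (|C| + 1) * ‖a‖
      nlinarith)
    (by
      intro k hk
      have hk' : k ∈ S := hS2 (Or.inr hk)
      rw [hτ' k hk']
      exact hσ2 ⟨k, hk'⟩ hk)
    (by
      intro a ha
      have ha' : a ∈ S := ha
      rw [hτ' a ha']
      exact hσ3 ⟨a, ha'⟩)
  linarith

/-- Negative answer for ideals in separable C*-algebras (frozen statement S02894). -/
theorem s02894 :
    ¬ (∀ (B : Type) [NonUnitalCStarAlgebra B] [TopologicalSpace.SeparableSpace B]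
      (I : Submodule ℂ B), IsClosed (I : Set B) →
      (∀ a ∈ I, ∀ b : B, b * a ∈ I ∧ a * b ∈ I) →
      ∃ P : B →L[ℂ] B, (∀ x, P x ∈ I) ∧ ∀ x ∈ I, P x = x) := by
  intro H
  obtain ⟨S, hS1, hS2, hS3, hS4⟩ := main
  have : IsClosed (S : Set BH) := hS1
  let _ : NonUnitalCStarAlgebra S := NonUnitalStarSubalgebra.nonUnitalCStarAlgebra S
  have : TopologicalSpace.SeparableSpace S := hS2.separableSpace
  let K : Submodule ℂ BH := compactOperator (RingHom.id ℂ) L2 L2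
  have hKmem : ∀ k : BH, k ∈ K ↔ IsCompactOperator (⇑k) := fun k => Iff.rfl
  have hKclosed : IsClosed (K : Set BH) := isClosed_setOfPred_isCompactOperator
  let j : S →L[ℂ] BH := S.toSubmodule.subtypeL
  have hj : ∀ a : S, j a = (a : BH) := fun a => rfl
  let I : Submodule ℂ S := K.comap (j : S →ₗ[ℂ] BH)
  have hImem : ∀ a : S, a ∈ I ↔ IsCompactOperator (⇑(a : BH)) := fun a => Iff.rfl
  obtain ⟨P, hP1, hP2⟩ := H S I (hKclosed.preimage j.continuous) (by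
    intro a ha b
    rw [hImem] at ha
    refine ⟨?_, ?_⟩
    · rw [hImem]
      exact ha.clm_comp (b : BH)
    · rw [hImem]
      exact ha.comp_clm (b : BH))
  refine hS4 ((j : S →ₗ[ℂ] BH) - (j.comp P : S →L[ℂ] BH)) (1 + ‖P‖) ?_ ?_ ?_
  · intro a
    have h1 : ‖P a‖ ≤ ‖P‖ * ‖a‖ := P.le_opNorm a
    have h2 := norm_sub_le (a : BH) (P a : S)
    have h3 : ‖((P a : S) : BH)‖ = ‖P a‖ := rfl
    have h4 : ‖(a : BH)‖ = ‖a‖ := rfl
    show ‖(a : BH) - ((P a : S) : BH)‖ ≤ _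
    rw [h3] at h2
    rw [h4] at h2 ⊢
    linarith
  · intro a ha
    have := hP2 a ((hImem a).2 ha)
    show (a : BH) - ((P a : S) : BH) = 0
    rw [this, sub_self]
  · intro a
    have := (hImem _).1 (hP1 a)
    have h2 : (a : BH) - (((j : S →ₗ[ℂ] BH) - (j.comp P : S →L[ℂ] BH)) a) = ((P a : S) : BH) := by
      show (a : BH) - ((a : BH) - ((P a : S) : BH)) = _
      abel
    rw [h2]
    exact this

/-- Negative answer for the compact operators as an ideal (frozen statement S03398). -/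
theorem s03398 :
    ¬ (∀ (A : Type) [NonUnitalCStarAlgebra A] [TopologicalSpace.SeparableSpace A]
      (φ : (lp (fun _ : ℕ => ℂ) 2 →L[ℂ] lp (fun _ : ℕ => ℂ) 2) →ₗ[ℂ] A),
      (∀ x y : lp (fun _ : ℕ => ℂ) 2 →L[ℂ] lp (fun _ : ℕ => ℂ) 2,
        IsCompactOperator (⇑x) → IsCompactOperator (⇑y) → φ (x * y) = φ x * φ y) →
      (∀ x : lp (fun _ : ℕ => ℂ) 2 →L[ℂ] lp (fun _ : ℕ => ℂ) 2,
        IsCompactOperator (⇑x) → φ (star x) = star (φ x)) →
      (∀ x : lp (fun _ : ℕ => ℂ) 2 →L[ℂ] lp (fun _ : ℕ => ℂ) 2,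
        IsCompactOperator (⇑x) → φ x = 0 → x = 0) →
      (∀ (a : A) (x : lp (fun _ : ℕ => ℂ) 2 →L[ℂ] lp (fun _ : ℕ => ℂ) 2),
        IsCompactOperator (⇑x) →
          (∃ y : lp (fun _ : ℕ => ℂ) 2 →L[ℂ] lp (fun _ : ℕ => ℂ) 2,
              IsCompactOperator (⇑y) ∧ a * φ x = φ y) ∧
          (∃ z : lp (fun _ : ℕ => ℂ) 2 →L[ℂ] lp (fun _ : ℕ => ℂ) 2,
              IsCompactOperator (⇑z) ∧ φ x * a = φ z)) →
      ∃ P : A →L[ℂ] A,
        (∀ a : A, ∃ x : lp (fun _ : ℕ => ℂ) 2 →L[ℂ] lp (fun _ : ℕ => ℂ) 2,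
            IsCompactOperator (⇑x) ∧ P a = φ x) ∧
        (∀ x : lp (fun _ : ℕ => ℂ) 2 →L[ℂ] lp (fun _ : ℕ => ℂ) 2,
            IsCompactOperator (⇑x) → P (φ x) = φ x)) := by
  intro H
  obtain ⟨S, hS1, hS2, hS3, hS4⟩ := main
  have : IsClosed (S : Set BH) := hS1
  let _ : NonUnitalCStarAlgebra S := NonUnitalStarSubalgebra.nonUnitalCStarAlgebra S
  have : TopologicalSpace.SeparableSpace S := hS2.separableSpace
  let K : Submodule ℂ BH := compactOperator (RingHom.id ℂ) L2 L2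
  have hKmem : ∀ k : BH, k ∈ K ↔ IsCompactOperator (⇑k) := fun k => Iff.rfl
  let j : S →L[ℂ] BH := S.toSubmodule.subtypeL
  have hj : ∀ a : S, j a = (a : BH) := fun a => rfl
  -- algebraic projection of `B(ℓ²)` onto the compact operators
  obtain ⟨r, hr⟩ := LinearMap.exists_leftInverse_of_injective K.subtype (Submodule.ker_subtype K)
  have hr' : ∀ (k : BH) (hk : IsCompactOperator (⇑k)), r k = ⟨k, hk⟩ := by
    intro k hk
    have := congrArg (fun f => f ⟨k, hk⟩) hr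
    simpa using this
  let inc : K →ₗ[ℂ] S :=
    { toFun := fun k => ⟨(k : BH), hS3 _ k.2⟩
      map_add' := fun _ _ => rfl
      map_smul' := fun _ _ => rfl }
  let φ : BH →ₗ[ℂ] S := inc.comp r
  have hφ : ∀ (k : BH) (hk : IsCompactOperator (⇑k)), ((φ k : S) : BH) = k := by
    intro k hk
    show ((inc (r k) : S) : BH) = k
    rw [hr' k hk]
    rfl
  obtain ⟨P, hP1, hP2⟩ := H S φ
    (by
      intro x y hx hy
      apply Subtype.ext
      have hxy : IsCompactOperator (⇑(x * y)) := hx.comp_clm y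
      show ((φ (x * y) : S) : BH) = ((φ x : S) : BH) * ((φ y : S) : BH)
      rw [hφ _ hxy, hφ _ hx, hφ _ hy])
    (by
      intro x hx
      apply Subtype.ext
      have hxs : IsCompactOperator (⇑(star x)) := compact_star x hx
      show ((φ (star x) : S) : BH) = star ((φ x : S) : BH)
      rw [hφ _ hxs, hφ _ hx])
    (by
      intro x hx h0
      rw [← hφ x hx, h0]
      rfl)
    (by
      intro a x hx
      refine ⟨⟨(a : BH) * x, hx.clm_comp (a : BH), ?_⟩, ⟨x * (a : BH), hx.comp_clm (a : BH), ?_⟩⟩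
      · apply Subtype.ext
        show (a : BH) * ((φ x : S) : BH) = ((φ ((a : BH) * x) : S) : BH)
        rw [hφ _ hx, hφ _ (hx.clm_comp (a : BH))]
      · apply Subtype.ext
        show ((φ x : S) : BH) * (a : BH) = ((φ (x * (a : BH)) : S) : BH)
        rw [hφ _ hx, hφ _ (hx.comp_clm (a : BH))])
  refine hS4 ((j : S →ₗ[ℂ] BH) - (j.comp P : S →L[ℂ] BH)) (1 + ‖P‖) ?_ ?_ ?_
  · intro a
    have h1 : ‖P a‖ ≤ ‖P‖ * ‖a‖ := P.le_opNorm a
    have h2 := norm_sub_le (a : BH) (P a : S)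
    have h3 : ‖((P a : S) : BH)‖ = ‖P a‖ := rfl
    have h4 : ‖(a : BH)‖ = ‖a‖ := rfl
    show ‖(a : BH) - ((P a : S) : BH)‖ ≤ _
    rw [h3] at h2
    rw [h4] at h2 ⊢
    linarith
  · intro a ha
    have h1 : φ (a : BH) = a := Subtype.ext (hφ _ ha)
    have := hP2 (a : BH) ha
    rw [h1] at this
    show (a : BH) - ((P a : S) : BH) = 0
    rw [this, sub_self]
  · intro a
    obtain ⟨x, hx, hPx⟩ := hP1 a
    have h2 : (a : BH) - (((j : S →ₗ[ℂ] BH) - (j.comp P : S →L[ℂ] BH)) a) = ((P a : S) : BH) := by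
      show (a : BH) - ((a : BH) - ((P a : S) : BH)) = _
      abel
    rw [h2, hPx, hφ x hx]
    exact hx

end Pool.Agent.Helper234.Calkin
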